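import Pool.Agent.HPY.Iface
import Pool.Agent.HPZ.EBas

/-!
# HPY/Asm: `AssemblyN` (as `HPX/AsmX`)

Bumps `V₀ = 1` on `[1/4, 3/4]`, supported in `(0, 1)`. `p = 1` (`Bas b 1`). We may assume `ε ≤ 1/18` (a larger `ε` allows
fewer `m`). `c₀` from `MainN`, `r ≥ r₀` from `ErrN` with `ε`, `ε' = c₀ / 2`, then `m₀` from `MainN` and `k₀`. For `m ≥ max m₀ 1`:
`SSum ≥ (c₀/2) #RR b^(k-1) / (b^m φ(b^m)) ≥ (c₀/2) b^(m-1) b^(k-1) / b^(2m) = c₁ b^(k-m)` and `CountProp` (`F = ∅`):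
`#primes ≥ SSum / (k log b) - 2 k log b b^(k/2) ≥ c₂ b^(k-m) / k` for `k` large, as `k - m ≥ 13 k / 18`. For `m < m₁ := max m₀ 1` the
set for `m` contains the set for `m₁` (`m₁ ≤ (5/18 - ε) k` for large `k`): take `c = c₂ b^(-m₁)`.
-/

namespace Pool.Agent.HPY

open Complex MeasureTheory Pool.Agent.HPZ
open Pool.Agent.HPP (Bp PP Gt lv)

private theorem AsmN_exists_Bp : ∃ V₀ η : ℝ → ℝ, Bp V₀ η ∧
    ∀ y, 1 / 4 ≤ y → y ≤ 3 / 4 → V₀ y = 1 := by
  let g₁ : ContDiffBump (1 / 2 : ℝ) := ⟨1 / 4, 3 / 8, by norm_num, by norm_num⟩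
  let g₂ : ContDiffBump (1 / 4 : ℝ) := ⟨1 / 16, 1 / 8, by norm_num, by norm_num⟩
  refine ⟨g₁, g₂, ?_, ?_⟩
  · constructor
    · intro n; exact g₁.contDiff
    · rw [g₁.tsupport_eq, Real.closedBall_eq_Icc]
      intro x hx
      have h1 : g₁.rOut = 3 / 8 := rfl
      rw [h1] at hx
      constructor <;> [have := hx.1; have := hx.2] <;> linarith
    · intro y; exact ⟨g₁.nonneg, g₁.le_one⟩
    · refine ⟨1 / 2, ?_⟩
      rw [g₁.one_of_mem_closedBall (Metric.mem_closedBall_self g₁.rIn_pos.le)]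
      exact one_ne_zero
    · intro n; exact g₂.contDiff
    · rw [g₂.tsupport_eq, Real.closedBall_eq_Icc]
      intro x hx
      have h1 : g₂.rOut = 1 / 8 := rfl
      rw [h1] at hx
      constructor <;> [have := hx.1; have := hx.2] <;> linarith
    · intro y; exact ⟨g₂.nonneg, g₂.le_one⟩
    · refine ⟨1 / 4, ?_⟩
      rw [g₂.one_of_mem_closedBall (Metric.mem_closedBall_self g₂.rIn_pos.le)]
      exact one_ne_zero
  · intro y h1 h2
    refine g₁.one_of_mem_closedBall ?_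
    rw [Real.closedBall_eq_Icc]
    have h3 : g₁.rIn = 1 / 4 := rfl
    rw [h3]
    constructor <;> linarith

private theorem AsmN_N0 {b p m k : ℕ} (hb : 2 ≤ b) (hm : 1 ≤ m) (hmk : 2 * m ≤ k) :
    (b : ℝ) ^ (k - m) / (b : ℝ) ^ 2 ≤
      (RR b p m ∅).card * (b : ℝ) ^ (k - 1) / ((b : ℝ) ^ m * (b ^ m).totient) := by
  have hB : (0 : ℝ) < b := by positivity
  have htot : ((b ^ m).totient : ℝ) ≤ (b : ℝ) ^ m := by
    have := Nat.totient_le (b ^ m)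
    exact_mod_cast this
  have htot0 : (0 : ℝ) < ((b ^ m).totient : ℝ) := by
    have : 0 < (b ^ m).totient := Nat.totient_pos.mpr (by positivity)
    exact_mod_cast this
  rw [card_RR hm (Finset.empty_subset _), Finset.card_empty, add_zero]
  push_cast
  calc (b : ℝ) ^ (k - m) / (b : ℝ) ^ 2
      = (b : ℝ) ^ (m - 1) * (b : ℝ) ^ (k - 1) / ((b : ℝ) ^ m * (b : ℝ) ^ m) := by
        rw [div_eq_div_iff (by positivity) (by positivity), ← pow_add, ← pow_add, ← pow_add,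
          ← pow_add]
        congr 1
        omega
    _ ≤ (b : ℝ) ^ (m - 1) * (b : ℝ) ^ (k - 1) / ((b : ℝ) ^ m * (b ^ m).totient) := by
        gcongr

private theorem AsmN_growth (L a C : ℝ) (hL : 0 < L) (ha : 0 < a) (hC : 0 < C) :
    ∀ᶠ k : ℕ in Filter.atTop, (k : ℝ) * L * (2 * k * L) ≤ C * Real.exp (a * k) := by
  have h := isLittleO_pow_exp_pos_mul_atTop 2 ha
  have h1 := h.bound (show 0 < C / (2 * L ^ 2) by positivity)
  have h2 := (tendsto_natCast_atTop_atTop (R := ℝ)).eventually h1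
  filter_upwards [h2] with k hk
  rw [Real.norm_of_nonneg (by positivity), Real.norm_of_nonneg (Real.exp_pos _).le] at hk
  have hD : 0 < 2 * L ^ 2 := by positivity
  calc (k : ℝ) * L * (2 * k * L) = (2 * L ^ 2) * (k : ℝ) ^ 2 := by ring
    _ ≤ (2 * L ^ 2) * (C / (2 * L ^ 2) * Real.exp (a * k)) := mul_le_mul_of_nonneg_left hk hD.le
    _ = C * Real.exp (a * k) := by field_simp

/-- the number of primes with exactly `k` digits and `m` matched pairs -/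
private noncomputable def AsmN_G (b k m : ℕ) : ℝ :=
  (((Finset.range (b ^ k)).filter fun n => n.Prime ∧
    b ^ (k - 1) ≤ n ∧ ∀ i < m,
      (Nat.digits b n).getD i 0 = (Nat.digits b n).getD (k - 1 - i) 0).card : ℝ)

private theorem AsmN_anti (b k : ℕ) {m m' : ℕ} (h : m ≤ m') : AsmN_G b k m' ≤ AsmN_G b k m := by
  unfold AsmN_G
  norm_cast
  refine Finset.card_le_card fun n hn => ?_
  simp only [Finset.mem_filter] at hn ⊢
  exact ⟨hn.1, hn.2.1, hn.2.2.1, fun i hi => hn.2.2.2 i (lt_of_lt_of_le hi h)⟩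

/-- the case `m₁ ≤ m` -/
private theorem AsmN_big (hM : MainN) (hC : CountProp) (hE : ErrN) (b : ℕ) (hb2 : 2 ≤ b) (ε : ℝ)
    (hε : 0 < ε) (hε1 : ε ≤ 1 / 18) : ∃ c : ℝ, 0 < c ∧ ∃ m₁ k₀ : ℕ, ∀ k : ℕ, k₀ ≤ k → ∀ m : ℕ,
    m₁ ≤ m → (m : ℝ) ≤ (5 / 18 - ε) * k → c * (b : ℝ) ^ (k - m) / k ≤ AsmN_G b k m := by
  obtain ⟨V₀, η, hB, hV⟩ := AsmN_exists_Bp
  have hBpos : (0 : ℝ) < b := by positivity
  have hB2 : (2 : ℝ) ≤ b := by exact_mod_cast hb2
  have hB1 : (1 : ℝ) < b := by linarith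
  have hL : 0 < Real.log b := Real.log_pos hB1
  have hp : Bas b 1 := ⟨hb2, le_rfl, by omega, Nat.coprime_one_left b⟩
  obtain ⟨c₀, hc₀, hc⟩ := hM V₀ η hB hV b 1 hp
  obtain ⟨r₀, hr₀⟩ := hE V₀ η hB b 1 hp ε hε
  obtain ⟨k₁, hk₁⟩ := hr₀ (max r₀ 1) (le_max_left _ _) (c₀ / 2) (by positivity)
  obtain ⟨m₀, hm₀⟩ := hc (max r₀ 1) (le_max_right _ _)
  have ev4 := AsmN_growth (Real.log b) (2 / 9 * Real.log b) (c₀ / (4 * (b : ℝ) ^ 2)) hL
    (by positivity) (by positivity)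
  obtain ⟨k₂, hk₂⟩ := Filter.eventually_atTop.mp ev4
  refine ⟨c₀ / (4 * (b : ℝ) ^ 2 * Real.log b), by positivity, max m₀ 1, max k₁ (max k₂ 1),
    fun k hk m hm hmk => ?_⟩
  have hkk₁ : k₁ ≤ k := (le_max_left _ _).trans hk
  have hkk₂ : k₂ ≤ k := ((le_max_left _ _).trans (le_max_right _ _)).trans hk
  have hk1n : 1 ≤ k := ((le_max_right _ _).trans (le_max_right _ _)).trans hk
  have hmm₀ : m₀ ≤ m := (le_max_left _ _).trans hm
  have hm1 : 1 ≤ m := (le_max_right _ _).trans hm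
  have hk1 : (1 : ℝ) ≤ k := by exact_mod_cast hk1n
  have hk0 : (0 : ℝ) < k := by linarith
  have e4 := hk₂ k hkk₂
  have h2m : (m : ℝ) ≤ 5 / 18 * k := by
    have : (5 / 18 - ε) * (k : ℝ) ≤ 5 / 18 * k :=
      mul_le_mul_of_nonneg_right (by linarith) hk0.le
    linarith
  have h2mk : 2 * m ≤ k := by
    have : (2 : ℝ) * m ≤ k := by linarith only [h2m, hk1]
    exact_mod_cast this
  have hMain := hm₀ m hmm₀ k h2mk
  have hErr := hk₁ k hkk₁ m hm1 hmk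
  have hCount := hC V₀ η hB b 1 m k ∅ hp (Finset.empty_subset _) hm1 h2mk
  have hN := AsmN_N0 (p := 1) hb2 hm1 h2mk
  set G : ℝ := (((Finset.range (b ^ k)).filter fun n => n.Prime ∧ b ^ (k - 1) ≤ n ∧
    ∀ i < m, i ∉ (∅ : Finset ℕ) →
      (Nat.digits b n).getD i 0 = (Nat.digits b n).getD (k - 1 - i) 0).card : ℝ) with hG
  have hGeq : AsmN_G b k m = G := by
    rw [hG]
    unfold AsmN_G
    congr 2
    refine Finset.filter_congr fun n _ => ?_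
    simp only [Finset.notMem_empty, not_false_eq_true, true_imp_iff]
  rw [hGeq]
  set N₀ : ℝ := ((RR b 1 m ∅).card * (b : ℝ) ^ (k - 1) /
    ((b : ℝ) ^ m * (b ^ m).totient)) with hN₀
  have htot0 : (0 : ℝ) < ((b ^ m).totient : ℝ) := by
    have : 0 < (b ^ m).totient := Nat.totient_pos.mpr (by positivity)
    exact_mod_cast this
  have hN₀0 : 0 ≤ N₀ := by rw [hN₀]; positivity
  have hE2 : E2 b 1 m k (max r₀ 1) (fun y => V₀ (y - (1 : ℕ))) /
      ((b : ℝ) ^ m * (b ^ m).totient) ≤ c₀ / 2 * N₀ := by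
    calc E2 b 1 m k (max r₀ 1) (fun y => V₀ (y - (1 : ℕ))) / ((b : ℝ) ^ m * (b ^ m).totient)
        ≤ (c₀ / 2 * (RR b 1 m ∅).card * (b : ℝ) ^ (k - 1)) /
          ((b : ℝ) ^ m * (b ^ m).totient) := by gcongr
      _ = c₀ / 2 * N₀ := by rw [hN₀]; ring
  have hS : c₀ / 2 * N₀ ≤
      k * Real.log b * (G + 2 * k * Real.log b * (b : ℝ) ^ ((k : ℝ) / 2)) := by
    refine le_trans ?_ hCount
    linarith
  set X : ℝ := (b : ℝ) ^ (k - m) with hX
  have hX0 : 0 < X := by rw [hX]; positivity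
  have hXN : c₀ / 2 * (X / (b : ℝ) ^ 2) ≤ c₀ / 2 * N₀ :=
    mul_le_mul_of_nonneg_left hN (by positivity)
  have habs : (k : ℝ) * Real.log b * (2 * k * Real.log b) * (b : ℝ) ^ ((k : ℝ) / 2) ≤
      c₀ / (4 * (b : ℝ) ^ 2) * X := by
    have h1 : Real.exp (2 / 9 * Real.log b * k) = (b : ℝ) ^ (2 / 9 * k : ℝ) := by
      rw [Real.rpow_def_of_pos hBpos]; congr 1; ring
    have h2 : (b : ℝ) ^ (2 / 9 * k : ℝ) * (b : ℝ) ^ ((k : ℝ) / 2) ≤ X := by
      rw [← Real.rpow_add hBpos, hX, ← Real.rpow_natCast]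
      refine Real.rpow_le_rpow_of_exponent_le hB1.le ?_
      have h3 : (k : ℝ) ≤ ((k - m : ℕ) : ℝ) + m := by
        have : k ≤ (k - m) + m := by omega
        exact_mod_cast this
      linarith only [h3, h2m]
    calc (k : ℝ) * Real.log b * (2 * k * Real.log b) * (b : ℝ) ^ ((k : ℝ) / 2)
        ≤ c₀ / (4 * (b : ℝ) ^ 2) * Real.exp (2 / 9 * Real.log b * k) *
          (b : ℝ) ^ ((k : ℝ) / 2) := by gcongr
      _ = c₀ / (4 * (b : ℝ) ^ 2) * ((b : ℝ) ^ (2 / 9 * k : ℝ) * (b : ℝ) ^ ((k : ℝ) / 2)) := by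
          rw [h1]; ring
      _ ≤ c₀ / (4 * (b : ℝ) ^ 2) * X := by gcongr
  have h5 : c₀ / (4 * (b : ℝ) ^ 2) * X ≤ k * Real.log b * G := by
    have h6 : c₀ / 2 * (X / (b : ℝ) ^ 2) = 2 * (c₀ / (4 * (b : ℝ) ^ 2) * X) := by
      field_simp; ring
    have h7 : k * Real.log b * (G + 2 * k * Real.log b * (b : ℝ) ^ ((k : ℝ) / 2)) =
        k * Real.log b * G +
        (k : ℝ) * Real.log b * (2 * k * Real.log b) * (b : ℝ) ^ ((k : ℝ) / 2) := by ring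
    linarith only [h6, h7, hXN, hS, habs]
  have h8 : c₀ / (4 * (b : ℝ) ^ 2 * Real.log b) * X / k =
      c₀ / (4 * (b : ℝ) ^ 2) * X / (k * Real.log b) := by
    field_simp
  rw [h8, div_le_iff₀ (by positivity)]
  linarith only [h5]

theorem assemblyN : AssemblyN := by
  intro hM hC hE b hb2 ε hε
  have hBpos : (0 : ℝ) < b := by positivity
  have hB1 : (1 : ℝ) ≤ b := by
    have : (2 : ℝ) ≤ b := by exact_mod_cast hb2
    linarith
  obtain ⟨c, hc, m₁, k₀, h⟩ := AsmN_big hM hC hE b hb2 (min ε (1 / 18))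
    (lt_min hε (by norm_num)) (min_le_right _ _)
  refine ⟨c / (b : ℝ) ^ m₁, by positivity, max k₀ (5 * m₁), fun k hk m hm => ?_⟩
  have hkk₀ : k₀ ≤ k := (le_max_left _ _).trans hk
  have hkm : 5 * m₁ ≤ k := (le_max_right _ _).trans hk
  have hkmr : (5 : ℝ) * m₁ ≤ k := by exact_mod_cast hkm
  have hk0 : (0 : ℝ) ≤ k := Nat.cast_nonneg k
  have hεm : min ε (1 / 18) ≤ ε := min_le_left _ _
  have hεm' : min ε (1 / 18) ≤ 1 / 18 := min_le_right _ _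
  have hm' : (m : ℝ) ≤ (5 / 18 - min ε (1 / 18)) * k := by
    refine hm.trans (mul_le_mul_of_nonneg_right (by linarith) hk0)
  have hm₁ : (m₁ : ℝ) ≤ (5 / 18 - min ε (1 / 18)) * k := by
    have h1 : (4 / 18 : ℝ) * k ≤ (5 / 18 - min ε (1 / 18)) * k :=
      mul_le_mul_of_nonneg_right (by linarith) hk0
    linarith
  change c / (b : ℝ) ^ m₁ * (b : ℝ) ^ (k - m) / k ≤ AsmN_G b k m
  have hpw : (1 : ℝ) ≤ (b : ℝ) ^ m₁ := one_le_pow₀ hB1
  rcases le_total m₁ m with hmm | hmm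
  · refine le_trans ?_ (h k hkk₀ m hmm hm')
    have : c / (b : ℝ) ^ m₁ ≤ c := div_le_self hc.le hpw
    gcongr
  · refine le_trans ?_ ((h k hkk₀ m₁ le_rfl hm₁).trans (AsmN_anti b k hmm))
    have h1 : (b : ℝ) ^ (k - m) ≤ (b : ℝ) ^ m₁ * (b : ℝ) ^ (k - m₁) := by
      rw [← pow_add]
      exact pow_le_pow_right₀ hB1 (by omega)
    have h2 : c / (b : ℝ) ^ m₁ * (b : ℝ) ^ (k - m) ≤ c * (b : ℝ) ^ (k - m₁) := by
      calc c / (b : ℝ) ^ m₁ * (b : ℝ) ^ (k - m)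
          ≤ c / (b : ℝ) ^ m₁ * ((b : ℝ) ^ m₁ * (b : ℝ) ^ (k - m₁)) := by gcongr
        _ = c * (b : ℝ) ^ (k - m₁) := by field_simp
    gcongr

end Pool.Agent.HPY
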