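import Pool.Agent.HPY.Iface
import Pool.Agent.HPZ.EBas

/-!
# HPY/MCnt: lower bound of the main term (as `HPX/MCnt`)

Patterns with `d₁ = b / 2`, `d₂ = 0`: `top / b^(m-1) - p ∈ [⌊b/2⌋/b, ⌊b/2⌋/b + 1/b²) ⊆ [1/3, 3/4]`, so the weight is `1`; their
number is `#RR / b²` (`m ≥ 3`; `card_RR`). For them `y = top / b^(m-1) ∈ [1, b]`, so `y exp (-(log y)²) ≥ exp (-(log b)²)`.
-/

namespace Pool.Agent.HPY

open Complex MeasureTheory Pool.Agent.HPZ
open Pool.Agent.HPP (Bp PP Gt lv)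

private theorem rest_lt {b : ℕ} : ∀ {n : ℕ} (f : Fin n → ℕ), (∀ i, f i < b) →
    ∑ i : Fin n, f i * b ^ (n - 1 - (i : ℕ)) < b ^ n := by
  intro n
  induction n with
  | zero => intro f _; simp
  | succ n ih =>
    intro f hf
    rw [Fin.sum_univ_succ]
    have h1 := ih (fun i => f (Fin.succ i)) (fun i => hf _)
    have h2 : f 0 + 1 ≤ b := hf _
    have h3 : (f 0 + 1) * b ^ n ≤ b * b ^ n := Nat.mul_le_mul_right _ h2
    have h4 : ∑ i : Fin n, f (Fin.succ i) * b ^ (n + 1 - 1 - ((Fin.succ i : Fin (n + 1)) : ℕ)) =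
        ∑ i : Fin n, f (Fin.succ i) * b ^ (n - 1 - (i : ℕ)) := by
      refine Finset.sum_congr rfl fun i _ => ?_
      congr 2
      rw [Fin.val_succ]
      omega
    rw [h4]
    have h5 : n + 1 - 1 - ((0 : Fin (n + 1)) : ℕ) = n := by simp
    rw [h5]
    have h6 : b * b ^ n = b ^ (n + 1) := by ring
    have h7 : (f 0 + 1) * b ^ n = f 0 * b ^ n + b ^ n := by ring
    omega

private theorem top_dig {b p n : ℕ} (hb : Bas b p) {F : Finset ℕ} {ω : Fin (n + 3) → ℕ × ℕ}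
    (hω : ω ∈ RR b p (n + 3) F) :
    p * b ^ (n + 2) + (ω 1).2 * b ^ (n + 1) + (ω 2).2 * b ^ n ≤ topv b ω ∧
      topv b ω < p * b ^ (n + 2) + (ω 1).2 * b ^ (n + 1) + ((ω 2).2 + 1) * b ^ n := by
  have h0 : (ω 0).2 = p := by
    have h1 : ω 0 ∈ Sd b p F ((0 : Fin (n + 3)) : ℕ) := (Fintype.mem_piFinset.mp hω) 0
    unfold Sd at h1
    rw [if_pos (by simp), Finset.mem_singleton] at h1
    rw [h1]
  have h1 : topv b ω = p * b ^ (n + 2) + ((ω 1).2 * b ^ (n + 1) + ((ω 2).2 * b ^ n +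
      ∑ i : Fin n, (ω (Fin.succ (Fin.succ (Fin.succ i)))).2 * b ^ (n - 1 - (i : ℕ)))) := by
    unfold topv
    rw [Fin.sum_univ_succ, Fin.sum_univ_succ, Fin.sum_univ_succ, h0]
    congr 1
    congr 1
    congr 1
    refine Finset.sum_congr rfl fun i _ => ?_
    congr 2
    rw [Fin.val_succ, Fin.val_succ, Fin.val_succ]
    omega
  have h2 := rest_lt (b := b) (fun i : Fin n => (ω (Fin.succ (Fin.succ (Fin.succ i)))).2)
    (fun i => (digit_lt hb hω _).2)
  have h3 : ((ω 2).2 + 1) * b ^ n = (ω 2).2 * b ^ n + b ^ n := by ring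
  constructor <;> omega

private theorem card_fix {b p n d : ℕ} (hd : d < b) (h0 : 0 < b) :
    (RR b p (n + 3) ∅).card ≤ (b * b) * ((RR b p (n + 3) ∅).filter fun ω =>
      ω 1 = (d, d) ∧ ω 2 = (0, 0)).card := by
  classical
  have hone : ((1 : Fin (n + 3)) : ℕ) ≠ 0 := by
    simp
  have htwo : ((2 : Fin (n + 3)) : ℕ) ≠ 0 := by
    have : ((2 : Fin (n + 3)) : ℕ) = 2 := rfl
    omega
  have h12 : (1 : Fin (n + 3)) ≠ 2 := by
    intro h
    have h' := congrArg Fin.val h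
    have e1 : ((1 : Fin (n + 3)) : ℕ) = 1 := rfl
    have e2 : ((2 : Fin (n + 3)) : ℕ) = 2 := rfl
    omega
  have hcd : ∀ i : Fin (n + 3), (i : ℕ) ≠ 0 → (Sd b p ∅ (i : ℕ)).card ≤ b := by
    intro i hi
    unfold Sd
    rw [if_neg hi, if_neg (by simp)]
    refine Finset.card_image_le.trans ?_
    rw [Finset.card_range]
  refine Finset.card_le_mul_card_image_of_maps_to
    (f := fun ω : Fin (n + 3) → ℕ × ℕ =>
      Function.update (Function.update ω 1 (d, d)) 2 (0, 0)) ?_ (b * b) ?_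
  · intro ω hω
    have hω' := Fintype.mem_piFinset.mp hω
    refine Finset.mem_filter.mpr ⟨Fintype.mem_piFinset.mpr fun i => ?_, ?_, ?_⟩
    · by_cases hi2 : i = 2
      · subst hi2
        rw [Function.update_self]
        unfold Sd
        rw [if_neg htwo, if_neg (by simp)]
        exact Finset.mem_image.mpr ⟨0, Finset.mem_range.mpr h0, rfl⟩
      rw [Function.update_of_ne hi2]
      by_cases hi : i = 1
      · subst hi
        rw [Function.update_self]
        unfold Sd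
        rw [if_neg hone, if_neg (by simp)]
        exact Finset.mem_image.mpr ⟨d, Finset.mem_range.mpr hd, rfl⟩
      · rw [Function.update_of_ne hi]
        exact hω' i
    · rw [Function.update_of_ne h12, Function.update_self]
    · rw [Function.update_self]
  · intro ω' _
    have h1 : ((RR b p (n + 3) ∅).filter fun ω : Fin (n + 3) → ℕ × ℕ =>
        Function.update (Function.update ω 1 (d, d)) 2 (0, 0) = ω').card ≤
        (Sd b p ∅ ((1 : Fin (n + 3)) : ℕ) ×ˢ Sd b p ∅ ((2 : Fin (n + 3)) : ℕ)).card := by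
      refine Finset.card_le_card_of_injOn (fun ω => (ω 1, ω 2)) ?_ ?_
      · intro ω hω
        have hm := Fintype.mem_piFinset.mp (Finset.mem_filter.mp hω).1
        exact Finset.mem_coe.mpr (Finset.mem_product.mpr ⟨hm 1, hm 2⟩)
      · intro ω hω ω₂ hω₂ he
        have e1 := (Finset.mem_filter.mp hω).2
        have e2 := (Finset.mem_filter.mp hω₂).2
        have he1 : ω 1 = ω₂ 1 := congrArg Prod.fst he
        have he2 : ω 2 = ω₂ 2 := congrArg Prod.snd he
        funext i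
        by_cases hi2 : i = 2
        · subst hi2; exact he2
        by_cases hi : i = 1
        · subst hi; exact he1
        · have e3 := congrFun (e1.trans e2.symm) i
          rwa [Function.update_of_ne hi2, Function.update_of_ne hi,
            Function.update_of_ne hi2, Function.update_of_ne hi] at e3
    refine h1.trans ?_
    rw [Finset.card_product]
    exact Nat.mul_le_mul (hcd 1 hone) (hcd 2 htwo)

theorem main_count {V₀ η : ℝ → ℝ} (hB : Bp V₀ η) (hV : ∀ y, 1 / 4 ≤ y → y ≤ 3 / 4 → V₀ y = 1)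
    {b p : ℕ} (hb : Bas b p) {m : ℕ} (hm : 3 ≤ m) :
    Real.exp (-(Real.log b) ^ 2) / (b : ℝ) ^ 2 * ((RR b p m ∅).card : ℝ) ≤
      ∑ ω ∈ RR b p m ∅, wt b (fun y => V₀ (y - p)) ω *
        (((topv b ω : ℝ) / (b : ℝ) ^ (m - 1)) *
          Real.exp (-(Real.log ((topv b ω : ℝ) / (b : ℝ) ^ (m - 1))) ^ 2)) := by
  classical
  obtain ⟨n, rfl⟩ : ∃ n, m = n + 3 := ⟨m - 3, by omega⟩
  have hb2 : 2 ≤ b := hb.two
  have hbpos : (0 : ℝ) < b := by exact_mod_cast (by omega : 0 < b)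
  have hb2' : (2 : ℝ) ≤ b := by exact_mod_cast hb2
  have hp1 : 1 ≤ p := hb.pos
  set E : ℝ := Real.exp (-(Real.log b) ^ 2) with hE
  have hE0 : 0 < E := Real.exp_pos _
  set d : ℕ := b / 2 with hd
  have hd2 : d < b := by omega
  set f : (Fin (n + 3) → ℕ × ℕ) → ℝ := fun ω => wt b (fun y => V₀ (y - p)) ω *
        (((topv b ω : ℝ) / (b : ℝ) ^ (n + 3 - 1)) *
          Real.exp (-(Real.log ((topv b ω : ℝ) / (b : ℝ) ^ (n + 3 - 1))) ^ 2)) with hf
  have hn1 : n + 3 - 1 = n + 2 := by omega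
  have hf0 : ∀ ω, 0 ≤ f ω := by
    intro ω
    rw [hf]
    unfold wt
    exact mul_nonneg (hB.V_range _).1 (by positivity)
  have hfE : ∀ ω ∈ (RR b p (n + 3) ∅).filter (fun ω => ω 1 = (d, d) ∧ ω 2 = (0, 0)), E ≤ f ω := by
    intro ω hω
    obtain ⟨hω1, hω2, hω3⟩ := Finset.mem_filter.mp hω
    obtain ⟨t1, t2⟩ := top_dig hb hω1
    obtain ⟨t3, t4, t5⟩ := top_bounds hb (by omega) hω1
    rw [hω2, hω3] at t1 t2
    simp only [zero_mul, add_zero, zero_add, one_mul] at t1 t2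
    rw [hn1] at t3 t4
    have hP : (0 : ℝ) < (b : ℝ) ^ (n + 2) := by positivity
    have t1' : (p : ℝ) * (b : ℝ) ^ (n + 2) + d * (b : ℝ) ^ (n + 1) ≤ topv b ω := by
      exact_mod_cast t1
    have t2' : (topv b ω : ℝ) ≤ p * (b : ℝ) ^ (n + 2) + d * (b : ℝ) ^ (n + 1) + (b : ℝ) ^ n := by
      exact_mod_cast t2.le
    have t3' : (p : ℝ) * (b : ℝ) ^ (n + 2) ≤ topv b ω := by exact_mod_cast t3
    have t5' : (topv b ω : ℝ) ≤ (b : ℝ) ^ (n + 3) := by exact_mod_cast t5.le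
    have hp1' : (1 : ℝ) ≤ p := by exact_mod_cast hp1
    set y : ℝ := (topv b ω : ℝ) / (b : ℝ) ^ (n + 3 - 1) with hy
    have hyd : y = (topv b ω : ℝ) / (b : ℝ) ^ (n + 2) := by rw [hy, hn1]
    have hpow2 : (b : ℝ) ^ (n + 3) = b * (b : ℝ) ^ (n + 2) := by ring
    have hPn : (0 : ℝ) < (b : ℝ) ^ n := by positivity
    have y1 : p + (d : ℝ) / b ≤ y := by
      rw [hyd, le_div_iff₀ hP]
      have : (p + (d : ℝ) / b) * (b : ℝ) ^ (n + 2) =
          p * (b : ℝ) ^ (n + 2) + d * (b : ℝ) ^ (n + 1) := by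
        field_simp
        ring
      rw [this]; exact t1'
    have y2 : y ≤ p + (d : ℝ) / b + 1 / (b : ℝ) ^ 2 := by
      rw [hyd, div_le_iff₀ hP]
      have : (p + (d : ℝ) / b + 1 / (b : ℝ) ^ 2) * (b : ℝ) ^ (n + 2) =
          p * (b : ℝ) ^ (n + 2) + d * (b : ℝ) ^ (n + 1) + (b : ℝ) ^ n := by
        field_simp
        ring
      rw [this]; exact t2'
    have y3 : y ≤ b := by
      rw [hyd, div_le_iff₀ hP, ← hpow2]; exact t5'
    have y4 : 1 ≤ y := by
      rw [hyd, le_div_iff₀ hP, one_mul]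
      nlinarith
    have hdl : (b : ℝ) / 4 ≤ d := by
      have : b ≤ 4 * d := by omega
      have : (b : ℝ) ≤ 4 * d := by exact_mod_cast this
      linarith
    have hdu : (d : ℝ) ≤ b / 2 := by
      have : 2 * d ≤ b := by omega
      have : (2 : ℝ) * d ≤ b := by exact_mod_cast this
      linarith
    have hVy : V₀ (y - p) = 1 := by
      apply hV
      · have : (1 : ℝ) / 4 ≤ (d : ℝ) / b := by
          rw [le_div_iff₀ hbpos]; linarith
        linarith
      · have h6 : (d : ℝ) / b ≤ 1 / 2 := by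
          rw [div_le_iff₀ hbpos]; linarith
        have h7 : 1 / (b : ℝ) ^ 2 ≤ 1 / 4 := by
          apply one_div_le_one_div_of_le (by norm_num)
          nlinarith
        linarith
    have hlog : (Real.log y) ^ 2 ≤ (Real.log b) ^ 2 := by
      have l0 : 0 ≤ Real.log y := Real.log_nonneg y4
      have l1 : Real.log y ≤ Real.log b := Real.log_le_log (by linarith) y3
      exact pow_le_pow_left₀ l0 l1 2
    have hEle : E ≤ Real.exp (-(Real.log y) ^ 2) := Real.exp_le_exp.mpr (by linarith)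
    have hfe : f ω = V₀ (y - p) * (y * Real.exp (-(Real.log y) ^ 2)) := rfl
    rw [hfe, hVy, one_mul]
    calc E ≤ Real.exp (-(Real.log y) ^ 2) := hEle
      _ ≤ y * Real.exp (-(Real.log y) ^ 2) := le_mul_of_one_le_left (Real.exp_pos _).le y4
  have hc := card_fix (b := b) (p := p) (n := n) hd2 (by omega)
  have hc' : ((RR b p (n + 3) ∅).card : ℝ) ≤
      (b * b) * (((RR b p (n + 3) ∅).filter fun ω => ω 1 = (d, d) ∧ ω 2 = (0, 0)).card : ℝ) := by
    exact_mod_cast hc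
  calc E / (b : ℝ) ^ 2 * ((RR b p (n + 3) ∅).card : ℝ)
      ≤ E / (b : ℝ) ^ 2 * ((b * b) * (((RR b p (n + 3) ∅).filter fun ω =>
          ω 1 = (d, d) ∧ ω 2 = (0, 0)).card : ℝ)) :=
        mul_le_mul_of_nonneg_left hc' (by positivity)
    _ = (((RR b p (n + 3) ∅).filter fun ω => ω 1 = (d, d) ∧ ω 2 = (0, 0)).card : ℝ) * E := by
        field_simp
    _ = ∑ ω ∈ (RR b p (n + 3) ∅).filter (fun ω => ω 1 = (d, d) ∧ ω 2 = (0, 0)), E := by
        rw [Finset.sum_const, nsmul_eq_mul]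
    _ ≤ ∑ ω ∈ (RR b p (n + 3) ∅).filter (fun ω => ω 1 = (d, d) ∧ ω 2 = (0, 0)), f ω :=
        Finset.sum_le_sum hfE
    _ ≤ ∑ ω ∈ RR b p (n + 3) ∅, f ω :=
        Finset.sum_le_sum_of_subset_of_nonneg (Finset.filter_subset _ _) (fun ω _ _ => hf0 ω)

end Pool.Agent.HPY
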