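import Pool.Agent.HPY.Iface
import Pool.Agent.HPZ.AExp
import Pool.Agent.HPX.MLim

/-!
# HPY/MLim: the integral over `|t| < log x` for the principal character (port of `HPX/MLim`, with `m` in place of `2^J w`)

The set is `{t | |t| ≤ b^(m + m / r) ∧ |t| < log (b^(k-1))}`. (Whether the first condition is active does not matter:
`m → ∞`.) Use a filter on pairs `(m, k)`, `m → ∞`, `2 m ≤ k`, as in `HPX/MLim` (`HPP.lw`).
-/

namespace Pool.Agent.HPY

open Complex MeasureTheory Filter Topology Pool.Agent.HPZ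
open Pool.Agent.HPP (Bp PP Gt lv eh GG eh_le eh_continuous norm_GG_le continuous_GG lw eventually_lw)
open Pool.Agent.HPX (gaussX GG_integrable cpow_pos_real PNTProp)

variable {V₀ η : ℝ → ℝ}

/-- the real number `d₀.d₁d₂...` of a pattern -/
noncomputable def yvN (b : ℕ) {m : ℕ} (ω : Fin m → ℕ × ℕ) : ℝ :=
  (topv b ω : ℝ) / (b : ℝ) ^ (m - 1)

/-- the normalised sum `cc` for the principal character -/
noncomputable def zzN (b p m : ℕ) (V : ℝ → ℝ) (t : ℝ) : ℂ :=
  ∑ ω ∈ RR b p m ∅, (wt b V ω : ℂ) * cexp (-((t * Real.log (yvN b ω) : ℝ) * I))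

theorem zzN_norm {b p m : ℕ} {V : ℝ → ℝ} (hV : ∀ y, 0 ≤ V y ∧ V y ≤ 1) (t : ℝ) :
    ‖zzN b p m V t‖ ≤ ((RR b p m ∅).card : ℝ) := by
  unfold zzN
  refine (norm_sum_le _ _).trans ?_
  have h : ∀ ω ∈ RR b p m ∅, ‖(wt b V ω : ℂ) * cexp (-((t * Real.log (yvN b ω) : ℝ) * I))‖ ≤
      (1 : ℝ) := by
    intro ω _
    have h2 : -(((t * Real.log (yvN b ω) : ℝ) : ℂ) * I) =
        ((-(t * Real.log (yvN b ω)) : ℝ) : ℂ) * I := by
      push_cast
      ring
    rw [norm_mul, h2, Complex.norm_exp_ofReal_mul_I, mul_one, Complex.norm_real]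
    unfold wt
    rw [Real.norm_of_nonneg (hV _).1]
    exact (hV _).2
  refine (Finset.sum_le_sum h).trans (le_of_eq ?_)
  rw [Finset.sum_const, nsmul_eq_mul, mul_one]

theorem zzN_cont (b p m : ℕ) (V : ℝ → ℝ) : Continuous (zzN b p m V) := by
  unfold zzN
  refine continuous_finsetSum _ fun ω _ => ?_
  fun_prop

theorem zzGGN_integrable (b p m : ℕ) {V : ℝ → ℝ} (hV : ∀ y, 0 ≤ V y ∧ V y ≤ 1) :
    Integrable (fun t => zzN b p m V t * GG t) := by
  refine (GG_integrable.norm.const_mul ((RR b p m ∅).card : ℝ)).mono'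
    ((zzN_cont b p m V).mul continuous_GG).aestronglyMeasurable
    (Filter.Eventually.of_forall fun t => ?_)
  rw [norm_mul]
  exact mul_le_mul_of_nonneg_right (zzN_norm hV t) (norm_nonneg _)

theorem yvN_pos {b p m : ℕ} (hb : Bas b p) (hm : 1 ≤ m) {ω : Fin m → ℕ × ℕ}
    (hω : ω ∈ RR b p m ∅) : 0 < (topv b ω : ℝ) ∧ 0 < yvN b ω := by
  have hb0 : 0 < b := by have := hb.two; omega
  have h1 := (top_bounds hb hm hω).1
  have h2 : 0 < p * b ^ (m - 1) := Nat.mul_pos hb.pos (pow_pos hb0 _)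
  have h3 : (0 : ℝ) < (topv b ω : ℝ) := by exact_mod_cast (by omega : 0 < topv b ω)
  refine ⟨h3, ?_⟩
  unfold yvN
  have : (0 : ℝ) < b := by exact_mod_cast hb0
  positivity

theorem zzN_int {b p m : ℕ} (hb : Bas b p) (hm : 1 ≤ m) (V : ℝ → ℝ) :
    ∫ t : ℝ, zzN b p m V t * GG t = ((2 * Real.pi * ∑ ω ∈ RR b p m ∅, wt b V ω *
        (((topv b ω : ℝ) / (b : ℝ) ^ (m - 1)) *
          Real.exp (-(Real.log ((topv b ω : ℝ) / (b : ℝ) ^ (m - 1))) ^ 2)) : ℝ) : ℂ) := by
  have hint : ∀ s : ℝ, Integrable (fun t : ℝ => cexp (-((t * s : ℝ) * I)) * GG t) := by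
    intro s
    refine GG_integrable.norm.mono' ?_ (Filter.Eventually.of_forall fun t => ?_)
    · refine Continuous.aestronglyMeasurable ?_
      exact (by fun_prop : Continuous fun t : ℝ => cexp (-((t * s : ℝ) * I))).mul continuous_GG
    · have h2 : -(((t * s : ℝ) : ℂ) * I) = ((-(t * s) : ℝ) : ℂ) * I := by
        push_cast
        ring
      rw [norm_mul, h2, Complex.norm_exp_ofReal_mul_I, one_mul]
  have h1 : ∀ t : ℝ, zzN b p m V t * GG t = ∑ ω ∈ RR b p m ∅, (wt b V ω : ℂ) *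
      (cexp (-((t * Real.log (yvN b ω) : ℝ) * I)) * GG t) := by
    intro t
    unfold zzN
    rw [Finset.sum_mul]
    refine Finset.sum_congr rfl fun ω _ => ?_
    ring
  simp_rw [h1]
  rw [integral_finsetSum _ fun ω _ => (hint _).const_mul _, Finset.mul_sum, Complex.ofReal_sum]
  refine Finset.sum_congr rfl fun ω hω => ?_
  rw [integral_const_mul, gaussX, ← Complex.ofReal_mul]
  congr 1
  have hy := (yvN_pos hb hm hω).2
  have h2 : Real.exp (Real.log (yvN b ω) - Real.log (yvN b ω) ^ 2) =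
      yvN b ω * Real.exp (-(Real.log (yvN b ω)) ^ 2) := by
    rw [sub_eq_add_neg, Real.exp_add, Real.exp_log hy]
  rw [h2]
  unfold yvN
  ring

theorem mlim_itg_one {b p m k : ℕ} (hb : Bas b p) (hm : 1 ≤ m) (hk : m ≤ k) (V : ℝ → ℝ) (t : ℝ) :
    itg b p m k ∅ V η 1 t = eh η (t / (b : ℝ) ^ m) * zzN b p m V t *
      ((((b : ℝ) ^ (k - 1) : ℝ) : ℂ) ^ (-(t * I)) *
        PP (1 : DirichletCharacter ℂ (b ^ m)) t ((b : ℝ) ^ (k - 1))) := by
  have hb0 : 0 < b := by have := hb.two; omega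
  have hbR : (0 : ℝ) < b := by exact_mod_cast hb0
  have hcc : ((b : ℂ) ^ (k - m)) ^ (-(t * I)) * cc b p ∅ V (1 : DirichletCharacter ℂ (b ^ m)) t =
      zzN b p m V t * (((b : ℝ) ^ (k - 1) : ℝ) : ℂ) ^ (-(t * I)) := by
    unfold cc zzN
    rw [Finset.mul_sum, Finset.sum_mul]
    refine Finset.sum_congr rfl fun ω hω => ?_
    obtain ⟨ht0, hy0⟩ := yvN_pos hb hm hω
    have hu : IsUnit ((lowv b ω : ℕ) : ZMod (b ^ m)) := by
      rw [ZMod.isUnit_iff_coprime]
      exact Nat.Coprime.pow_right m (low_coprime hb hm hω)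
    rw [MulChar.one_apply hu, map_one, mul_one]
    have e1 : ((b : ℂ) ^ (k - m)) = (((b : ℝ) ^ (k - m) : ℝ) : ℂ) := by push_cast; rfl
    have e2 : ((topv b ω : ℕ) : ℂ) = (((topv b ω : ℕ) : ℝ) : ℂ) := by push_cast; rfl
    rw [e1, e2, cpow_pos_real (by positivity) t, cpow_pos_real ht0 t,
      cpow_pos_real (by positivity : (0 : ℝ) < (b : ℝ) ^ (k - 1)) t]
    have e3 : Real.log ((b : ℝ) ^ (k - m)) + Real.log (topv b ω) =
        Real.log (yvN b ω) + Real.log ((b : ℝ) ^ (k - 1)) := by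
      rw [← Real.log_mul (by positivity) ht0.ne', ← Real.log_mul hy0.ne' (by positivity)]
      congr 1
      unfold yvN
      rw [show k - 1 = (k - m) + (m - 1) by omega, pow_add]
      field_simp
    have e4 : -((((t * Real.log ((b : ℝ) ^ (k - m)) : ℝ)) : ℂ) * I) +
        -((((t * Real.log (topv b ω) : ℝ)) : ℂ) * I) =
        -((((t * Real.log (yvN b ω) : ℝ)) : ℂ) * I) +
        -((((t * Real.log ((b : ℝ) ^ (k - 1)) : ℝ)) : ℂ) * I) := by
      rw [← neg_add, ← neg_add, ← add_mul, ← add_mul, ← Complex.ofReal_add, ← Complex.ofReal_add,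
        ← mul_add, ← mul_add, e3]
    calc cexp (-((((t * Real.log ((b : ℝ) ^ (k - m)) : ℝ)) : ℂ) * I)) * ((wt b V ω : ℂ) *
          cexp (-((((t * Real.log (topv b ω) : ℝ)) : ℂ) * I))) =
        (wt b V ω : ℂ) * (cexp (-((((t * Real.log ((b : ℝ) ^ (k - m)) : ℝ)) : ℂ) * I)) *
          cexp (-((((t * Real.log (topv b ω) : ℝ)) : ℂ) * I))) := by ring
      _ = (wt b V ω : ℂ) * (cexp (-((((t * Real.log (yvN b ω) : ℝ)) : ℂ) * I)) *
          cexp (-((((t * Real.log ((b : ℝ) ^ (k - 1)) : ℝ)) : ℂ) * I))) := by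
          rw [← Complex.exp_add, e4, Complex.exp_add]
      _ = _ := by ring
  unfold itg
  calc eh η (t / (b : ℝ) ^ m) * ((b : ℂ) ^ (k - m)) ^ (-(t * I)) *
      (cc b p ∅ V (1 : DirichletCharacter ℂ (b ^ m)) t * PP 1 t ((b : ℝ) ^ (k - 1))) =
      eh η (t / (b : ℝ) ^ m) * (((b : ℂ) ^ (k - m)) ^ (-(t * I)) *
        cc b p ∅ V (1 : DirichletCharacter ℂ (b ^ m)) t) * PP 1 t ((b : ℝ) ^ (k - 1)) := by ring
    _ = _ := by rw [hcc]; ring

/-- the range of `t` -/
def mlimSet (b r : ℕ) (u : ℕ × ℕ) : Set ℝ :=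
  {t : ℝ | |t| ≤ (b : ℝ) ^ (u.1 + u.1 / r) ∧ |t| < Real.log ((b : ℝ) ^ (u.2 - 1))}

theorem mlimSet_meas (b r : ℕ) (u : ℕ × ℕ) : MeasurableSet (mlimSet b r u) :=
  (measurableSet_le continuous_abs.measurable measurable_const).inter
    (measurableSet_lt continuous_abs.measurable measurable_const)

private theorem mlim_fst : Tendsto (fun u : ℕ × ℕ => u.1) (lw 0) atTop := by
  unfold lw
  exact tendsto_comap.mono_left inf_le_left

private theorem mlim_snd : Tendsto (fun u : ℕ × ℕ => u.2 - 1) (lw 0) atTop := by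
  rw [tendsto_atTop]
  intro K
  rw [eventually_lw]
  refine ⟨K + 1, fun w hw k hk => ?_⟩
  simp only
  have h1 : 2 ^ 0 * w = w := by simp
  rw [h1] at hk
  omega

theorem mlim_log_tendsto {b : ℕ} (hb : 2 ≤ b) :
    Tendsto (fun u : ℕ × ℕ => Real.log ((b : ℝ) ^ (u.2 - 1))) (lw 0) atTop := by
  have hb1 : (1 : ℝ) < b := by exact_mod_cast (by omega : 1 < b)
  exact Real.tendsto_log_atTop.comp
    ((tendsto_pow_atTop_atTop_of_one_lt hb1).comp mlim_snd)

theorem mlim_small (hB : Bp V₀ η) {b : ℕ} (hb : 2 ≤ b) (r : ℕ) :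
    Tendsto (fun u : ℕ × ℕ => ∫ t : ℝ, ‖(mlimSet b r u).indicator
      (fun t => eh η (t / (b : ℝ) ^ u.1)) t - eh η 0‖ * ‖GG t‖) (lw 0) (𝓝 0) := by
  have hb1 : (1 : ℝ) < b := by exact_mod_cast (by omega : 1 < b)
  rw [show (𝓝 (0 : ℝ)) = 𝓝 (∫ _t : ℝ, (0 : ℝ)) by simp]
  have hm : Tendsto (fun u : ℕ × ℕ => ((b : ℝ) ^ u.1)) (lw 0) atTop :=
    (tendsto_pow_atTop_atTop_of_one_lt hb1).comp mlim_fst
  have hT : Tendsto (fun u : ℕ × ℕ => ((b : ℝ) ^ (u.1 + u.1 / r))) (lw 0) atTop := by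
    refine tendsto_atTop_mono (fun u => ?_) hm
    exact pow_le_pow_right₀ hb1.le (Nat.le_add_right _ _)
  refine tendsto_integral_filter_of_dominated_convergence (fun t => 1 * ‖GG t‖) ?_ ?_ ?_ ?_
  · refine Filter.Eventually.of_forall fun u => ?_
    refine AEStronglyMeasurable.mul ?_ continuous_GG.norm.aestronglyMeasurable
    refine AEStronglyMeasurable.norm ?_
    refine AEStronglyMeasurable.sub ?_ aestronglyMeasurable_const
    refine AEStronglyMeasurable.indicator ?_ (mlimSet_meas b r u)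
    exact ((eh_continuous hB).comp (by fun_prop)).aestronglyMeasurable
  · refine Filter.Eventually.of_forall fun u => Filter.Eventually.of_forall fun t => ?_
    rw [Real.norm_of_nonneg (by positivity)]
    refine mul_le_mul_of_nonneg_right ?_ (norm_nonneg _)
    have h1 : ‖(mlimSet b r u).indicator (fun t => eh η (t / (b : ℝ) ^ u.1)) t‖ ≤ 1 / 2 := by
      by_cases ht : t ∈ mlimSet b r u
      · rw [Set.indicator_of_mem ht]; exact eh_le hB _
      · rw [Set.indicator_of_notMem ht]; norm_num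
    have h2 := eh_le hB 0
    exact (norm_sub_le _ _).trans (by linarith)
  · exact GG_integrable.norm.const_mul 1
  · refine Filter.Eventually.of_forall fun t => ?_
    have h1 : Tendsto (fun u : ℕ × ℕ => eh η (t / (b : ℝ) ^ u.1)) (lw 0)
        (𝓝 (eh η 0)) := by
      refine ((eh_continuous hB).tendsto 0).comp ?_
      exact Tendsto.div_atTop tendsto_const_nhds hm
    have h2 : Tendsto (fun u : ℕ × ℕ => (mlimSet b r u).indicator
        (fun t => eh η (t / (b : ℝ) ^ u.1)) t) (lw 0) (𝓝 (eh η 0)) := by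
      refine Tendsto.congr' ?_ h1
      filter_upwards [hT.eventually_ge_atTop |t|, (mlim_log_tendsto hb).eventually_gt_atTop |t|]
        with u hu1 hu2
      exact (Set.indicator_of_mem (s := mlimSet b r u) ⟨hu1, hu2⟩
        (fun t => eh η (t / (b : ℝ) ^ u.1))).symm
    have h3 := (h2.sub_const (eh η 0)).norm.mul_const ‖GG t‖
    rw [sub_self, norm_zero, zero_mul] at h3
    exact h3

theorem mlim_aux (hP : PNTProp) (hB : Bp V₀ η) {b p : ℕ} (hb : Bas b p) (r : ℕ) {ε : ℝ}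
    (hε : 0 < ε) : ∃ m₀ : ℕ, ∀ m : ℕ, m₀ ≤ m → ∀ k : ℕ, 2 * m ≤ k →
    ‖(∫ t in mlimSet b r (m, k), itg b p m k ∅ (fun y => V₀ (y - p)) η 1 t) -
      eh η 0 * (((b : ℝ) ^ (k - 1) * (2 * Real.pi * ∑ ω ∈ RR b p m ∅,
        wt b (fun y => V₀ (y - p)) ω * (((topv b ω : ℝ) / (b : ℝ) ^ (m - 1)) *
          Real.exp (-(Real.log ((topv b ω : ℝ) / (b : ℝ) ^ (m - 1))) ^ 2))) : ℝ) : ℂ)‖ ≤
      ε * ((RR b p m ∅).card * (b : ℝ) ^ (k - 1)) := by
  have hb3 := hb.two
  have hb1 : (1 : ℝ) ≤ b := by exact_mod_cast (by omega : 1 ≤ b)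
  have hbR : (0 : ℝ) < b := by linarith
  have hV : ∀ y : ℝ, 0 ≤ V₀ (y - p) ∧ V₀ (y - p) ≤ 1 := fun y => hB.V_range _
  obtain ⟨x₀, hx₀⟩ := hP b (by omega) 1 le_rfl
  have hlog := mlim_log_tendsto (b := b) (by omega)
  -- `κ exp (-√κ) → 0`
  have hk0 : Tendsto (fun z : ℝ => z * Real.exp (-Real.sqrt z)) atTop (𝓝 0) := by
    have h1 := (Real.tendsto_pow_mul_exp_neg_atTop_nhds_zero 2).comp Real.tendsto_sqrt_atTop
    refine h1.congr' ?_
    filter_upwards [eventually_ge_atTop 0] with z hz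
    simp only [Function.comp]
    rw [Real.sq_sqrt hz]
  have hxt : Tendsto (fun u : ℕ × ℕ => ((b : ℝ) ^ (u.2 - 1))) (lw 0) atTop :=
    (tendsto_pow_atTop_atTop_of_one_lt (by exact_mod_cast (by omega : 1 < b))).comp
      mlim_snd
  have e1 := (mlim_small hB (b := b) (by omega) r).eventually
    (gt_mem_nhds (show (0 : ℝ) < ε / 2 by positivity))
  have e2 := (hk0.comp hlog).eventually (gt_mem_nhds (show (0 : ℝ) < ε / 2 by positivity))
  have e3 := hxt.eventually_ge_atTop x₀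
  have e4 := hlog.eventually_ge_atTop 1
  have e5 := mlim_fst.eventually_ge_atTop 1
  have e := (((e1.and e2).and e3).and e4).and e5
  rw [eventually_lw] at e
  obtain ⟨w₀, hw₀⟩ := e
  refine ⟨w₀, fun m hw k hk => ?_⟩
  obtain ⟨⟨⟨⟨g1, g2⟩, g3⟩, g4⟩, g5⟩ := hw₀ m hw k (by simpa using hk)
  simp only [Function.comp] at g1 g2 g3 g4 g5
  have hm1 : 1 ≤ m := g5
  have hmk : m ≤ k := by omega
  obtain ⟨x, hx⟩ : ∃ x : ℝ, x = (b : ℝ) ^ (k - 1) := ⟨_, rfl⟩
  have hxpos : 0 < x := by rw [hx]; positivity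
  obtain ⟨κ, hκ⟩ : ∃ κ : ℝ, κ = Real.log x := ⟨_, rfl⟩
  rw [← hx] at g2 g3 g4
  rw [← hκ] at g2 g4
  obtain ⟨R, hR⟩ : ∃ R : ℝ, R = ((RR b p m ∅).card : ℝ) := ⟨_, rfl⟩
  have hR0 : 0 ≤ R := by rw [hR]; positivity
  set V : ℝ → ℝ := fun y => V₀ (y - p) with hVd
  set S := mlimSet b r (m, k) with hS
  have hSm : MeasurableSet S := mlimSet_meas b r (m, k)
  have hSk : ∀ t ∈ S, |t| < κ := by
    intro t ht
    have := ht.2
    simp only at this
    rw [← hx, ← hκ] at this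
    exact this
  have hSsub : S ⊆ Set.Ioo (-κ) κ := fun t ht => abs_lt.1 (hSk t ht)
  have hSfin : volume S < ⊤ := (measure_mono hSsub).trans_lt (by simp)
  have hSvol : (volume S).toReal ≤ 2 * κ := by
    have h1 := ENNReal.toReal_mono (by simp) (measure_mono (μ := volume) hSsub)
    rw [Real.volume_Ioo, ENNReal.toReal_ofReal (by linarith)] at h1
    linarith
  have hitg : Integrable (itg b p m k ∅ V η 1) :=
    itg_integrable hB hb hm1 ∅ (Finset.empty_subset _) hV 1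
  have hz := zzN_int hb hm1 V
  -- the decomposition
  set E : ℝ → ℂ := S.indicator (fun t => eh η (t / (b : ℝ) ^ m)) with hE
  have hEn : ∀ t, ‖E t‖ ≤ 1 / 2 := by
    intro t
    by_cases ht : t ∈ S
    · rw [hE, Set.indicator_of_mem ht]; exact eh_le hB _
    · rw [hE, Set.indicator_of_notMem ht]; norm_num
  have hEm : AEStronglyMeasurable E volume :=
    AEStronglyMeasurable.indicator
      ((eh_continuous hB).comp (by fun_prop)).aestronglyMeasurable hSm
  have hzi := zzGGN_integrable b p m hV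
  have hEzi : Integrable (fun t => E t * (zzN b p m V t * GG t)) := by
    refine (hzi.norm.const_mul (1 / 2)).mono' (hEm.mul hzi.aestronglyMeasurable)
      (Filter.Eventually.of_forall fun t => ?_)
    rw [norm_mul]
    exact mul_le_mul_of_nonneg_right (hEn t) (norm_nonneg _)
  have hdec : (∫ t in S, itg b p m k ∅ V η 1 t) -
      eh η 0 * ((x : ℂ) * ∫ t : ℝ, zzN b p m V t * GG t) =
      (∫ t in S, (itg b p m k ∅ V η 1 t - (x : ℂ) * (E t * (zzN b p m V t * GG t)))) +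
      (x : ℂ) * ∫ t : ℝ, (E t - eh η 0) * (zzN b p m V t * GG t) := by
    have h1 : ∫ t in S, (itg b p m k ∅ V η 1 t - (x : ℂ) * (E t * (zzN b p m V t * GG t))) =
        (∫ t in S, itg b p m k ∅ V η 1 t) -
        ∫ t in S, (x : ℂ) * (E t * (zzN b p m V t * GG t)) :=
      integral_sub hitg.integrableOn (hEzi.const_mul _).integrableOn
    have h2 : ∫ t in S, (x : ℂ) * (E t * (zzN b p m V t * GG t)) =
        (x : ℂ) * ∫ t : ℝ, E t * (zzN b p m V t * GG t) := by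
      rw [integral_const_mul]
      congr 1
      rw [← integral_indicator hSm]
      congr 1
      funext t
      by_cases ht : t ∈ S
      · rw [Set.indicator_of_mem ht]
      · rw [Set.indicator_of_notMem ht, hE, Set.indicator_of_notMem ht, zero_mul]
    have h3 : ∫ t : ℝ, (E t - eh η 0) * (zzN b p m V t * GG t) =
        (∫ t : ℝ, E t * (zzN b p m V t * GG t)) -
        eh η 0 * ∫ t : ℝ, zzN b p m V t * GG t := by
      rw [← integral_const_mul, ← integral_sub hEzi (hzi.const_mul _)]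
      congr 1
      funext t
      ring
    rw [h1, h2, h3]
    ring
  have hb1' : ‖∫ t in S, (itg b p m k ∅ V η 1 t - (x : ℂ) * (E t * (zzN b p m V t * GG t)))‖ ≤
      (1 / 2 * R * (x * Real.exp (-Real.sqrt κ))) * (2 * κ) := by
    have h1 : ∀ t ∈ S, ‖itg b p m k ∅ V η 1 t - (x : ℂ) * (E t * (zzN b p m V t * GG t))‖ ≤
        1 / 2 * R * (x * Real.exp (-Real.sqrt κ)) := by
      intro t ht
      have hEt : E t = eh η (t / (b : ℝ) ^ m) := by rw [hE, Set.indicator_of_mem ht]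
      have hpp := hx₀ x (by rw [hx] at g3 ⊢; exact g3) m hm1 t (by
        rw [Real.rpow_one, ← hκ]; exact (hSk t ht).le)
      rw [← hκ] at hpp
      have hxt1 : (x : ℂ) ^ (-(t * I)) * (x : ℂ) ^ (t * I) = 1 := by
        rw [← Complex.cpow_add _ _ (by exact_mod_cast hxpos.ne'), neg_add_cancel,
          Complex.cpow_zero]
      have hxn : ‖(x : ℂ) ^ (-(t * I))‖ = 1 := by
        rw [Complex.norm_cpow_eq_rpow_re_of_pos hxpos]
        simp
      have h2 : itg b p m k ∅ V η 1 t - (x : ℂ) * (E t * (zzN b p m V t * GG t)) =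
          eh η (t / (b : ℝ) ^ m) * zzN b p m V t * ((x : ℂ) ^ (-(t * I)) *
            (PP (1 : DirichletCharacter ℂ (b ^ m)) t x -
              (x : ℂ) * (x : ℂ) ^ (t * I) * GG t)) := by
        rw [mlim_itg_one hb hm1 hmk V t, ← hx, hEt]
        linear_combination (eh η (t / (b : ℝ) ^ m) * zzN b p m V t * (x : ℂ) * GG t) * hxt1
      rw [h2, norm_mul, norm_mul, norm_mul, hxn, one_mul]
      have h3 : ‖eh η (t / (b : ℝ) ^ m)‖ ≤ 1 / 2 := eh_le hB _
      have h4 : ‖zzN b p m V t‖ ≤ R := by rw [hR]; exact zzN_norm hV t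
      exact mul_le_mul (mul_le_mul h3 h4 (norm_nonneg _) (by norm_num)) hpp (norm_nonneg _)
        (by positivity)
    refine (norm_setIntegral_le_of_norm_le_const hSfin h1).trans ?_
    exact mul_le_mul_of_nonneg_left hSvol (by positivity)
  have hb2' : ‖∫ t : ℝ, (E t - eh η 0) * (zzN b p m V t * GG t)‖ ≤ R * (ε / 2) := by
    refine (norm_integral_le_integral_norm _).trans ?_
    have h1 : ∀ t, ‖(E t - eh η 0) * (zzN b p m V t * GG t)‖ ≤
        R * (‖E t - eh η 0‖ * ‖GG t‖) := by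
      intro t
      rw [norm_mul, norm_mul]
      have h4 : ‖zzN b p m V t‖ ≤ R := by rw [hR]; exact zzN_norm hV t
      calc ‖E t - eh η 0‖ * (‖zzN b p m V t‖ * ‖GG t‖) ≤ ‖E t - eh η 0‖ * (R * ‖GG t‖) :=
            mul_le_mul_of_nonneg_left (mul_le_mul_of_nonneg_right h4 (norm_nonneg _))
              (norm_nonneg _)
        _ = _ := by ring
    have hgi : Integrable (fun t => ‖E t - eh η 0‖ * ‖GG t‖) := by
      refine (GG_integrable.norm.const_mul 1).mono'
        ((hEm.sub aestronglyMeasurable_const).norm.mul continuous_GG.norm.aestronglyMeasurable)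
        (Filter.Eventually.of_forall fun t => ?_)
      rw [Real.norm_of_nonneg (by positivity)]
      refine mul_le_mul_of_nonneg_right ?_ (norm_nonneg _)
      have := eh_le hB 0
      exact (norm_sub_le _ _).trans (by linarith [hEn t])
    calc ∫ t : ℝ, ‖(E t - eh η 0) * (zzN b p m V t * GG t)‖ ≤
        ∫ t : ℝ, R * (‖E t - eh η 0‖ * ‖GG t‖) :=
          integral_mono_of_nonneg (Filter.Eventually.of_forall fun t => norm_nonneg _)
            (hgi.const_mul R) (Filter.Eventually.of_forall h1)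
      _ = R * ∫ t : ℝ, ‖E t - eh η 0‖ * ‖GG t‖ := integral_const_mul _ _
      _ ≤ R * (ε / 2) := mul_le_mul_of_nonneg_left g1.le hR0
  have hgoal : eh η 0 * (((b : ℝ) ^ (k - 1) * (2 * Real.pi * ∑ ω ∈ RR b p m ∅,
        wt b V ω * (((topv b ω : ℝ) / (b : ℝ) ^ (m - 1)) *
          Real.exp (-(Real.log ((topv b ω : ℝ) / (b : ℝ) ^ (m - 1))) ^ 2))) : ℝ) : ℂ) =
      eh η 0 * ((x : ℂ) * ∫ t : ℝ, zzN b p m V t * GG t) := by
    rw [hz, ← Complex.ofReal_mul, ← hx]
  rw [hgoal, hdec, ← hR, ← hx]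
  refine (norm_add_le _ _).trans ?_
  rw [norm_mul, Complex.norm_real, Real.norm_of_nonneg hxpos.le]
  calc ‖∫ t in S, (itg b p m k ∅ V η 1 t - (x : ℂ) * (E t * (zzN b p m V t * GG t)))‖ +
      x * ‖∫ t : ℝ, (E t - eh η 0) * (zzN b p m V t * GG t)‖ ≤
      (1 / 2 * R * (x * Real.exp (-Real.sqrt κ))) * (2 * κ) + x * (R * (ε / 2)) :=
        add_le_add hb1' (mul_le_mul_of_nonneg_left hb2' hxpos.le)
    _ = R * x * (κ * Real.exp (-Real.sqrt κ)) + R * x * (ε / 2) := by ring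
    _ ≤ R * x * (ε / 2) + R * x * (ε / 2) :=
        add_le_add (mul_le_mul_of_nonneg_left g2.le (by positivity)) le_rfl
    _ = ε * (R * x) := by ring

theorem main_lim (hP : HPX.PNTProp) {V₀ η : ℝ → ℝ} (hB : Bp V₀ η) {b p : ℕ} (hb : Bas b p) (r : ℕ)
    (hr : 1 ≤ r) {ε : ℝ} (hε : 0 < ε) : ∃ m₀ : ℕ, ∀ m : ℕ, m₀ ≤ m → ∀ k : ℕ, 2 * m ≤ k →
    ‖(∫ t in {t : ℝ | |t| ≤ (b : ℝ) ^ (m + m / r) ∧ |t| < Real.log ((b : ℝ) ^ (k - 1))},
        itg b p m k ∅ (fun y => V₀ (y - p)) η 1 t) -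
      HPP.eh η 0 * (((b : ℝ) ^ (k - 1) * (2 * Real.pi * ∑ ω ∈ RR b p m ∅,
        wt b (fun y => V₀ (y - p)) ω * (((topv b ω : ℝ) / (b : ℝ) ^ (m - 1)) *
          Real.exp (-(Real.log ((topv b ω : ℝ) / (b : ℝ) ^ (m - 1))) ^ 2))) : ℝ) : ℂ)‖ ≤
      ε * ((RR b p m ∅).card * (b : ℝ) ^ (k - 1)) :=
  mlim_aux hP hB hb r hε

end Pool.Agent.HPY
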