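import Pool.Agent.HPY.MTail
import Pool.Agent.HPY.MLim
import Pool.Agent.HPY.MCnt

/-!
# HPY/MMain: `MainN` from `PNTProp` (port of `HPX/MMain`)

`c₀` depends only on `η, b` (constant of `main_count` times `eh η 0`), not on `r`.
-/

namespace Pool.Agent.HPY

open Complex MeasureTheory Pool.Agent.HPZ
open Pool.Agent.HPP (Bp PP Gt lv eh eh_le eh_zero ax_Hnorm PP_continuous)

variable {V₀ η : ℝ → ℝ}

private theorem itgX_norm_le (hB : Bp V₀ η) {b p m k : ℕ} (hb : Bas b p) (F : Finset ℕ)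
    {V : ℝ → ℝ} (χ : DirichletCharacter ℂ (b ^ m)) (t : ℝ) :
    ‖itg b p m k F V η χ t‖ ≤
      1 / 2 * (‖cc b p F V χ t‖ * ‖PP χ t ((b : ℝ) ^ (k - 1))‖) := by
  have hb0 : 0 < b := by have := hb.two; omega
  unfold itg
  rw [norm_mul, norm_mul, norm_mul, ax_Hnorm hb0, mul_one]
  exact mul_le_mul_of_nonneg_right (eh_le hB _) (by positivity)

theorem mainN (hP : HPX.PNTProp) : MainN := by
  classical
  intro V₀ η hB hV1 b p hb
  obtain ⟨c1, hc1, he0⟩ := eh_zero hB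
  have hb2 := hb.two
  have hb1 : (1 : ℝ) ≤ b := by exact_mod_cast (by omega : 1 ≤ b)
  have hb0 : (0 : ℝ) < b := by linarith
  obtain ⟨L, hLd⟩ : ∃ L : ℝ, L = c1 * (2 * Real.pi *
    (Real.exp (-(Real.log b) ^ 2) / (b : ℝ) ^ 2)) :=
    ⟨_, rfl⟩
  have hL : 0 < L := by rw [hLd]; positivity
  have hV : ∀ y : ℝ, 0 ≤ V₀ (y - p) ∧ V₀ (y - p) ≤ 1 := fun y => hB.V_range _
  refine ⟨L / (4 * Real.pi), by positivity, fun r hr => ?_⟩
  obtain ⟨w1, hw1⟩ := main_lim hP hB hb r hr (show (0 : ℝ) < L / 4 by positivity)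
  obtain ⟨w2, hw2⟩ := tail_le hB hb r hr (V := fun y => V₀ (y - p)) hV
    (show (0 : ℝ) < L / 4 by positivity)
  refine ⟨max 3 (max w1 w2), ?_⟩
  intro m hw k hk
  have hm3 : 3 ≤ m := (le_max_left _ _).trans hw
  have hww1 : w1 ≤ m := ((le_max_left _ _).trans (le_max_right _ _)).trans hw
  have hww2 : w2 ≤ m := ((le_max_right _ _).trans (le_max_right _ _)).trans hw
  have h1 := hw1 m hww1 k hk
  have h2 := hw2 m hww2 k hk
  obtain ⟨S, hS⟩ : ∃ S : Set ℝ, S = {t : ℝ | |t| ≤ (b : ℝ) ^ (m + m / r) ∧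
      |t| < Real.log ((b : ℝ) ^ (k - 1))} := ⟨_, rfl⟩
  have hSm : MeasurableSet S := by
    rw [hS]
    exact (measurableSet_le continuous_abs.measurable measurable_const).inter
      (measurableSet_lt continuous_abs.measurable measurable_const)
  rw [← hS] at h1
  have hE2d : E2 b p m k r (fun y => V₀ (y - p)) =
      ∑ χ : DirichletCharacter ℂ (b ^ m),
        ∫ t in Gt χ (Real.log ((b : ℝ) ^ (k - 1))) ((b : ℝ) ^ (m + m / r)),
          ‖cc b p ∅ (fun y => V₀ (y - p)) χ t‖ * ‖PP χ t ((b : ℝ) ^ (k - 1))‖ := rfl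
  have hm1 : 1 ≤ m := by omega
  have hmk : m ≤ k := by omega
  have h3 := main_count hB hV1 hb hm3
  obtain ⟨W, hW⟩ : ∃ W : ℝ, W = ∑ ω ∈ RR b p m ∅, wt b (fun y => V₀ (y - p)) ω *
        (((topv b ω : ℝ) / (b : ℝ) ^ (m - 1)) *
          Real.exp (-(Real.log ((topv b ω : ℝ) / (b : ℝ) ^ (m - 1))) ^ 2)) := ⟨_, rfl⟩
  rw [← hW] at h1 h3
  obtain ⟨x, hx⟩ : ∃ x : ℝ, x = (b : ℝ) ^ (k - 1) := ⟨_, rfl⟩
  have hx0 : 0 < x := by rw [hx]; positivity
  obtain ⟨R, hR⟩ : ∃ R : ℝ, R = (RR b p m ∅).card * (b : ℝ) ^ (k - 1) := ⟨_, rfl⟩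
  have hR0 : 0 ≤ R := by rw [hR]; positivity
  rw [← hR] at h1 h2 ⊢
  obtain ⟨Z, hZ⟩ : ∃ Z : ℂ, Z = ∫ t in S,
    itg b p m k ∅ (fun y => V₀ (y - p)) η 1 t := ⟨_, rfl⟩
  rw [← hZ] at h1
  -- lower bound for the real part of the main integral
  have hZre : 3 / 4 * L * R ≤ Z.re := by
    have h4 := (abs_le.1 ((Complex.abs_re_le_norm _).trans h1)).1
    rw [he0, ← Complex.ofReal_mul, Complex.sub_re, Complex.ofReal_re] at h4
    have h5 : L * R ≤ c1 * ((b : ℝ) ^ (k - 1) * (2 * Real.pi * W)) := by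
      have h6 : L * R = c1 * ((b : ℝ) ^ (k - 1) * (2 * Real.pi *
          (Real.exp (-(Real.log b) ^ 2) / (b : ℝ) ^ 2 * ((RR b p m ∅).card : ℝ)))) := by
        rw [hLd, hR]; ring
      rw [h6]
      refine mul_le_mul_of_nonneg_left (mul_le_mul_of_nonneg_left
        (mul_le_mul_of_nonneg_left h3 (by positivity)) (by positivity)) hc1.le
    linarith
  -- the expansion
  have h4 := expansion hB hb hm1 hmk ∅ (Finset.empty_subset _) hV
  obtain ⟨φ, hφ⟩ : ∃ φ : ℝ, φ = (b : ℝ) ^ m * (b ^ m).totient := ⟨_, rfl⟩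
  have hφ0 : 0 < φ := by
    rw [hφ]
    have : 0 < (b ^ m).totient := Nat.totient_pos.2 (by positivity)
    positivity
  rw [← hφ] at h4 ⊢
  obtain ⟨κ, hκ⟩ : ∃ κ : ℝ, κ = Real.log ((b : ℝ) ^ (k - 1)) := ⟨_, rfl⟩
  obtain ⟨T, hT⟩ : ∃ T : ℝ, T = (b : ℝ) ^ (m + m / r) := ⟨_, rfl⟩
  rw [← hκ, ← hT] at hS hE2d
  rw [← hT] at h2
  have hT0 : 0 ≤ T := by rw [hT]; positivity
  have mT : MeasurableSet {t : ℝ | T < |t|} :=
    measurableSet_lt measurable_const continuous_abs.measurable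
  have mC : MeasurableSet {t : ℝ | |t| ≤ T} :=
    measurableSet_le continuous_abs.measurable measurable_const
  have mG : ∀ χ : DirichletCharacter ℂ (b ^ m), MeasurableSet (Gt χ κ T) := by
    intro χ
    by_cases hχ : χ = 1
    · have : Gt χ κ T = {t : ℝ | |t| ≤ T} ∩ {t : ℝ | κ ≤ |t|} := by
        ext t
        simp [Gt, hχ]
      rw [this]
      exact mC.inter (measurableSet_le measurable_const continuous_abs.measurable)
    · have : Gt χ κ T = {t : ℝ | |t| ≤ T} := by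
        ext t
        simp [Gt, hχ]
      rw [this]
      exact mC
  have hint : ∀ χ : DirichletCharacter ℂ (b ^ m),
      Integrable (itg b p m k ∅ (fun y => V₀ (y - p)) η χ) :=
    fun χ => itg_integrable hB hb hm1 ∅ (Finset.empty_subset _) hV χ
  have hcont : ∀ χ : DirichletCharacter ℂ (b ^ m), Continuous fun t : ℝ =>
      ‖cc b p ∅ (fun y => V₀ (y - p)) χ t‖ * ‖PP χ t ((b : ℝ) ^ (k - 1))‖ := fun χ =>
    (cc_continuous hb hm1 _ _ χ).norm.mul (PP_continuous χ (by positivity)).norm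
  have hset : ∀ (χ : DirichletCharacter ℂ (b ^ m)),
      ‖∫ t in Gt χ κ T, itg b p m k ∅ (fun y => V₀ (y - p)) η χ t‖ ≤ 1 / 2 *
        ∫ t in Gt χ κ T, ‖cc b p ∅ (fun y => V₀ (y - p)) χ t‖ *
          ‖PP χ t ((b : ℝ) ^ (k - 1))‖ := by
    intro χ
    have hST : Gt χ κ T ⊆ Set.Icc (-T) T := fun t ht => Set.mem_Icc.2 (abs_le.1 ht.1)
    have hIo : IntegrableOn (fun t : ℝ => ‖cc b p ∅ (fun y => V₀ (y - p)) χ t‖ *
        ‖PP χ t ((b : ℝ) ^ (k - 1))‖) (Gt χ κ T) :=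
      ((hcont χ).continuousOn.integrableOn_compact isCompact_Icc).mono_set hST
    refine (norm_integral_le_integral_norm _).trans ?_
    rw [← integral_const_mul]
    apply setIntegral_mono_on (hint χ).norm.integrableOn (hIo.const_mul _) (mG χ)
    intro t _
    exact itgX_norm_le hB hb _ χ t
  have split1 : ∀ χ : DirichletCharacter ℂ (b ^ m),
      ∫ t : ℝ, itg b p m k ∅ (fun y => V₀ (y - p)) η χ t =
      (∫ t in {t : ℝ | |t| ≤ T}, itg b p m k ∅ (fun y => V₀ (y - p)) η χ t) +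
      ∫ t in {t : ℝ | T < |t|}, itg b p m k ∅ (fun y => V₀ (y - p)) η χ t := by
    intro χ
    have hc : {t : ℝ | T < |t|} = {t : ℝ | |t| ≤ T}ᶜ := by
      ext t; simp
    rw [hc, integral_add_compl mC (hint χ)]
  have split2 : ∀ χ : DirichletCharacter ℂ (b ^ m),
      (∫ t in {t : ℝ | |t| ≤ T}, itg b p m k ∅ (fun y => V₀ (y - p)) η χ t) =
      (if χ = 1 then Z else 0) +
      ∫ t in Gt χ κ T, itg b p m k ∅ (fun y => V₀ (y - p)) η χ t := by
    intro χ
    by_cases hχ : χ = 1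
    · subst hχ
      rw [if_pos rfl, hZ, ← setIntegral_union ?_ (mG 1) (hint 1).integrableOn (hint 1).integrableOn]
      · congr 1
        congr 1
        rw [hS]
        ext t
        simp only [Gt, Set.mem_ofPred_eq, Set.mem_union, true_implies]
        constructor
        · intro h
          rcases lt_or_ge |t| κ with h5 | h5
          · exact Or.inl ⟨h, h5⟩
          · exact Or.inr ⟨h, h5⟩
        · rintro (h | h)
          · exact h.1
          · exact h.1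
      · rw [hS, Set.disjoint_left]
        intro t h5 h6
        have h7 := h5.2
        have h8 := h6.2 rfl
        linarith
    · rw [if_neg hχ, zero_add]
      congr 2
      ext t
      simp [Gt, hχ]
  have hsum : ((2 * Real.pi * φ * SSum b p m k ∅ (fun y => V₀ (y - p)) η : ℝ) : ℂ) =
      Z + (∑ χ : DirichletCharacter ℂ (b ^ m), ∫ t in Gt χ κ T,
          itg b p m k ∅ (fun y => V₀ (y - p)) η χ t) +
      ∑ χ : DirichletCharacter ℂ (b ^ m), ∫ t in {t : ℝ | T < |t|},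
          itg b p m k ∅ (fun y => V₀ (y - p)) η χ t := by
    rw [h4, Finset.sum_congr rfl (fun χ _ => split1 χ), Finset.sum_add_distrib]
    congr 1
    rw [Finset.sum_congr rfl (fun χ _ => split2 χ), Finset.sum_add_distrib]
    congr 1
    rw [Finset.sum_ite_eq' Finset.univ (1 : DirichletCharacter ℂ (b ^ m)) (fun _ => Z)]
    simp
  have n1 : ‖∑ χ : DirichletCharacter ℂ (b ^ m), ∫ t in Gt χ κ T,
          itg b p m k ∅ (fun y => V₀ (y - p)) η χ t‖ ≤
      1 / 2 * E2 b p m k r (fun y => V₀ (y - p)) := by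
    refine (norm_sum_le _ _).trans ?_
    rw [hE2d, Finset.mul_sum]
    exact Finset.sum_le_sum fun χ _ => hset χ
  have n3 : ‖∑ χ : DirichletCharacter ℂ (b ^ m), ∫ t in {t : ℝ | T < |t|},
          itg b p m k ∅ (fun y => V₀ (y - p)) η χ t‖ ≤ L / 4 * R :=
    ((norm_sum_le _ _).trans
      (Finset.sum_le_sum fun χ _ => norm_integral_le_integral_norm _)).trans h2
  obtain ⟨Er, hEr⟩ : ∃ Er : ℝ, Er = E2 b p m k r (fun y => V₀ (y - p)) := ⟨_, rfl⟩
  rw [← hEr] at n1 ⊢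
  have hEnn : 0 ≤ Er := by
    have h5 := norm_nonneg (∑ χ : DirichletCharacter ℂ (b ^ m), ∫ t in Gt χ κ T,
          itg b p m k ∅ (fun y => V₀ (y - p)) η χ t)
    linarith
  have hfin := congrArg Complex.re hsum
  rw [Complex.ofReal_re, Complex.add_re, Complex.add_re] at hfin
  have r1 := (abs_le.1 (Complex.abs_re_le_norm (∑ χ : DirichletCharacter ℂ (b ^ m),
    ∫ t in Gt χ κ T, itg b p m k ∅ (fun y => V₀ (y - p)) η χ t))).1
  have r3 := (abs_le.1 (Complex.abs_re_le_norm (∑ χ : DirichletCharacter ℂ (b ^ m),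
      ∫ t in {t : ℝ | T < |t|}, itg b p m k ∅ (fun y => V₀ (y - p)) η χ t))).1
  have key : L / 2 * R ≤ 2 * Real.pi * φ * SSum b p m k ∅ (fun y => V₀ (y - p)) η +
      1 / 2 * Er := by
    rw [hfin]
    linarith
  have hpi := Real.pi_gt_three
  have hφp : 0 < 4 * Real.pi * φ := by positivity
  have g1 : L / (4 * Real.pi) * (R / φ) = (L / 2 * R) / (2 * Real.pi * φ) := by
    field_simp
    ring
  have g2 : (L / 2 * R) / (2 * Real.pi * φ) ≤
      (2 * Real.pi * φ * SSum b p m k ∅ (fun y => V₀ (y - p)) η +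
        1 / 2 * Er) / (2 * Real.pi * φ) :=
    div_le_div_of_nonneg_right key (by positivity)
  have g3 : (2 * Real.pi * φ * SSum b p m k ∅ (fun y => V₀ (y - p)) η +
        1 / 2 * Er) / (2 * Real.pi * φ) =
      SSum b p m k ∅ (fun y => V₀ (y - p)) η + Er / (4 * Real.pi * φ) := by
    field_simp
    ring
  have g4 : Er / (4 * Real.pi * φ) ≤ Er / φ := by
    apply div_le_div_of_nonneg_left hEnn hφ0
    nlinarith
  rw [g1]
  linarith

end Pool.Agent.HPY
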