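import Pool.Agent.HPY.Iface
import Pool.Agent.HPX.RFin

/-!
# HPY/RFin: `ErrN` from the three ranges (port of `HPX/RFin`)

`V y = V₀ (y - p)` is `K`-Lipschitz. `C, δ` from `SupM`. `r₀` from `RHighN` (with `ε`), `A₂` from `RMidN`; given `ε'` use `ε'/3` in
the three parts; `x = b^(k-1)`, `J₁ = ⌈A₂ log_b (log x)⌉ + 1` (so `(log x)^A₂ ≤ b^J₁ ≤ (log x)^(A₂+1)` for large `k`),
`J₂ = (k-1)/101 ≥ J₁` for large `k`. `k₀` does not depend on `m`.
-/

namespace Pool.Agent.HPY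

open Complex MeasureTheory Pool.Agent.HPZ
open Pool.Agent.HPP (Bp PP Gt lv)
open Filter

theorem errN (h1 : RSplitN) (h2 : ∀ b : ℕ, 2 ≤ b → ∃ C δ : ℝ, 1 ≤ C ∧ 0 < δ ∧ δ ≤ 1 / 10 ∧ SupM b C δ)
    (h3 : RLowN) (h4 : RMidN) (h5 : RHighN) : ErrN := by
  intro V₀ η hBp b p hbas ε hε
  obtain ⟨K, hK0, hK⟩ : ∃ K : ℝ, 0 ≤ K ∧ ∀ y z, |V₀ y - V₀ z| ≤ K * |y - z| := by
    have hcs : HasCompactSupport V₀ := by
      refine HasCompactSupport.intro (K := Set.Icc 0 1) isCompact_Icc fun y hy => ?_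
      by_contra h
      have h1 : y ∈ tsupport V₀ := subset_tsupport _ (Function.mem_support.2 h)
      exact hy (Set.Ioo_subset_Icc_self (hBp.V_supp h1))
    obtain ⟨K, hK⟩ := (hBp.V_smooth 1).lipschitzWith_of_hasCompactSupport hcs (by norm_num)
    refine ⟨K, K.2, fun y z => ?_⟩
    have := hK.dist_le_mul y z
    rwa [Real.dist_eq, Real.dist_eq] at this
  have hb2 : 2 ≤ b := hbas.two
  have hβ : (1 : ℝ) < b := by exact_mod_cast (by omega : 1 < b)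
  have hβ0 : (0 : ℝ) < b := by linarith
  have hlb : 0 < Real.log b := Real.log_pos hβ
  obtain ⟨C, δ, hC1, hδ0, _, hSup⟩ := h2 b hb2
  obtain ⟨r₀, hr8, hH⟩ := h5 b hb2 C δ hC1 hδ0 hSup K hK0 ε hε
  obtain ⟨c, hc1, hM⟩ := h4 b hb2 C δ hC1 hδ0 hSup
  have hc0 : 0 < c := by linarith
  refine ⟨r₀, fun r hr ε' hε' => ?_⟩
  obtain ⟨x1, hx1⟩ := h3 b hb2 (c + 1) (by linarith) (ε' / 3) (by positivity)
  obtain ⟨x2, hx2⟩ := hM K hK0 (ε' / 3) (by positivity)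
  obtain ⟨k3, hk3⟩ := hH r hr (ε' / 3) (by positivity)
  -- `J₁` is small compared with `k`
  have hlin : Tendsto (fun w : ℕ => Real.log b * (w : ℝ)) atTop atTop :=
    Tendsto.const_mul_atTop (by positivity) tendsto_natCast_atTop_atTop
  have hev1 : ∀ᶠ w : ℕ in atTop, Real.log (Real.log b * (w : ℝ)) ≤
      1 / (202 * c) * (Real.log b * (w : ℝ)) := by
    have h4 := (Real.isLittleO_log_id_atTop.def (c := 1 / (202 * c)) (by positivity))
    have h5 := hlin.eventually h4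
    filter_upwards [h5, hlin.eventually_ge_atTop 0] with w hw hw0
    rw [id, Real.norm_eq_abs, Real.norm_of_nonneg hw0] at hw
    exact (le_abs_self _).trans hw
  have hev2 : ∀ᶠ w : ℕ in atTop, max (max x1 x2) (max ((b : ℝ) ^ 3 / Real.log b) 1000) ≤ (w : ℝ) :=
    tendsto_natCast_atTop_atTop.eventually_ge_atTop _
  obtain ⟨w₀, hw₀⟩ := eventually_atTop.1 ((hev1.and hev2).and (eventually_ge_atTop k3))
  refine ⟨w₀ + 1, fun k hk m hm1 hmk => ?_⟩
  obtain ⟨w, rfl⟩ : ∃ w, k = w + 1 := ⟨k - 1, by omega⟩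
  obtain ⟨⟨e1, e2⟩, e3⟩ := hw₀ w (by omega)
  have hwx1 : x1 ≤ (w : ℝ) := ((le_max_left _ _).trans (le_max_left _ _)).trans e2
  have hwx2 : x2 ≤ (w : ℝ) := ((le_max_right _ _).trans (le_max_left _ _)).trans e2
  have hwb : (b : ℝ) ^ 3 / Real.log b ≤ (w : ℝ) :=
    ((le_max_left _ _).trans (le_max_right _ _)).trans e2
  have hw1000 : (1000 : ℝ) ≤ w := ((le_max_right _ _).trans (le_max_right _ _)).trans e2
  have hw1000' : 1000 ≤ w := by exact_mod_cast hw1000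
  have hmw : m ≤ w := by
    have h6 : (m : ℝ) ≤ w := by
      have h7 : (5 / 18 - ε) * ((w + 1 : ℕ) : ℝ) ≤ 5 / 18 * ((w + 1 : ℕ) : ℝ) := by
        apply mul_le_mul_of_nonneg_right (by linarith) (by positivity)
      have h8 : ((w + 1 : ℕ) : ℝ) = w + 1 := by push_cast; ring
      rw [h8] at h7 hmk
      linarith
    exact_mod_cast h6
  have hww : w + 1 - 1 = w := by omega
  set x : ℝ := (b : ℝ) ^ w with hx
  have hx0 : 0 < x := by positivity
  have hxw : (w : ℝ) ≤ x := by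
    have h6 : w < b ^ w := Nat.lt_pow_self (by omega)
    rw [hx]; exact_mod_cast h6.le
  have hx1' : 1 ≤ x := by linarith
  set T : ℝ := (b : ℝ) ^ (m + m / r) with hT
  have hT0 : 0 < T := by positivity
  set L : ℝ := Real.log x with hLdef
  have hLk : L = (w : ℝ) * Real.log b := by
    rw [hLdef, hx, Real.log_pow]
  have hLb : (b : ℝ) ^ 3 ≤ L := by
    rw [div_le_iff₀ hlb] at hwb
    rw [hLk]
    exact hwb
  have hL1 : 1 ≤ L := (one_le_pow₀ hβ.le).trans hLb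
  have hL0 : 0 < L := by linarith
  set y : ℝ := c * Real.logb b L with hy
  have hy0 : 0 ≤ y := mul_nonneg hc0.le (Real.logb_nonneg hβ hL1)
  have hby : (b : ℝ) ^ y = L ^ c := by
    rw [hy, mul_comm, Real.rpow_mul hβ0.le, Real.rpow_logb hβ0 (by linarith) hL0]
  have hyw : y ≤ w / 202 := by
    have h6 : Real.log L ≤ 1 / (202 * c) * (Real.log b * w) := by
      rw [hLk, mul_comm (w : ℝ)]
      exact e1
    have h7 : Real.logb b L ≤ 1 / (202 * c) * w := by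
      rw [Real.logb, div_le_iff₀ hlb]
      refine h6.trans (le_of_eq ?_)
      ring
    calc y = c * Real.logb b L := rfl
      _ ≤ c * (1 / (202 * c) * w) := mul_le_mul_of_nonneg_left h7 hc0.le
      _ = w / 202 := by field_simp
  set J₁ : ℕ := ⌈y⌉₊ + 1 with hJ₁
  have hceil1 : y ≤ (⌈y⌉₊ : ℝ) := Nat.le_ceil y
  have hceil2 : (⌈y⌉₊ : ℝ) < y + 1 := Nat.ceil_lt_add_one hy0
  have hJ₁r : (J₁ : ℝ) = (⌈y⌉₊ : ℝ) + 1 := by rw [hJ₁]; push_cast; ring
  have hJ₁w : (J₁ : ℝ) * 101 ≤ w := by rw [hJ₁r]; linarith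
  have hJ₁w' : J₁ * 101 ≤ w := by exact_mod_cast hJ₁w
  have hlow : L ^ c ≤ (b : ℝ) ^ J₁ := by
    rw [← hby, ← Real.rpow_natCast]
    exact Real.rpow_le_rpow_of_exponent_le hβ.le (by rw [hJ₁r]; linarith)
  have hup : (b : ℝ) ^ J₁ ≤ L ^ (c + 1) := by
    have h6 : (b : ℝ) ^ J₁ ≤ (b : ℝ) ^ (y + 3) := by
      rw [← Real.rpow_natCast]
      exact Real.rpow_le_rpow_of_exponent_le hβ.le (by rw [hJ₁r]; linarith)
    have h7 : (b : ℝ) ^ (y + 3) = L ^ c * (b : ℝ) ^ 3 := by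
      rw [Real.rpow_add hβ0, hby]
      congr 1
      exact_mod_cast Real.rpow_natCast (b : ℝ) 3
    rw [h7] at h6
    refine h6.trans ?_
    rw [Real.rpow_add hL0, Real.rpow_one]
    exact mul_le_mul_of_nonneg_left hLb (Real.rpow_nonneg hL0.le _)
  have hJ12 : J₁ ≤ w / 101 := by
    rw [Nat.le_div_iff_mul_le (by norm_num)]
    exact hJ₁w'
  have hJ2x : (b : ℝ) ^ (w / 101) ≤ x ^ (1 / 100 : ℝ) := by
    rw [hx, ← Real.rpow_natCast, ← Real.rpow_natCast, ← Real.rpow_mul hβ0.le]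
    refine Real.rpow_le_rpow_of_exponent_le hβ.le ?_
    have h6 : ((w / 101 : ℕ) : ℝ) ≤ (w : ℝ) / 101 := by
      exact_mod_cast Nat.cast_div_le
    have h7 : (0 : ℝ) ≤ (w : ℝ) := Nat.cast_nonneg _
    linarith
  have hTm : T ≤ (b : ℝ) ^ (m + m / 8) := by
    rw [hT]
    refine pow_le_pow_right₀ hβ.le ?_
    have : m / r ≤ m / 8 := Nat.div_le_div_left (hr8.trans hr) (by norm_num)
    omega
  have hmx : (b : ℝ) ^ m ≤ x := by
    rw [hx]
    exact pow_le_pow_right₀ hβ.le hmw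
  set V : ℝ → ℝ := fun y => V₀ (y - p) with hVdef
  have hVr : ∀ y, 0 ≤ V y ∧ V y ≤ 1 := fun y => hBp.V_range _
  have hVK : ∀ y z, |V y - V z| ≤ K * |y - z| := by
    intro y z
    have := hK (y - p) (z - p)
    rwa [sub_sub_sub_cancel_right] at this
  have g0 := h1 b p m J₁ (w / 101) V x T hbas hm1 hJ12 hx1' hT0
  have g1 := hx1 x (hwx1.trans hxw) p m J₁ V hbas hVr hm1 (by omega) hup
  have g2 := hx2 x (hwx2.trans hxw) p m J₁ (w / 101) V T hbas hVr hVK hm1 hmx (by omega) hJ12 hJ2x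
    hlow hT0 hTm
  have g3 := hk3 (w + 1) (by omega) p m V hbas hVr hVK hm1 hmk
  rw [hww] at g3
  have g4 : E2 b p m (w + 1) r V ≤ R1 b p m J₁ V x + ∑ j ∈ Finset.Ico J₁ (w / 101), R2 b p m j V x T +
      R3 b p m (w / 101) V x T := g0
  rw [hww]
  refine g4.trans ?_
  have g5 : ε' * ((RR b p m ∅).card : ℝ) * x = ε' / 3 * ((RR b p m ∅).card : ℝ) * x +
      ε' / 3 * ((RR b p m ∅).card : ℝ) * x + ε' / 3 * ((RR b p m ∅).card : ℝ) * x := by ring
  rw [g5]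
  exact add_le_add (add_le_add g1 g2) g3

end Pool.Agent.HPY
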