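import Pool.Agent.HPY.Iface
import Pool.Agent.HPZ.APP

/-!
# HPY/RHigh: the high part (`RHighN`) from `PrimeProp`

`x = b^(k-1)`, `T = b^(m + m/r)`, `J₂ = (k-1)/101` (natural), `K = b^J₂ ≥ x^(1/103)` for large `k`. If `T < b^J₂`: the region is
empty (`lv χ ≤ m`, `b^m ≤ T`), `R3 = 0`. Else `E χ = {t | |t| ≤ T ∧ b^J₂ ≤ mx χ t}` is measurable and `⊆ Gt χ K T` (`lv 1 = 0`, so for the
trivial character `b^J₂ ≤ max 1 |t|`, `J₂ ≥ 1`), the sup bound on it is `s = C (1+K₀) m b^(-δ J₂)`. `PrimeProp` (its `δ_P`),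
`κ = 1/103`, `ε₁ = min (δ/300) (δ_P/8) (1/16)`: `R3 ≤ #RR x^(1+ε₁) (s + (T/b^m)^(1/2) x^(-δ_P) + x^(-1/4))`. `b^m T = b^(2m + m/r) ≤ x^(5/9)` as
`2m + m/r ≤ (5/9 - 2ε) k + k/(3r) ≤ (5/9)(k-1)` if `r ≥ 1/ε`, `k` large. `(T/b^m)^(1/2) ≤ b^(m/(2r)) ≤ x^(δ_P/2)` if `r ≥ 2/δ_P`.
-/

namespace Pool.Agent.HPY

open Complex MeasureTheory Pool.Agent.HPZ
open Pool.Agent.HPP (Bp PP Gt lv)

private theorem rh_lv_one {b m : ℕ} : lv (1 : DirichletCharacter ℂ (b ^ m)) = 0 := by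
  have h3 : (1 : DirichletCharacter ℂ (b ^ m)).FactorsThrough (b ^ 0) := by
    rw [pow_zero]
    exact ⟨one_dvd _, 1, by rw [DirichletCharacter.changeLevel_one]⟩
  exact Nat.le_zero.1 (HPP.lv_le _ h3)

private theorem rh_meas {b m : ℕ} (χ : DirichletCharacter ℂ (b ^ m)) (T M : ℝ) :
    MeasurableSet {t : ℝ | |t| ≤ T ∧ M ≤ mx χ t} := by
  unfold mx
  refine IsClosed.measurableSet ?_
  exact (isClosed_le continuous_abs continuous_const).inter
    (isClosed_le continuous_const (continuous_const.max continuous_abs))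

/-- the limit used to choose `k₀` -/
private theorem rh_lim {b : ℝ} (hb : 1 < b) (D c : ℝ) (hc : 0 < c) :
    Filter.Tendsto (fun k : ℕ => D * k * b ^ (-(c * ((k : ℝ) - 1)))) Filter.atTop (nhds 0) := by
  have hb0 : 0 < b := by linarith
  have h1 : Filter.Tendsto (fun k : ℕ => (k : ℝ) * Real.exp (-(c * Real.log b) * (k : ℝ)))
      Filter.atTop (nhds 0) := by
    have h2 := Real.tendsto_pow_mul_exp_neg_atTop_nhds_zero 1
    have hcl : 0 < c * Real.log b := mul_pos hc (Real.log_pos hb)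
    have h3 : Filter.Tendsto (fun k : ℕ => (c * Real.log b) * (k : ℝ)) Filter.atTop
        Filter.atTop := Filter.Tendsto.const_mul_atTop hcl tendsto_natCast_atTop_atTop
    have h4 := (h2.comp h3).const_mul (c * Real.log b)⁻¹
    rw [mul_zero] at h4
    refine h4.congr fun k => ?_
    simp only [Function.comp, pow_one]
    rw [← mul_assoc, ← mul_assoc, inv_mul_cancel₀ hcl.ne', one_mul, neg_mul]
  have h5 := h1.const_mul (D * b ^ c)
  rw [mul_zero] at h5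
  refine h5.congr fun k => ?_
  have : b ^ (-(c * ((k : ℝ) - 1))) = b ^ c * Real.exp (-(c * Real.log b) * (k : ℝ)) := by
    rw [Real.rpow_def_of_pos hb0, Real.rpow_def_of_pos hb0, ← Real.exp_add]
    congr 1
    ring
  rw [this]
  ring

theorem rHighN (h : PrimeProp) : RHighN := by
  obtain ⟨δP, hδP, hP⟩ := h
  intro b hb C δ hC hδ hS K₀ hK₀ ε hε
  have hb1 : (1 : ℝ) < b := by exact_mod_cast hb
  have hb0 : (0 : ℝ) < b := by linarith
  refine ⟨max 8 (max ⌈1 / ε⌉₊ ⌈2 / δP⌉₊), le_max_left _ _, fun r hr ε' hε' => ?_⟩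
  have hr8 : 8 ≤ r := (le_max_left _ _).trans hr
  have hrε : 1 / ε ≤ (r : ℝ) :=
    (Nat.le_ceil _).trans (by exact_mod_cast ((le_max_left _ _).trans (le_max_right _ _)).trans hr)
  have hrP : 2 / δP ≤ (r : ℝ) :=
    (Nat.le_ceil _).trans (by exact_mod_cast ((le_max_right _ _).trans (le_max_right _ _)).trans hr)
  have hr0 : (0 : ℝ) < r := by
    have : (8 : ℝ) ≤ r := by exact_mod_cast hr8
    linarith
  have hrε' : 1 / (r : ℝ) ≤ ε := by
    rw [div_le_iff₀ hr0]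
    rw [div_le_iff₀ hε] at hrε
    linarith
  have hrP' : 1 / (r : ℝ) ≤ δP / 2 := by
    rw [div_le_iff₀ hr0]
    rw [div_le_iff₀ hδP] at hrP
    linarith
  set ε₁ : ℝ := min (δ / 300) (min (δP / 8) (1 / 16)) with hε₁d
  have hε₁ : 0 < ε₁ := by
    rw [hε₁d]
    exact lt_min (by linarith) (lt_min (by linarith) (by norm_num))
  have hε₁a : ε₁ ≤ δ / 300 := min_le_left _ _
  have hε₁b : ε₁ ≤ δP / 8 := (min_le_right _ _).trans (min_le_left _ _)
  have hε₁c : ε₁ ≤ 1 / 16 := (min_le_right _ _).trans (min_le_right _ _)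
  obtain ⟨x₀, hx₀⟩ := hP b hb ε₁ hε₁ (1 / 103) (by norm_num)
  -- choice of `k₀`
  have l1 := rh_lim hb1 (C * (1 + K₀)) (δ * (1 / 103 - 1 / 300)) (by
    have : (0 : ℝ) < 1 / 103 - 1 / 300 := by norm_num
    positivity)
  have l2 := rh_lim hb1 1 (δP * (3 / 8)) (by positivity)
  have l3 := rh_lim hb1 1 (3 / 16) (by norm_num)
  have l123 := (l1.add l2).add l3
  rw [add_zero, add_zero] at l123
  have e1 : ∀ᶠ k : ℕ in Filter.atTop, C * (1 + K₀) * k *
      (b : ℝ) ^ (-(δ * (1 / 103 - 1 / 300) * ((k : ℝ) - 1))) +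
      1 * k * (b : ℝ) ^ (-(δP * (3 / 8) * ((k : ℝ) - 1))) +
      1 * k * (b : ℝ) ^ (-(3 / 16 * ((k : ℝ) - 1))) < ε' :=
    l123.eventually (gt_mem_nhds hε')
  have e2 : ∀ᶠ k : ℕ in Filter.atTop, x₀ ≤ (b : ℝ) ^ (k - 1) := by
    have := (tendsto_pow_atTop_atTop_of_one_lt hb1).comp (Filter.tendsto_sub_atTop_nat 1)
    exact this.eventually (Filter.eventually_ge_atTop x₀)
  have e3 : ∀ᶠ k : ℕ in Filter.atTop, 6000 ≤ k := Filter.eventually_ge_atTop _
  have e4 : ∀ᶠ k : ℕ in Filter.atTop, ⌈1 / ε⌉₊ ≤ k := Filter.eventually_ge_atTop _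
  obtain ⟨k₀, hk₀⟩ := Filter.eventually_atTop.1 (e1.and (e2.and (e3.and e4)))
  refine ⟨k₀, fun k hk p m V hB hV hVK hm hmk => ?_⟩
  obtain ⟨hk1, hk2, hk3, hk4⟩ := hk₀ k hk
  have hkε : 1 / ε ≤ (k : ℝ) := (Nat.le_ceil _).trans (by exact_mod_cast hk4)
  rw [div_le_iff₀ hε] at hkε
  have hkR : (6000 : ℝ) ≤ k := by exact_mod_cast hk3
  have hkc : ((k - 1 : ℕ) : ℝ) = (k : ℝ) - 1 := by
    rw [Nat.cast_sub (by omega), Nat.cast_one]
  have hmR : (1 : ℝ) ≤ m := by exact_mod_cast hm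
  have hmk' : (m : ℝ) ≤ 5 / 18 * k := by
    have : 0 < ε * k := by positivity
    nlinarith
  have hmr : ((m / r : ℕ) : ℝ) ≤ m * (1 / r) := by
    rw [mul_one_div]
    exact Nat.cast_div_le
  have hmr0 : (0 : ℝ) ≤ ((m / r : ℕ) : ℝ) := Nat.cast_nonneg _
  set J₂ : ℕ := (k - 1) / 101 with hJ₂
  have hJ1 : 1 ≤ J₂ := by rw [hJ₂]; omega
  have hJ103 : ((k : ℝ) - 1) * (1 / 103) ≤ (J₂ : ℝ) := by
    have h1 : k - 1 < 101 * (J₂ + 1) := by
      rw [hJ₂]
      omega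
    have h2 : ((k - 1 : ℕ) : ℝ) < 101 * ((J₂ : ℝ) + 1) := by exact_mod_cast h1
    rw [hkc] at h2
    linarith
  set x : ℝ := (b : ℝ) ^ (k - 1) with hx
  have hx0 : 0 < x := by positivity
  have hxr : ∀ a : ℝ, x ^ a = (b : ℝ) ^ (a * ((k : ℝ) - 1)) := by
    intro a
    rw [hx, ← Real.rpow_natCast, ← Real.rpow_mul hb0.le, hkc, mul_comm]
  set T : ℝ := (b : ℝ) ^ (m + m / r) with hT
  have hT0 : 0 < T := by positivity
  have hbmT : (b : ℝ) ^ m ≤ T := pow_le_pow_right₀ hb1.le (Nat.le_add_right _ _)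
  have hR0 : (0 : ℝ) ≤ (RR b p m ∅).card := Nat.cast_nonneg _
  have hlv : ∀ χ : DirichletCharacter ℂ (b ^ m), lv χ ≤ m := fun χ =>
    HPP.lv_le χ (DirichletCharacter.FactorsThrough.same_level χ)
  by_cases hTJ : T < (b : ℝ) ^ J₂
  · -- empty region
    have hE : ∀ χ : DirichletCharacter ℂ (b ^ m),
        {t : ℝ | |t| ≤ T ∧ (b : ℝ) ^ J₂ ≤ mx χ t} = ∅ := by
      intro χ
      ext t
      simp only [Set.mem_ofPred_eq, Set.mem_empty_iff_false, iff_false, not_and, not_le]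
      intro ht
      refine (max_lt ?_ (ht.trans_lt hTJ) : mx χ t < _)
      exact ((pow_le_pow_right₀ hb1.le (hlv χ)).trans hbmT).trans_lt hTJ
    have : R3 b p m J₂ V x T = 0 := by
      unfold R3
      refine Finset.sum_eq_zero fun χ _ => ?_
      rw [hE χ]
      simp
    rw [this]
    positivity
  · push Not at hTJ
    have hK : x ^ (1 / 103 : ℝ) ≤ (b : ℝ) ^ J₂ := by
      rw [hxr, ← Real.rpow_natCast (b : ℝ) J₂]
      refine Real.rpow_le_rpow_of_exponent_le hb1.le ?_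
      linarith
    set s : ℝ := C * (1 + K₀) * m * ((b : ℝ) ^ J₂) ^ (-δ) with hs
    have hs0 : 0 ≤ s := by positivity
    have hbT : (b : ℝ) ^ m * T ≤ x ^ (5 / 9 : ℝ) := by
      rw [hT, ← pow_add, hxr, ← Real.rpow_natCast]
      refine Real.rpow_le_rpow_of_exponent_le hb1.le ?_
      push_cast
      have h1 : (m : ℝ) * (1 / r) ≤ m * ε := mul_le_mul_of_nonneg_left hrε' (by linarith)
      have h2 : (m : ℝ) * ε ≤ 5 / 18 * k * ε := mul_le_mul_of_nonneg_right hmk' hε.le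
      nlinarith
    have hmain := hx₀ x hk2 p m ∅ V T ((b : ℝ) ^ J₂) s hB hm (Finset.empty_subset _) hV hbmT hbT hK
      (hK.trans hTJ) hs0 (fun χ => {t : ℝ | |t| ≤ T ∧ (b : ℝ) ^ J₂ ≤ mx χ t})
      (fun χ => rh_meas χ T _) ?_ ?_
    · have hRe : R3 b p m J₂ V x T = ∑ χ : DirichletCharacter ℂ (b ^ m),
          ∫ t in {t : ℝ | |t| ≤ T ∧ (b : ℝ) ^ J₂ ≤ mx χ t}, ‖cc b p ∅ V χ t‖ * ‖HPP.PP χ t x‖ := rfl
      rw [hRe]
      refine hmain.trans ?_
      rw [Real.rpow_add hx0, Real.rpow_one]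
      have hTm : T / (b : ℝ) ^ m * (b : ℝ) ^ (3 * (∅ : Finset ℕ).card) = (b : ℝ) ^ ((m / r : ℕ) : ℝ) := by
        rw [Finset.card_empty, mul_zero, pow_zero, mul_one, hT, pow_add, Real.rpow_natCast,
          mul_div_assoc, mul_comm, div_mul_cancel₀]
        positivity
      rw [hTm, ← Real.rpow_mul hb0.le]
      have g1 : x ^ ε₁ * s ≤ C * (1 + K₀) * k *
          (b : ℝ) ^ (-(δ * (1 / 103 - 1 / 300) * ((k : ℝ) - 1))) := by
        have h1 : ((b : ℝ) ^ J₂) ^ (-δ) ≤ (b : ℝ) ^ (-(δ * (1 / 103) * ((k : ℝ) - 1))) := by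
          rw [← Real.rpow_natCast (b : ℝ) J₂, ← Real.rpow_mul hb0.le]
          refine Real.rpow_le_rpow_of_exponent_le hb1.le ?_
          nlinarith
        have h2 : x ^ ε₁ ≤ (b : ℝ) ^ (δ / 300 * ((k : ℝ) - 1)) := by
          rw [hxr]
          refine Real.rpow_le_rpow_of_exponent_le hb1.le ?_
          exact mul_le_mul_of_nonneg_right hε₁a (by linarith)
        have h3 : (m : ℝ) ≤ k := by linarith
        calc x ^ ε₁ * s = C * (1 + K₀) * m * (x ^ ε₁ * ((b : ℝ) ^ J₂) ^ (-δ)) := by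
              rw [hs]; ring
          _ ≤ C * (1 + K₀) * k * ((b : ℝ) ^ (δ / 300 * ((k : ℝ) - 1)) *
              (b : ℝ) ^ (-(δ * (1 / 103) * ((k : ℝ) - 1)))) := by
              gcongr
          _ = C * (1 + K₀) * k * (b : ℝ) ^ (-(δ * (1 / 103 - 1 / 300) * ((k : ℝ) - 1))) := by
              rw [← Real.rpow_add hb0]
              congr 2
              ring
      have g2 : x ^ ε₁ * ((b : ℝ) ^ (((m / r : ℕ) : ℝ) * (1 / 2)) * x ^ (-δP)) ≤
          1 * k * (b : ℝ) ^ (-(δP * (3 / 8) * ((k : ℝ) - 1))) := by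
        rw [hxr, hxr, ← Real.rpow_add hb0, ← Real.rpow_add hb0]
        have h1 : (1 : ℝ) ≤ 1 * k := by linarith
        refine le_trans ?_ (le_mul_of_one_le_left (by positivity) h1)
        refine Real.rpow_le_rpow_of_exponent_le hb1.le ?_
        have h2 : (m : ℝ) * (1 / r) ≤ m * (δP / 2) := mul_le_mul_of_nonneg_left hrP' (by linarith)
        have h3 : (m : ℝ) * (δP / 2) ≤ 5 / 18 * k * (δP / 2) :=
          mul_le_mul_of_nonneg_right hmk' (by linarith)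
        have h4 : ε₁ * ((k : ℝ) - 1) ≤ δP / 8 * ((k : ℝ) - 1) :=
          mul_le_mul_of_nonneg_right hε₁b (by linarith)
        have h5 : δP * 6000 ≤ δP * k := mul_le_mul_of_nonneg_left hkR hδP.le
        nlinarith
      have g3 : x ^ ε₁ * x ^ (-(1 / 4) : ℝ) ≤
          1 * k * (b : ℝ) ^ (-(3 / 16 * ((k : ℝ) - 1))) := by
        rw [hxr, hxr, ← Real.rpow_add hb0]
        have h1 : (1 : ℝ) ≤ 1 * k := by linarith
        refine le_trans ?_ (le_mul_of_one_le_left (by positivity) h1)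
        refine Real.rpow_le_rpow_of_exponent_le hb1.le ?_
        have h4 : ε₁ * ((k : ℝ) - 1) ≤ 1 / 16 * ((k : ℝ) - 1) :=
          mul_le_mul_of_nonneg_right hε₁c (by linarith)
        linarith
      have g4 : x ^ ε₁ * (s + (b : ℝ) ^ (((m / r : ℕ) : ℝ) * (1 / 2)) * x ^ (-δP) +
          x ^ (-(1 / 4) : ℝ)) ≤ ε' := by
        rw [mul_add, mul_add]
        linarith
      calc _ = (RR b p m ∅).card * x * (x ^ ε₁ * (s + (b : ℝ) ^ (((m / r : ℕ) : ℝ) * (1 / 2)) *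
            x ^ (-δP) + x ^ (-(1 / 4) : ℝ))) := by ring
        _ ≤ (RR b p m ∅).card * x * ε' := mul_le_mul_of_nonneg_left g4 (by positivity)
        _ = ε' * (RR b p m ∅).card * x := by ring
    · -- inclusion
      rintro χ t ⟨ht1, ht2⟩
      refine ⟨ht1, fun h1 => ?_⟩
      unfold mx at ht2
      rw [h1, rh_lv_one, pow_zero] at ht2
      rcases le_max_iff.1 ht2 with h2 | h2
      · exfalso
        have : (b : ℝ) ^ 1 ≤ (b : ℝ) ^ J₂ := pow_le_pow_right₀ hb1.le hJ1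
        rw [pow_one] at this
        linarith
      · exact h2
    · -- sup bound
      rintro χ t ⟨ht1, ht2⟩
      have hT8 : T ≤ (b : ℝ) ^ (m + m / 8) :=
        pow_le_pow_right₀ hb1.le (Nat.add_le_add_left (Nat.div_le_div_left hr8 (by norm_num)) _)
      refine (hS p m V K₀ hB hV hK₀ hVK hm χ t (ht1.trans hT8)).trans ?_
      refine mul_le_mul_of_nonneg_right ?_ hR0
      rw [hs]
      refine mul_le_mul_of_nonneg_left ?_ (by positivity)
      exact Real.rpow_le_rpow_of_nonpos (by positivity) ht2 (by linarith)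

end Pool.Agent.HPY
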