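import Pool.Agent.HPY.Iface
import Pool.Agent.HPZ.APP
import Pool.Agent.HPX.RMid

/-!
# HPY/RMid: the middle cells (port of `HPX/RMid`)

Cell `j`: `‖cc‖ ≤ C (1+K) m b^(-δ j) #RR`, `m ≤ log x / log b` (`b^m ≤ x`), and the `L¹` norm of `PP` over the characters of level
`≤ j` and `log x ≤ |t| ≤ b^(j+1)` for the trivial one is at most that of `LowProp` at `j + 1` with `ε₁ = δ / 2` (`HPX.rm_sum`). So
the sum is `≤ C' (log x)^(B₀+1) x #RR ∑_(j ≥ J₁) b^(-δ j / 2)`, and `b^(-δ J₁ / 2) ≤ (log x)^(-A₂ δ / 2)`: `A₂ = 2 (B₀ + 2) / δ + 1`.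
-/

namespace Pool.Agent.HPY

open Complex MeasureTheory Pool.Agent.HPZ
open Pool.Agent.HPP (Bp PP Gt lv)

/-- one cell -/
private theorem rm_cell {b : ℕ} {C δ : ℝ} (hC : 1 ≤ C) (hδ : 0 < δ) (hS : SupM b C δ)
    {p m j : ℕ} (hb : Bas b p) (hm : 1 ≤ m) {V : ℝ → ℝ} {K : ℝ}
    (hV : ∀ y, 0 ≤ V y ∧ V y ≤ 1) (hK : 0 ≤ K) (hVK : ∀ y z, |V y - V z| ≤ K * |y - z|)
    {x T : ℝ} (hx : 0 < x) (hT : T ≤ (b : ℝ) ^ (m + m / 8)) :
    R2 b p m j V x T ≤
      C * (1 + K) * m * (b : ℝ) ^ (-(δ * (j : ℝ))) * ((RR b p m ∅).card : ℝ) *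
      ∑ χ : DirichletCharacter ℂ (b ^ (j + 1)),
        ∫ t in Gt χ (Real.log x) ((b : ℝ) ^ (j + 1)), ‖PP χ t x‖ := by
  classical
  have hb2 := hb.two
  have hb1 : (1 : ℝ) < b := by exact_mod_cast (by omega : 1 < b)
  have hb0 : (0 : ℝ) < b := by linarith
  set A : DirichletCharacter ℂ (b ^ m) → Set ℝ := fun χ => Gt χ (Real.log x) T ∩
    {t | |t| ≤ (b : ℝ) ^ (j + 1) ∧ (b : ℝ) ^ j ≤ mx χ t} with hA
  set s : ℝ := C * (1 + K) * m * (b : ℝ) ^ (-(δ * (j : ℝ))) * ((RR b p m ∅).card : ℝ) with hs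
  have hs0 : 0 ≤ s := by positivity
  set S : Finset (DirichletCharacter ℂ (b ^ m)) := Finset.univ.filter fun χ => lv χ ≤ j with hSd
  have hmeas : ∀ χ, MeasurableSet (A χ) := by
    intro χ
    have e1 : MeasurableSet (Gt χ (Real.log x) T) := by
      have : Gt χ (Real.log x) T = {t : ℝ | |t| ≤ T} ∩ {t : ℝ | χ = 1 → Real.log x ≤ |t|} := rfl
      rw [this]
      refine (measurableSet_le measurable_norm measurable_const).inter ?_
      by_cases h : χ = 1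
      · simp only [h, forall_true_left]
        exact measurableSet_le measurable_const measurable_norm
      · simp only [h, false_imp_iff, Set.ofPred_true]
        exact MeasurableSet.univ
    refine e1.inter (MeasurableSet.inter ?_ ?_)
    · exact measurableSet_le measurable_norm measurable_const
    · exact measurableSet_le measurable_const (measurable_const.max measurable_norm)
  have hcont : ∀ χ : DirichletCharacter ℂ (b ^ m),
      Continuous fun t : ℝ => ‖cc b p ∅ V χ t‖ * ‖PP χ t x‖ := fun χ =>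
    (cc_continuous hb hm ∅ V χ).norm.mul (HPP.PP_continuous χ hx).norm
  have hsub : ∀ χ, A χ ⊆ Set.Icc (-T) T := fun χ t ht => Set.mem_Icc.2 (abs_le.1 ht.1.1)
  have h2 : ∀ χ ∈ S, ∫ t in A χ, ‖cc b p ∅ V χ t‖ * ‖PP χ t x‖ ≤ s * ∫ t in A χ, ‖PP χ t x‖ := by
    intro χ hχ
    rw [← integral_const_mul]
    refine setIntegral_mono_on ((hcont χ).continuousOn.integrableOn_Icc.mono_set (hsub χ))
      (((continuous_const.mul (HPP.PP_continuous χ hx).norm).continuousOn.integrableOn_Icc).mono_set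
        (hsub χ)) (hmeas χ) ?_
    rintro t ⟨⟨ht1, ht2⟩, ht3, ht4⟩
    refine mul_le_mul_of_nonneg_right ?_ (norm_nonneg _)
    rw [hs]
    refine (hS p m V K hb hV hK hVK hm χ t (ht1.trans hT)).trans ?_
    refine mul_le_mul_of_nonneg_right (mul_le_mul_of_nonneg_left ?_ (by positivity))
      (by positivity)
    calc (mx χ t) ^ (-δ) ≤ ((b : ℝ) ^ j) ^ (-δ) :=
          Real.rpow_le_rpow_of_nonpos (by positivity) ht4 (by linarith)
      _ = (b : ℝ) ^ (-(δ * (j : ℝ))) := by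
          rw [← Real.rpow_natCast, ← Real.rpow_mul hb0.le]
          congr 1; ring
  have h3 := HPX.rm_sum (b := b) (m := m) (n := j + 1) (by omega) hm (by omega) hx
    (κ := Real.log x) (T := (b : ℝ) ^ (j + 1)) S (fun χ hχ => by
      have := (Finset.mem_filter.1 hχ).2
      omega) A (by
      rintro χ _ t ⟨⟨ht1, ht2⟩, ht3, ht4⟩
      exact ⟨ht3, ht2⟩)
  calc R2 b p m j V x T
      = ∑ χ ∈ S, ∫ t in A χ, ‖cc b p ∅ V χ t‖ * ‖PP χ t x‖ := by
        unfold R2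
        rw [hSd]
    _ ≤ ∑ χ ∈ S, s * ∫ t in A χ, ‖PP χ t x‖ := Finset.sum_le_sum h2
    _ = s * ∑ χ ∈ S, ∫ t in A χ, ‖PP χ t x‖ := by rw [Finset.mul_sum]
    _ ≤ _ := mul_le_mul_of_nonneg_left h3 hs0

theorem rMidN (h : HPX.LowProp) : RMidN := by
  obtain ⟨B₀, hB₀, hLow⟩ := h
  intro b hb2 C δ hC hδ hS
  have hb1 : (1 : ℝ) < b := by exact_mod_cast (by omega : 1 < b)
  have hb0 : (0 : ℝ) < b := by linarith
  have hlb : 0 < Real.log b := Real.log_pos hb1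
  refine ⟨2 * (B₀ + 2) / δ + 1, by
    have : 0 ≤ 2 * (B₀ + 2) / δ := by positivity
    linarith, fun K hK ε hε => ?_⟩
  obtain ⟨C', hC', x₀, hx₀⟩ := hLow b hb2 (δ / 2) (by positivity)
  set r : ℝ := (b : ℝ) ^ (-(δ / 2)) with hr
  have hr0 : 0 < r := Real.rpow_pos_of_pos hb0 _
  have hr1 : r < 1 := Real.rpow_lt_one_of_one_lt_of_neg hb1 (by linarith)
  have h6 : 0 < 1 - r := by linarith
  set D : ℝ := C * (1 + K) * (Real.log b)⁻¹ * C' * (b : ℝ) ^ (δ / 2) * (1 - r)⁻¹ with hD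
  have hD0 : 0 < D := by positivity
  refine ⟨max x₀ (max (Real.exp 1) (Real.exp (D / ε))), ?_⟩
  intro x hx p m J₁ J₂ V T hb hV hVK hm hmx hJ₁ hJ12 hJ2x hJ1 hT0 hT
  have hxx₀ : x₀ ≤ x := (le_max_left _ _).trans hx
  have hxe : Real.exp 1 ≤ x := (le_max_left _ _).trans ((le_max_right _ _).trans hx)
  have hxD : Real.exp (D / ε) ≤ x := (le_max_right _ _).trans ((le_max_right _ _).trans hx)
  have hx0 : 0 < x := lt_of_lt_of_le (Real.exp_pos 1) hxe
  have hL : 1 ≤ Real.log x := by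
    rw [← Real.log_exp 1]; exact Real.log_le_log (Real.exp_pos 1) hxe
  have hLD : D / ε ≤ Real.log x := by
    rw [← Real.log_exp (D / ε)]; exact Real.log_le_log (Real.exp_pos _) hxD
  have hmL : (m : ℝ) ≤ Real.log x * (Real.log b)⁻¹ := by
    have h1 := Real.log_le_log (by positivity) hmx
    rw [Real.log_pow] at h1
    rw [← div_eq_mul_inv, le_div_iff₀ hlb]
    exact h1
  set L : ℝ := Real.log x with hLd
  have hL0 : 0 < L := by linarith
  set R : ℝ := ((RR b p m ∅).card : ℝ) with hR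
  have hR0 : 0 ≤ R := by positivity
  have hone : ∀ j ∈ Finset.Ico J₁ J₂, R2 b p m j V x T ≤
      C * (1 + K) * (Real.log b)⁻¹ * C' * (b : ℝ) ^ (δ / 2) * R * x * (L ^ B₀ * L) * r ^ j := by
    intro j hj
    rw [Finset.mem_Ico] at hj
    have h1 := rm_cell hC hδ hS hb hm (j := j) hV hK hVK (x := x) hx0 hT
    refine h1.trans ?_
    have h2 : (b : ℝ) ^ (j + 1) ≤ x ^ (1 / 100 : ℝ) :=
      (pow_le_pow_right₀ hb1.le (by omega)).trans hJ2x
    have h3 := hx₀ x hxx₀ (j + 1) (by omega) h2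
    calc C * (1 + K) * m * (b : ℝ) ^ (-(δ * (j : ℝ))) * R *
        ∑ χ : DirichletCharacter ℂ (b ^ (j + 1)), ∫ t in Gt χ L ((b : ℝ) ^ (j + 1)), ‖PP χ t x‖
        ≤ C * (1 + K) * (L * (Real.log b)⁻¹) * (b : ℝ) ^ (-(δ * (j : ℝ))) * R *
          (C' * (b : ℝ) ^ (δ / 2 * ((j + 1 : ℕ) : ℝ)) * x * L ^ B₀) := by
          refine mul_le_mul ?_ h3 ?_ (by positivity)
          · refine mul_le_mul_of_nonneg_right (mul_le_mul_of_nonneg_right
              (mul_le_mul_of_nonneg_left hmL ?_) (by positivity)) hR0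
            positivity
          · exact Finset.sum_nonneg fun χ _ => integral_nonneg fun t => norm_nonneg _
      _ = C * (1 + K) * (Real.log b)⁻¹ * C' * R * x * (L ^ B₀ * L) *
          ((b : ℝ) ^ (-(δ * (j : ℝ))) * (b : ℝ) ^ (δ / 2 * ((j + 1 : ℕ) : ℝ))) := by ring
      _ = C * (1 + K) * (Real.log b)⁻¹ * C' * R * x * (L ^ B₀ * L) *
          ((b : ℝ) ^ (δ / 2) * r ^ j) := by
          congr 1
          rw [hr, ← Real.rpow_natCast ((b : ℝ) ^ (-(δ / 2))) j, ← Real.rpow_mul hb0.le,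
            ← Real.rpow_add hb0, ← Real.rpow_add hb0]
          congr 1
          push_cast
          ring
      _ = _ := by ring
  refine (Finset.sum_le_sum hone).trans ?_
  rw [← Finset.mul_sum]
  have hgeo : ∑ j ∈ Finset.Ico J₁ J₂, r ^ j ≤ r ^ J₁ * (1 - r)⁻¹ := by
    have := geom_sum_Ico_le_of_lt_one (m := J₁) (n := J₂) hr0.le hr1
    rwa [div_eq_mul_inv] at this
  have hrJ : r ^ J₁ ≤ (L ^ (B₀ + 2))⁻¹ := by
    have e0 : r ^ J₁ = ((b : ℝ) ^ J₁) ^ (-(δ / 2)) := by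
      rw [hr, ← Real.rpow_natCast, ← Real.rpow_natCast, ← Real.rpow_mul hb0.le,
        ← Real.rpow_mul hb0.le]
      congr 1; ring
    have h1 : ((b : ℝ) ^ J₁) ^ (-(δ / 2)) ≤ (L ^ (2 * (B₀ + 2) / δ + 1)) ^ (-(δ / 2)) :=
      Real.rpow_le_rpow_of_nonpos (by positivity) hJ1 (by linarith)
    rw [e0, ← Real.rpow_neg hL0.le]
    refine h1.trans ?_
    rw [← Real.rpow_mul hL0.le]
    refine Real.rpow_le_rpow_of_exponent_le hL ?_
    have : (2 * (B₀ + 2) / δ + 1) * -(δ / 2) = -(B₀ + 2) - δ / 2 := by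
      field_simp
      ring
    rw [this]
    linarith
  have h5 : L ^ B₀ * L * (L ^ (B₀ + 2))⁻¹ = L⁻¹ := by
    have e1 : L ^ (B₀ + 2) = L ^ B₀ * L * L := by
      rw [Real.rpow_add hL0, Real.rpow_two]; ring
    rw [e1, mul_inv, ← mul_assoc, mul_inv_cancel₀ (by positivity), one_mul]
  have hfin : D * L⁻¹ ≤ ε := by
    rw [← div_eq_mul_inv, div_le_iff₀ hL0]
    rw [div_le_iff₀ hε] at hLD
    linarith
  calc C * (1 + K) * (Real.log b)⁻¹ * C' * (b : ℝ) ^ (δ / 2) * R * x * (L ^ B₀ * L) *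
        ∑ j ∈ Finset.Ico J₁ J₂, r ^ j
      ≤ C * (1 + K) * (Real.log b)⁻¹ * C' * (b : ℝ) ^ (δ / 2) * R * x * (L ^ B₀ * L) *
        ((L ^ (B₀ + 2))⁻¹ * (1 - r)⁻¹) := by
        refine mul_le_mul_of_nonneg_left (hgeo.trans ?_) (by positivity)
        exact mul_le_mul_of_nonneg_right hrJ (by positivity)
    _ = C * (1 + K) * (Real.log b)⁻¹ * C' * (b : ℝ) ^ (δ / 2) * (1 - r)⁻¹ * R * x *
        (L ^ B₀ * L * (L ^ (B₀ + 2))⁻¹) := by ring
    _ = D * L⁻¹ * R * x := by rw [h5, hD]; ring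
    _ ≤ ε * R * x := by
        refine mul_le_mul_of_nonneg_right (mul_le_mul_of_nonneg_right hfin hR0) hx0.le

end Pool.Agent.HPY
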