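import Pool.Agent.HPY.SBas

/-!
# HPY/S1: regime 1 (`Sup1`)

`L = m' / 8` (natural division, `≥ 2`), `s = m' - L`, `2 s ≥ 7 m' / 4`, `L ≤ s`, `SLinN`: `th b m m' s a t r n = a iv b^r / b^L + τ / b^r` with
`τ = t / (2 π yv b^s)`; `SPrdN` with `w = a * iv b m n`, `B = L / (4 b)`; `SAvgN` and `Dg_sub`, `card_Dg`: the average is
`≤ 2 b (1 - c / b^4)^B`. `b² |t| / b^(2s) ≤ b^(2 - m'/4)`, `K b / b^s ≤ K b^(1 - 7m'/8)`. `(1 - c / b^4)^B ≤ C b^(-δ m')` with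
`B ≥ m' / (32 b) - 2`, `δ` small depending on `b`.
-/

namespace Pool.Agent.HPY

open Complex MeasureTheory Pool.Agent.HPZ
open Pool.Agent.HPP (Bp PP Gt lv)

open Pool.Agent.HPX (Ds dg yv iv nd th)

/-- the average over `n` -/
private theorem avg91 {b p m m' s L B a : ℕ} {c : ℝ} (hB : Bas b p) (hc0 : 0 < c) (hc1 : c ≤ 1 / 2)
    (hP : ∀ (B L w : ℕ) (τ : ℝ), 4 * B ≤ L →
      ∏ r ∈ Finset.range L, gB b ((w : ℝ) * (b : ℝ) ^ r / (b : ℝ) ^ L + τ / (b : ℝ) ^ r) ≤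
        ∏ j ∈ Finset.range B, (if (w / b ^ (L - 4 * (j + 1))) % b ^ 4 = e0 b then 1 - c else 1))
    (h3 : SAvgN) (hs : 1 ≤ s) (hL1 : 1 ≤ L) (hLs : L ≤ s) (hsm : s ≤ m) (hmL : m' - s = L)
    (hBL : 4 * b * B ≤ L) (ha : ¬ b ∣ a) (t : ℝ) :
    (∑ n ∈ Dg b p s, ∏ r ∈ Finset.range L, gB b (th b m m' s a t r n)) / (Dg b p s).card ≤
      2 * b * (1 - c / (b : ℝ) ^ 4) ^ B := by
  have hb2 := hB.two
  have hb0 : (0 : ℝ) < b := by exact_mod_cast (by omega : 0 < b)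
  have h4B : 4 * B ≤ L := by
    have : 4 * B ≤ 4 * b * B := by nlinarith
    omega
  have hF0 : ∀ (n j : ℕ), 0 ≤ (if ((a * iv b m n) / b ^ (L - 4 * (j + 1))) % b ^ 4 = e0 b
      then 1 - c else (1 : ℝ)) := by
    intro n j
    split_ifs
    · linarith
    · exact zero_le_one
  have hpt : ∀ n : ℕ, ∏ r ∈ Finset.range L, gB b (th b m m' s a t r n) ≤
      ∏ j ∈ Finset.range B, (if ((a * iv b m n) / b ^ (L - 4 * (j + 1))) % b ^ 4 = e0 b
        then 1 - c else 1) := by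
    intro n
    have h := hP B L (a * iv b m n) (t / (2 * Real.pi * yv b s n * (b : ℝ) ^ s)) h4B
    refine le_trans (le_of_eq ?_) h
    refine Finset.prod_congr rfl fun r _ => ?_
    congr 1
    unfold th
    rw [hmL]
    congr 1
    · push_cast
      ring
    · rw [div_div, pow_add, mul_assoc (2 * Real.pi * yv b s n)]
  have hsum : ∑ n ∈ Dg b p s, ∏ r ∈ Finset.range L, gB b (th b m m' s a t r n) ≤
      2 * (b : ℝ) ^ s * (1 - c / (b : ℝ) ^ 4) ^ B := by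
    refine (Finset.sum_le_sum fun n _ => hpt n).trans ?_
    refine (Finset.sum_le_sum_of_subset_of_nonneg (Dg_sub hB hs) fun n _ _ =>
      Finset.prod_nonneg fun j _ => hF0 n j).trans ?_
    exact h3 b m s L B a c hb2 hc0.le (by linarith) hL1 hLs hsm hBL ha
  rw [card_Dg hs]
  have hcd : ((b ^ (s - 1) : ℕ) : ℝ) = (b : ℝ) ^ (s - 1) := by push_cast; rfl
  rw [hcd, div_le_iff₀ (by positivity)]
  refine hsum.trans (le_of_eq ?_)
  have h5 : (b : ℝ) ^ s = (b : ℝ) ^ (s - 1) * b := by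
    rw [← pow_succ]
    congr 1
    omega
  rw [h5]
  ring

/-- the power of `ρ` -/
private theorem pow91 {b m' : ℕ} {ρ : ℝ} (hb : 2 ≤ b) (h0 : 1 / 2 ≤ ρ) (h1 : ρ < 1) :
    ρ ^ (m' / 8 / (4 * b)) ≤ 4 * (b : ℝ) ^ (-(-Real.log ρ / (32 * b * Real.log b) * m')) := by
  have hb0 : (0 : ℝ) < b := by exact_mod_cast (by omega : 0 < b)
  have hb1 : (1 : ℝ) < b := by exact_mod_cast (by omega : 1 < b)
  have hρ : 0 < ρ := by linarith
  have hlog : 0 < Real.log b := Real.log_pos hb1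
  have hlr : Real.log ρ < 0 := Real.log_neg hρ h1
  obtain ⟨B, hB⟩ : ∃ B : ℕ, B = m' / 8 / (4 * b) := ⟨_, rfl⟩
  rw [← hB]
  have hBn : m' < 8 * (4 * b * (B + 1)) + 8 := by
    have e1 := Nat.div_add_mod m' 8
    have e2 := Nat.mod_lt m' (by norm_num : 8 > 0)
    have e3 := Nat.div_add_mod (m' / 8) (4 * b)
    have e4 := Nat.mod_lt (m' / 8) (by omega : 4 * b > 0)
    rw [← hB] at e3
    nlinarith
  have hBr : (m' : ℝ) ≤ 8 * (4 * b * (B + 1)) + 8 := by exact_mod_cast hBn.le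
  have hBl : (m' : ℝ) / (32 * b) - 2 ≤ B := by
    have h2 : (m' : ℝ) / (32 * b) ≤ B + 2 := by
      rw [div_le_iff₀ (by positivity)]
      nlinarith
    linarith
  have hkey : ρ ^ B ≤ ρ ^ ((m' : ℝ) / (32 * b) - 2) := by
    rw [← Real.rpow_natCast]
    exact Real.rpow_le_rpow_of_exponent_ge hρ h1.le hBl
  refine hkey.trans ?_
  rw [Real.rpow_sub hρ]
  have h6 : ρ ^ ((m' : ℝ) / (32 * b)) = (b : ℝ) ^ (-(-Real.log ρ / (32 * b * Real.log b) * m')) := by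
    rw [Real.rpow_def_of_pos hρ, Real.rpow_def_of_pos hb0]
    congr 1
    field_simp
  rw [h6]
  have h7 : ρ ^ (2 : ℝ) = ρ ^ 2 := by
    rw [show (2 : ℝ) = ((2 : ℕ) : ℝ) by norm_num, Real.rpow_natCast]
  rw [h7, div_le_iff₀ (by positivity)]
  have h8 : 1 ≤ 4 * ρ ^ 2 := by nlinarith
  have h9 : 0 < (b : ℝ) ^ (-(-Real.log ρ / (32 * b * Real.log b) * m')) := by positivity
  nlinarith

theorem sup1 (h1 : SLinN) (h2 : SPrdN) (h3 : SAvgN) : Sup1 := by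
  intro b hb
  obtain ⟨c, hc0, hc1, hP⟩ := h2 b hb
  have hb0 : (0 : ℝ) < b := by exact_mod_cast (by omega : 0 < b)
  have hb1 : (1 : ℝ) < b := by exact_mod_cast (by omega : 1 < b)
  have hlog : 0 < Real.log b := Real.log_pos hb1
  have hb4 : (1 : ℝ) ≤ (b : ℝ) ^ 4 := one_le_pow₀ hb1.le
  obtain ⟨ρ, hρ⟩ : ∃ ρ : ℝ, ρ = 1 - c / (b : ℝ) ^ 4 := ⟨_, rfl⟩
  have hq : c / (b : ℝ) ^ 4 ≤ 1 / 2 := by
    rw [div_le_iff₀ (by positivity)]
    nlinarith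
  have hq0 : 0 < c / (b : ℝ) ^ 4 := by positivity
  have hρ0 : 1 / 2 ≤ ρ := by rw [hρ]; linarith
  have hρ1 : ρ < 1 := by rw [hρ]; linarith
  have hlr : Real.log ρ < 0 := Real.log_neg (by linarith) hρ1
  obtain ⟨δ₁, hδ₁⟩ : ∃ δ₁ : ℝ, δ₁ = -Real.log ρ / (32 * b * Real.log b) := ⟨_, rfl⟩
  have hδ₁0 : 0 < δ₁ := by
    rw [hδ₁]
    exact div_pos (by linarith) (by positivity)
  refine ⟨(b : ℝ) ^ 2 + 9 * b, min (1 / 4) δ₁, by nlinarith, lt_min (by norm_num) hδ₁0, ?_⟩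
  intro p m m' V K hB hV hK hVK hm16 hmm χ hχ hχ' t ht
  obtain ⟨L, hL⟩ : ∃ L : ℕ, L = m' / 8 := ⟨_, rfl⟩
  obtain ⟨s, hs⟩ : ∃ s : ℕ, s = m' - L := ⟨_, rfl⟩
  have hL8 : 8 * L ≤ m' := by rw [hL]; exact Nat.mul_div_le m' 8
  have hL2 : 2 ≤ L := by rw [hL]; omega
  have hsL : s + L = m' := by omega
  have hLs : L ≤ s := by omega
  have hs1 : 1 ≤ s := by omega
  have hs7 : 7 * m' ≤ 8 * s := by omega
  obtain ⟨a, ha, hlin⟩ := h1 b p m m' s L V K hB hV hK hVK (by omega) hmm hs1 (by omega)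
    (by omega) χ hχ (fun _ => hχ')
  have ha' : ¬ b ∣ a := ha (by omega)
  have h := hlin t
  have hBL : 4 * b * (L / (4 * b)) ≤ L := Nat.mul_div_le L (4 * b)
  have havg := avg91 (m := m) (m' := m') hB hc0 hc1 hP h3 hs1 (by omega : 1 ≤ L) hLs
    (by omega : s ≤ m) (by omega : m' - s = L) hBL ha' t
  have hpow := pow91 (m' := m') hb hρ0 hρ1
  rw [← hL, ← hδ₁] at hpow
  rw [← hρ] at havg
  obtain ⟨D, hD⟩ : ∃ D : ℝ, D = (b : ℝ) ^ (-(min (1 / 4) δ₁ * m')) := ⟨_, rfl⟩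
  have hD0 : 0 < D := by rw [hD]; positivity
  have hm0 : (0 : ℝ) ≤ m' := Nat.cast_nonneg _
  have hDle : ∀ y : ℝ, y ≤ -(min (1 / 4) δ₁ * m') → (b : ℝ) ^ y ≤ D := by
    intro y hy
    rw [hD]
    exact Real.rpow_le_rpow_of_exponent_le hb1.le hy
  have hmin1 : min (1 / 4) δ₁ * m' ≤ 1 / 4 * m' := mul_le_mul_of_nonneg_right (min_le_left _ _) hm0
  have hmin2 : min (1 / 4) δ₁ * m' ≤ δ₁ * m' := mul_le_mul_of_nonneg_right (min_le_right _ _) hm0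
  have hs7r : 7 * (m' : ℝ) ≤ 8 * s := by exact_mod_cast hs7
  have t1 : (b : ℝ) ^ 2 * |t| / (b : ℝ) ^ (2 * s) ≤ (b : ℝ) ^ 2 * D := by
    rw [div_le_iff₀ (by positivity)]
    have h5 : (b : ℝ) ^ (3 / 2 * (m' : ℝ)) = (b : ℝ) ^ (3 / 2 * (m' : ℝ) - 2 * s) *
        (b : ℝ) ^ (2 * s) := by
      rw [← Real.rpow_natCast (b : ℝ) (2 * s), ← Real.rpow_add hb0]
      congr 1
      push_cast
      ring
    have h6 : (b : ℝ) ^ (3 / 2 * (m' : ℝ) - 2 * s) ≤ D := hDle _ (by linarith)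
    calc (b : ℝ) ^ 2 * |t| ≤ (b : ℝ) ^ 2 * (D * (b : ℝ) ^ (2 * s)) := by
          refine mul_le_mul_of_nonneg_left (ht.trans ?_) (by positivity)
          rw [h5]
          exact mul_le_mul_of_nonneg_right h6 (by positivity)
      _ = (b : ℝ) ^ 2 * D * (b : ℝ) ^ (2 * s) := by ring
  have t2 : K * b / (b : ℝ) ^ s ≤ K * b * D := by
    have h6 : ((b : ℝ) ^ s)⁻¹ ≤ D := by
      rw [← Real.rpow_natCast (b : ℝ) s, ← Real.rpow_neg hb0.le]
      exact hDle _ (by linarith)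
    rw [div_eq_mul_inv]
    exact mul_le_mul_of_nonneg_left h6 (by positivity)
  have t3 : ρ ^ (L / (4 * b)) ≤ 4 * D := by
    refine hpow.trans ?_
    refine mul_le_mul_of_nonneg_left ?_ (by norm_num)
    exact hDle _ (by linarith)
  have t4 : 2 * (b : ℝ) * ρ ^ (L / (4 * b)) ≤ 8 * b * D := by
    have := mul_le_mul_of_nonneg_left t3 (by positivity : (0 : ℝ) ≤ 2 * b)
    linarith
  rw [← hD]
  have hcard : (0 : ℝ) ≤ ((RR b p m ∅).card : ℝ) := Nat.cast_nonneg _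
  have htot : (b : ℝ) ^ 2 * |t| / (b : ℝ) ^ (2 * s) + K * b / (b : ℝ) ^ s +
      (∑ n ∈ Dg b p s, ∏ r ∈ Finset.range L, gB b (th b m m' s a t r n)) / (Dg b p s).card ≤
      ((b : ℝ) ^ 2 + 9 * b) * (1 + K) * D := by
    have h7 := havg.trans t4
    have h8 : (b : ℝ) ^ 2 * D + K * b * D + 8 * b * D ≤ ((b : ℝ) ^ 2 + 9 * b) * (1 + K) * D := by
      have : 0 ≤ K * D := by positivity
      have h9 : 0 ≤ K * D * (b : ℝ) ^ 2 := by positivity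
      have h10 : 0 ≤ K * D * b := by positivity
      have h11 : 0 ≤ D * b := by positivity
      nlinarith
    linarith
  refine h.trans ?_
  have := mul_le_mul_of_nonneg_left htot hcard
  linarith

end Pool.Agent.HPY
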