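import Pool.Agent.HPY.Iface
import Pool.Agent.HPZ.DTop

/-!
# HPY/S2: regime 2 (`Sup2`): as `HPZ/DTop` (or `HPP/DTop`) with a MATCHED block

`SupTopProp` of `HPZ/DTop` has the block `[i, i + l)` free and `χ` mod `b`. Here `F = ∅` and `χ` factors through `b^i`: changing
the digits at the positions `[i, i + l)` (both the low and the top digit) does not change `χ(low)` (`low mod b^i` is
unchanged) and changes `top` exactly as in `DTop`. Replace `putT` by the map which puts the digits of `z` into both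
components of the block; the rest of the proof (average over `z`, spacing of the phases as the digits below `i` vary)
is the same.
-/

namespace Pool.Agent.HPY

open Complex MeasureTheory Pool.Agent.HPZ
open Pool.Agent.HPP (Bp PP Gt lv DD DD_nonneg spaced top_inner rhi ext1 ext2 ext1_fin ext2_fin dg_lt dg_get
  norm_npow_le putT blkT blkT_eq blkT_put chi_congr)

variable {b p m i₀ l : ℕ}

/-- replace both digits at the positions of the block by those of `z` -/
def putM (b i₀ l : ℕ) {m : ℕ} (z : ℕ) (ω : Fin m → ℕ × ℕ) : Fin m → ℕ × ℕ := fun i =>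
  if i₀ ≤ (i : ℕ) ∧ (i : ℕ) < i₀ + l then
    (z / b ^ (i₀ + l - 1 - (i : ℕ)) % b, z / b ^ (i₀ + l - 1 - (i : ℕ)) % b) else ω i

lemma putM_snd (z : ℕ) (ω : Fin m → ℕ × ℕ) (i : Fin m) :
    (putM b i₀ l z ω i).2 = (putT b i₀ l z ω i).2 := by
  unfold putM putT
  split_ifs <;> rfl

lemma topv_putM (z : ℕ) (ω : Fin m → ℕ × ℕ) :
    topv b (putM b i₀ l z ω) = topv b (putT b i₀ l z ω) := by
  unfold topv
  exact Finset.sum_congr rfl fun i _ => by rw [putM_snd]

lemma blkT_putM (z : ℕ) (ω : Fin m → ℕ × ℕ) :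
    blkT b i₀ l (putM b i₀ l z ω) = blkT b i₀ l (putT b i₀ l z ω) := by
  unfold blkT
  exact Finset.sum_congr rfl fun i _ => by rw [putM_snd]

lemma Sd_matched {i : ℕ} (hi : 1 ≤ i) :
    Sd b p ∅ i = (Finset.range b).image fun d => (d, d) := by
  unfold Sd; rw [if_neg (by omega), if_neg (by simp)]

lemma putM_mem (hB : Bas b p) (hi : 1 ≤ i₀) (z : ℕ)
    {ω : Fin m → ℕ × ℕ} (hω : ω ∈ RR b p m ∅) : putM b i₀ l z ω ∈ RR b p m ∅ := by
  rw [mem_RR] at hω ⊢
  intro i
  unfold putM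
  split_ifs with h
  · rw [Sd_matched (by omega)]
    have hb : 0 < b := by have := hB.two; omega
    exact Finset.mem_image.2 ⟨_, Finset.mem_range.2 (Nat.mod_lt _ hb), rfl⟩
  · exact hω i

lemma putM_put (hB : Bas b p) (hi : 1 ≤ i₀) (h : i₀ + l ≤ m) (z : ℕ) {ω : Fin m → ℕ × ℕ}
    (hω : ω ∈ RR b p m ∅) : putM b i₀ l (blkT b i₀ l ω) (putM b i₀ l z ω) = ω := by
  funext i
  by_cases h1 : i₀ ≤ (i : ℕ) ∧ (i : ℕ) < i₀ + l
  · have hb : 0 < b := by have := hB.two; omega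
    have := dg_get hb (fun s => ext2 ω (i₀ + l - 1 - s)) l (fun s _ => ext2_lt hB hω _)
      (i₀ + l - 1 - (i : ℕ)) (by omega)
    have e : i₀ + l - 1 - (i₀ + l - 1 - (i : ℕ)) = i := by omega
    simp only [e, ext2_fin] at this
    have hm := mem_RR.1 hω i
    rw [Sd_matched (by omega)] at hm
    obtain ⟨d, _, hd⟩ := Finset.mem_image.1 hm
    have h12 : (ω i).1 = (ω i).2 := by rw [← hd]
    simp only [putM, h1, and_self, if_true, blkT_eq h]
    ext
    · rw [h12]; exact this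
    · exact this
  · simp [putM, h1]

/-- averaging over the digits of a matched block -/
theorem avgM {M : Type*} [AddCommMonoid M] (hB : Bas b p) (hi : 1 ≤ i₀) (h : i₀ + l ≤ m)
    (f : (Fin m → ℕ × ℕ) → M) :
    ∑ ω ∈ RR b p m ∅, ∑ z ∈ Finset.range (b ^ l), f (putM b i₀ l z ω) =
      b ^ l • ∑ ω ∈ RR b p m ∅, f ω := by
  have e : b ^ l • ∑ ω ∈ RR b p m ∅, f ω =
      ∑ ω ∈ RR b p m ∅, ∑ _z ∈ Finset.range (b ^ l), f ω := by
    simp [Finset.sum_const, Finset.smul_sum]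
  rw [e, ← Finset.sum_product', ← Finset.sum_product']
  refine Finset.sum_nbij' (fun x => (putM b i₀ l x.2 x.1, blkT b i₀ l x.1))
    (fun x => (putM b i₀ l x.2 x.1, blkT b i₀ l x.1)) ?_ ?_ ?_ ?_ ?_
  · rintro ⟨ω, z⟩ hx
    rw [Finset.mem_product, Finset.mem_range] at hx ⊢
    exact ⟨putM_mem hB hi _ hx.1, blkT_lt hB h hx.1⟩
  · rintro ⟨ω, z⟩ hx
    rw [Finset.mem_product, Finset.mem_range] at hx ⊢
    exact ⟨putM_mem hB hi _ hx.1, blkT_lt hB h hx.1⟩
  · rintro ⟨ω, z⟩ hx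
    rw [Finset.mem_product, Finset.mem_range] at hx
    simp only
    rw [putM_put hB hi h _ hx.1, blkT_putM, blkT_put h hx.2]
  · rintro ⟨ω, z⟩ hx
    rw [Finset.mem_product, Finset.mem_range] at hx
    simp only
    rw [putM_put hB hi h _ hx.1, blkT_putM, blkT_put h hx.2]
  · rintro ⟨ω, z⟩ _
    rfl

/-- the low value modulo `b ^ i₀` is unchanged -/
lemma lowv_putM (_h : i₀ + l ≤ m) (z : ℕ) (ω : Fin m → ℕ × ℕ) :
    lowv b (putM b i₀ l z ω) ≡ lowv b ω [MOD b ^ i₀] := by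
  unfold lowv
  refine Nat.ModEq.sum fun i _ => ?_
  by_cases h1 : i₀ ≤ (i : ℕ) ∧ (i : ℕ) < i₀ + l
  · have hd : b ^ i₀ ∣ b ^ (i : ℕ) := pow_dvd_pow b h1.1
    exact ((Nat.modEq_zero_iff_dvd.2 (hd.mul_left _)).trans
      (Nat.modEq_zero_iff_dvd.2 (hd.mul_left _)).symm)
  · have e : putM b i₀ l z ω i = ω i := by simp only [putM, if_neg h1]
    rw [e]

theorem sup2 : Sup2 := by
  refine ⟨14400, by norm_num, ?_⟩
  intro b p m i l V K hB hV hK0 hK hi hil χ h t ht1 ht2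
  have hb : 2 ≤ b := hB.two
  have hb2 : (2 : ℝ) ≤ b := by exact_mod_cast hb
  have hb' : (0 : ℝ) < b := by linarith
  have hm : 1 ≤ m := by omega
  have hpi := Real.pi_pos
  have hpi3 := Real.pi_gt_three
  have hpi4 := Real.pi_lt_four
  have hlogb : 0 ≤ Real.log b := Real.log_nonneg (by linarith)
  have hRR : (0 : ℝ) ≤ (RR b p m ∅).card := Nat.cast_nonneg _
  have hmlog : (1 : ℝ) ≤ m * Real.log b + 1 := by
    have : (0 : ℝ) ≤ m * Real.log b := by positivity
    linarith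
  rcases Nat.eq_zero_or_pos l with hl0 | hl0
  · subst hl0
    have h1 : (1 : ℝ) ≤ 14400 * (1 + K) * (m * Real.log b + 1) * b ^ 3 * ((b : ℝ) ^ 0)⁻¹ := by
      rw [pow_zero, inv_one, mul_one]
      have a1 : (1 : ℝ) ≤ 14400 * (1 + K) := by linarith
      have a2 : (1 : ℝ) ≤ (b : ℝ) ^ 3 := one_le_pow₀ (by linarith)
      calc (1 : ℝ) = 1 * 1 * 1 := by norm_num
        _ ≤ _ := by gcongr
    calc ‖cc b p ∅ V χ t‖ ≤ 1 * (RR b p m ∅).card := by rw [one_mul]; exact dt_cc_le hV t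
      _ ≤ _ := by gcongr
  obtain ⟨l, rfl⟩ : ∃ l', l = l' + 1 := ⟨l - 1, by omega⟩
  have hli : l + 1 ≤ i := by
    by_contra hcon
    have : (b : ℝ) ^ (2 * i) < (b : ℝ) ^ (i + (l + 1)) :=
      pow_lt_pow_right₀ (by linarith) (by omega)
    linarith
  have hj : (i + 1) + l ≤ m := by omega
  set P : ℝ := (p : ℝ) * (b : ℝ) ^ i with hP
  set R : ℝ := 2 * P with hR
  set N : ℝ := (b : ℝ) ^ l with hN
  have hp1 : (1 : ℝ) ≤ p := by exact_mod_cast hB.pos
  have hpb : (p : ℝ) ≤ b := by exact_mod_cast hB.lt.le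
  have hbi : (2 : ℝ) ≤ (b : ℝ) ^ i := by
    calc (2 : ℝ) ≤ b := hb2
      _ = (b : ℝ) ^ 1 := (pow_one _).symm
      _ ≤ (b : ℝ) ^ i := pow_le_pow_right₀ (by linarith) hi
  have hbiP : (b : ℝ) ^ i ≤ P := by rw [hP]; nlinarith
  have hR3 : 3 ≤ R := by rw [hR]; linarith
  have hN1 : 1 ≤ N := one_le_pow₀ (by linarith)
  set β : ℝ := |t| / (2 * Real.pi * N) with hβ
  have hβN : 2 * Real.pi * β * N = |t| := by rw [hβ]; field_simp
  have hβ0 : 0 ≤ β := by rw [hβ]; positivity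
  have ht2P : |t| ≤ P ^ 2 := by
    refine ht2.trans ?_
    rw [mul_comm, pow_mul]
    exact pow_le_pow_left₀ (by positivity) hbiP 2
  have ht1P : P * N ≤ |t| := by
    refine le_trans ?_ ht1
    have : (b : ℝ) ^ (i + (l + 1)) = b * (b : ℝ) ^ i * N := by
      rw [hN, pow_add, pow_succ]; ring
    rw [this, hP]
    gcongr
  -- the sign
  obtain ⟨σ, hσ, hσt⟩ : ∃ σ : ℝ, (σ = 1 ∨ σ = -1) ∧ -t = σ * |t| := by
    rcases le_total 0 t with h0 | h0
    · exact ⟨-1, Or.inr rfl, by rw [abs_of_nonneg h0]; ring⟩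
    · exact ⟨1, Or.inl rfl, by rw [abs_of_nonpos h0]; ring⟩
  have hinner : ∀ ω ∈ RR b p m ∅,
      ‖∑ z ∈ Finset.range (b ^ l), trm b m V χ t (putM b (i + 1) l z ω)‖ ≤
        9 * (1 + K) * DD N (σ * (β / (rhi b (i + 1) ω : ℕ))) := by
    intro ω hω
    obtain ⟨W, hW1, hW2⟩ := topv_split hB hj hω
    have hρ1 := (rhi_bounds hB hm i hω).1
    set ρ := rhi b (i + 1) ω with hρ
    have hρr : P ≤ (ρ : ℝ) := by rw [hP]; exact_mod_cast hρ1
    have hP0 : 0 < P := by linarith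
    have hρ0 : (0 : ℝ) < ρ := by linarith
    set q : ℝ := (b : ℝ) ^ (m - (i + 1) - l) with hq
    set X : ℝ := ρ * (b : ℝ) ^ (m - (i + 1)) with hX
    set B : ℝ := X + W with hB'
    have hq0 : 0 < q := by positivity
    have hX0 : 0 < X := by positivity
    have hNq : N * q = (b : ℝ) ^ (m - (i + 1)) := by
      rw [hN, hq, ← pow_add]; congr 1; omega
    have hM0 : (0 : ℝ) < (b : ℝ) ^ (m - 1) := by positivity
    have hti := top_inner (X := X) (B := B) (q := q) (M := (b : ℝ) ^ (m - 1)) (t := t)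
      (N := b ^ l) hV hK0 hK (Nat.one_le_pow _ _ (by omega)) hX0 hq0 hM0
      (by rw [hB']; linarith [(Nat.cast_nonneg W : (0 : ℝ) ≤ W)])
      (by
        rw [hB']
        have : (W : ℝ) ≤ q := by rw [hq]; exact_mod_cast hW1.le
        linarith)
      (by
        push_cast
        rw [← hN, hNq]
        exact pow_le_pow_right₀ (by linarith) (by omega))
      (by
        push_cast
        rw [← hN, hNq, hX, mul_pow]
        have : |t| ≤ 4 * (ρ : ℝ) ^ 2 := by nlinarith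
        calc |t| * ((b : ℝ) ^ (m - (i + 1))) ^ 2 ≤
              4 * (ρ : ℝ) ^ 2 * ((b : ℝ) ^ (m - (i + 1))) ^ 2 := by gcongr
          _ = _ := by ring)
    have hθ : -(t * q) / (2 * Real.pi * X) = σ * (β / (ρ : ℝ)) := by
      rw [hX, ← hNq, hβ]
      have : -(t * q) = σ * |t| * q := by rw [← hσt]; ring
      rw [this]
      field_simp
    rw [hθ] at hti
    have hNc : ((b ^ l : ℕ) : ℝ) = N := by rw [hN]; push_cast; rfl
    rw [hNc] at hti
    have hsum : ∑ z ∈ Finset.range (b ^ l), trm b m V χ t (putM b (i + 1) l z ω) =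
        (starRingEnd ℂ) (χ (lowv b ω : ZMod (b ^ m))) * ∑ z ∈ Finset.range (b ^ l),
          (V ((B + z * q) / (b : ℝ) ^ (m - 1)) : ℂ) * ((B + z * q : ℝ) : ℂ) ^ (-(t * I)) := by
      rw [Finset.mul_sum]
      refine Finset.sum_congr rfl fun z hz => ?_
      rw [Finset.mem_range] at hz
      unfold trm wt
      rw [chi_congr hb hi h ((lowv_putM hj z ω).of_dvd (pow_dvd_pow b (Nat.le_succ i)))]
      have e : ((topv b (putM b (i + 1) l z ω) : ℕ) : ℝ) = B + z * q := by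
        rw [topv_putM, topv_putT hj hz, hW2, hB', hX, hq]
        push_cast
        ring
      have e2 : ((topv b (putM b (i + 1) l z ω) : ℕ) : ℂ) = ((B + z * q : ℝ) : ℂ) := by
        rw [← e]; simp
      rw [e, e2]
      ring
    rw [hsum, norm_mul, RCLike.norm_conj]
    have h1 : ‖χ (lowv b ω : ZMod (b ^ m))‖ ≤ 1 := DirichletCharacter.norm_le_one _ _
    calc ‖χ (lowv b ω : ZMod (b ^ m))‖ * _ ≤ 1 * _ := by gcongr
      _ ≤ _ := by rw [one_mul]; exact hti
  have hav : N * ‖cc b p ∅ V χ t‖ ≤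
      ∑ ω ∈ RR b p m ∅, 9 * (1 + K) * DD N (σ * (β / (rhi b (i + 1) ω : ℕ))) := by
    have e := avgM (m := m) hB (Nat.succ_le_succ (Nat.zero_le i)) hj
      (fun ω => trm b m V χ t ω)
    rw [← cc_eq, nsmul_eq_mul] at e
    have e2 : N * ‖cc b p ∅ V χ t‖ = ‖((b ^ l : ℕ) : ℂ) * cc b p ∅ V χ t‖ := by
      rw [norm_mul, Complex.norm_natCast, hN]; push_cast; rfl
    rw [e2, ← e]
    exact (norm_sum_le _ _).trans (Finset.sum_le_sum hinner)
  have h9 : (0 : ℝ) ≤ 9 * (1 + K) := by positivity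
  have hfib := sum_fibT (F := ∅) (m := m) (i₀ := i + 1) hB (by omega)
    (fun r => 9 * (1 + K) * DD N (σ * (β / (r : ℕ))))
    (fun r => mul_nonneg h9 (DD_nonneg (by linarith) _))
    ((Finset.range (2 * (p * b ^ i))).filter fun r => 2 * (p * b ^ i) ≤ 2 * r) (by
      intro ω hω
      rw [Finset.mem_filter, Finset.mem_range]
      obtain ⟨hρ1, hρ2⟩ := rhi_bounds hB hm i hω
      have : b ^ i ≤ p * b ^ i := Nat.le_mul_of_pos_left _ hB.pos
      constructor <;> omega)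
  have hlead := sum_lead (n := 2 * (p * b ^ i)) (β := β) (N := N) hσ hR3
    (by rw [hR, hP]; push_cast; rfl) hN1
    (by
      have : P * N ≤ 2 * Real.pi * β * N := by rw [hβN]; exact ht1P
      have := le_of_mul_le_mul_right this (by linarith)
      rw [hR]
      nlinarith)
    (by
      have e1 : β * N ≤ 2 * Real.pi * β * N := by
        have : 0 ≤ β * N := by positivity
        nlinarith
      have e2 : P ^ 2 ≤ R ^ 2 := by rw [hR]; nlinarith [sq_nonneg P]
      linarith)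
    (by
      have : N ≤ (b : ℝ) ^ i := pow_le_pow_right₀ (by linarith) (by omega)
      rw [hR]; linarith)
  have hlogR : Real.log R ≤ (i + 2) * Real.log b := by
    have e1 : R ≤ (b : ℝ) ^ (i + 2) := by
      rw [hR, hP, pow_add]
      calc 2 * ((p : ℝ) * (b : ℝ) ^ i) ≤ b * (b * (b : ℝ) ^ i) := by gcongr
        _ = _ := by ring
    calc Real.log R ≤ Real.log ((b : ℝ) ^ (i + 2)) := Real.log_le_log (by linarith) e1
      _ = _ := by rw [Real.log_pow]; push_cast; ring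
  have hbi0 : (0 : ℝ) < (b : ℝ) ^ (i + 1) := by positivity
  have h5 : ∑ ω ∈ RR b p m ∅, 9 * (1 + K) * DD N (σ * (β / (rhi b (i + 1) ω : ℕ))) ≤
      (RR b p m ∅).card * (9 * (1 + K) * (400 * (2 * b * (2 * (m * Real.log b + 1))))) := by
    have h6 : (∑ ω ∈ RR b p m ∅, 9 * (1 + K) * DD N (σ * (β / (rhi b (i + 1) ω : ℕ)))) *
        (b : ℝ) ^ (i + 1) ≤
        b * (RR b p m ∅).card * (9 * (1 + K) * (400 * (R * (1 + (i + 2) * Real.log b)))) := by
      refine hfib.trans ?_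
      rw [← Finset.mul_sum]
      have e3 : 400 * (R * (1 + Real.log R)) ≤ 400 * (R * (1 + (i + 2) * Real.log b)) := by
        gcongr
      have e4 := hlead.trans e3
      gcongr
    have e5 : R * (1 + (i + 2) * Real.log b) ≤
        2 * b * (b : ℝ) ^ i * (2 * (m * Real.log b + 1)) := by
      have e6 : R ≤ 2 * b * (b : ℝ) ^ i := by rw [hR, hP]; nlinarith
      have e7 : (i : ℝ) + 1 ≤ m := by exact_mod_cast (by omega : i + 1 ≤ m)
      have e8 : 1 + ((i : ℝ) + 2) * Real.log b ≤ 2 * (m * Real.log b + 1) := by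
        have m1 : (1 : ℝ) ≤ m := by exact_mod_cast hm
        nlinarith
      have e9 : (0 : ℝ) ≤ 1 + ((i : ℝ) + 2) * Real.log b := by positivity
      exact mul_le_mul e6 e8 e9 (by positivity)
    have h8 : b * ((RR b p m ∅).card : ℝ) *
        (9 * (1 + K) * (400 * (R * (1 + (i + 2) * Real.log b)))) ≤
        (RR b p m ∅).card * (9 * (1 + K) * (400 * (2 * b * (2 * (m * Real.log b + 1))))) *
          (b : ℝ) ^ (i + 1) := by
      calc b * ((RR b p m ∅).card : ℝ) *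
            (9 * (1 + K) * (400 * (R * (1 + (i + 2) * Real.log b)))) ≤
            b * ((RR b p m ∅).card : ℝ) *
            (9 * (1 + K) * (400 * (2 * b * (b : ℝ) ^ i * (2 * (m * Real.log b + 1))))) := by
              gcongr
        _ = _ := by rw [pow_succ]; ring
    exact le_of_mul_le_mul_right (h6.trans h8) hbi0
  have h10 : N * ‖cc b p ∅ V χ t‖ ≤
      14400 * (1 + K) * (m * Real.log b + 1) * b * (RR b p m ∅).card := by
    refine hav.trans (h5.trans (le_of_eq ?_))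
    ring
  have hN0 : (0 : ℝ) < N := by linarith
  rw [mul_comm, ← le_div_iff₀ hN0] at h10
  refine h10.trans ?_
  have hbl : ((b : ℝ) ^ (l + 1))⁻¹ = (b : ℝ)⁻¹ * N⁻¹ := by
    rw [hN, pow_succ, mul_inv]; ring
  rw [hbl, div_eq_mul_inv]
  have e1 : (b : ℝ) ≤ (b : ℝ) ^ 3 * (b : ℝ)⁻¹ := by
    have : (b : ℝ) ^ 3 * (b : ℝ)⁻¹ = (b : ℝ) ^ 2 := by field_simp
    rw [this]; nlinarith
  calc 14400 * (1 + K) * (m * Real.log b + 1) * b * (RR b p m ∅).card * N⁻¹
      = b * (14400 * (1 + K) * (m * Real.log b + 1) * (RR b p m ∅).card * N⁻¹) := by ring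
    _ ≤ (b : ℝ) ^ 3 * (b : ℝ)⁻¹ *
        (14400 * (1 + K) * (m * Real.log b + 1) * (RR b p m ∅).card * N⁻¹) := by gcongr
    _ = _ := by ring

end Pool.Agent.HPY
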