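import Pool.Agent.HPY.SDefs
import Pool.Agent.HPX.SBas

/-!
# HPY/SAvg: the average (`SAvgN`)

Let `g = gcd (a, b^L)`, `D = b^L / g`. `b ∤ a` gives a prime `q ∣ b` with `v_q(a) < v_q(b)`, so `v_q(D) ≥ (L-1) v_q(b) + 1 ≥ L` and
`D ≥ q^L ≥ 2^L ≥ b^(4B)` (`b ≤ 2^b`, `4 b B ≤ L`). Let `w(n) = a (iv b m n) mod b^L` (the condition only depends on it:
`(v / b^(L - 4(j+1))) % b^4` depends on `v mod b^L` as `4 (j+1) ≤ 4 B ≤ L`). `g ∣ w(n)`, and `w(n)` determines `n mod D`: from
`a u ≡ a u' mod b^L`, `D ∣ u - u'`, multiply by `n n'` (`u n ≡ 1 mod b^m`, `b^s`, `D ∣ b^L ∣ b^s`): `D ∣ n - n'`. So each value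
is taken by at most `b^s / D` numbers `n < b^s`. For `N < b^(4B)` the number of multiples of `g` in `[N b^(L-4B), (N+1) b^(L-4B))`
is `≤ b^(L-4B) / g + 1 = D / b^(4B) + 1 ≤ 2 D / b^(4B)`. So each `N = ⌊w(n) / b^(L-4B)⌋` is taken at most `2 b^s / b^(4B)` times.
The blocks `j < B` are the base-`b^4` digits of `N` (`w / b^(L-4(j+1)) = N / b^(4(B-j-1))`), and
`∑_(N < b^(4B)) ∏_j F(digit j) = (∑_(e < b^4) F(e))^B = (b^4 - c)^B` (induction on `B`; `e₀ < b^4`).
-/

namespace Pool.Agent.HPY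

open Complex MeasureTheory Pool.Agent.HPZ
open Pool.Agent.HPP (Bp PP Gt lv)

open Pool.Agent.HPX (Ds dg yv iv nd th)

/-- `b ∤ a`, `b ^ L ∣ a x`, `x > 0` imply `2 ^ L ≤ x` -/
private theorem two_pow_le83 (b : ℕ) (hb : 2 ≤ b) : ∀ (L a x : ℕ), ¬ b ∣ a → 0 < x → b ^ L ∣ a * x →
    2 ^ L ≤ x := by
  intro L
  induction L with
  | zero => intro a x _ hx _; rw [pow_zero]; exact hx
  | succ L ih =>
    intro a x ha hx hd
    set d := Nat.gcd a b with hd0
    have hb0 : 0 < b := by omega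
    have hdp : 0 < d := Nat.gcd_pos_of_pos_right a hb0
    obtain ⟨a', ha'⟩ : d ∣ a := Nat.gcd_dvd_left a b
    obtain ⟨b', hb'⟩ : d ∣ b := Nat.gcd_dvd_right a b
    have hcop : Nat.Coprime a' b' := by
      have := Nat.coprime_div_gcd_div_gcd (m := a) (n := b) hdp
      rw [← hd0] at this
      have e1 : a / d = a' := by rw [ha', Nat.mul_div_cancel_left _ hdp]
      have e2 : b / d = b' := by rw [hb', Nat.mul_div_cancel_left _ hdp]
      rwa [e1, e2] at this
    have hb'2 : 2 ≤ b' := by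
      by_contra hc
      have : b' = 0 ∨ b' = 1 := by omega
      rcases this with h | h
      · rw [h, mul_zero] at hb'; omega
      · apply ha
        rw [h, mul_one] at hb'
        rw [hb']
        exact ⟨a', ha'⟩
    -- divide by d
    have h1 : b' * b ^ L ∣ a' * x := by
      have e1 : b ^ (L + 1) = d * (b' * b ^ L) := by
        rw [pow_succ]
        conv_lhs => rw [mul_comm]; enter [1]; rw [hb']
        ring
      have e2 : a * x = d * (a' * x) := by
        conv_lhs => rw [ha']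
        ring
      rw [e1, e2] at hd
      exact Nat.dvd_of_mul_dvd_mul_left hdp hd
    have h2 : b' ∣ x := hcop.symm.dvd_of_dvd_mul_left ((Dvd.intro _ rfl).trans h1)
    obtain ⟨x', hx'⟩ := h2
    have h3 : b ^ L ∣ a' * x' := by
      have e : a' * x = b' * (a' * x') := by rw [hx']; ring
      rw [e] at h1
      exact Nat.dvd_of_mul_dvd_mul_left (by omega) h1
    have hx0 : 0 < x' := by
      rcases Nat.eq_zero_or_pos x' with h | h
      · rw [h, mul_zero] at hx'; omega
      · exact h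
    have ha2 : ¬ b ∣ a' := fun h => ha (h.trans ⟨d, by rw [ha', mul_comm]⟩)
    have h4 := ih a' x' ha2 hx0 h3
    rw [hx', pow_succ, mul_comm]
    exact Nat.mul_le_mul hb'2 h4

/-- the blocks only depend on the residue, and are the digits of the leading part -/
private theorem block83 (b L B v j : ℕ) (hb : 2 ≤ b) (hB : 4 * B ≤ L) (hj : j < B) :
    (v / b ^ (L - 4 * (j + 1))) % b ^ 4 =
      (((v % b ^ L) / b ^ (L - 4 * B)) / (b ^ 4) ^ (B - 1 - j)) % b ^ 4 := by
  have hb0 : 0 < b := by omega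
  have e1 : L - 4 * (j + 1) = (L - 4 * B) + 4 * (B - 1 - j) := by omega
  rw [Nat.div_div_eq_div_mul, ← pow_mul, ← pow_add, ← e1]
  set k := L - 4 * (j + 1) with hk
  have e2 : b ^ L = b ^ k * (b ^ 4 * b ^ (L - k - 4)) := by
    rw [← pow_add, ← pow_add]
    congr 1
    omega
  conv_lhs => rw [← Nat.mod_add_div v (b ^ L)]
  have e3 : v % b ^ L + b ^ L * (v / b ^ L) =
      v % b ^ L + b ^ k * (b ^ 4 * (b ^ (L - k - 4) * (v / b ^ L))) := by
    conv_lhs => enter [2, 1]; rw [e2]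
    ring
  rw [e3, Nat.add_mul_div_left _ _ (by positivity), Nat.add_mul_mod_self_left]

private theorem Ds_range83 (q B : ℕ) : Ds q (fun _ => Finset.range q) B = Finset.range (q ^ B) := by
  have h1 : ∀ _ : ℕ, Finset.range q ⊆ Finset.range q := fun _ => Finset.Subset.refl _
  apply Finset.eq_of_subset_of_card_le
  · intro n hn
    exact Finset.mem_range.2 (HPX.Ds_lt h1 hn)
  · rw [HPX.card_Ds h1]
    simp

private theorem sum_prod83 (q B : ℕ) (f : ℕ → ℝ) :
    ∑ N ∈ Finset.range (q ^ B), ∏ j ∈ Finset.range B, f (N / q ^ (B - 1 - j) % q) =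
      (∑ e ∈ Finset.range q, f e) ^ B := by
  have h1 : ∀ _ : ℕ, Finset.range q ⊆ Finset.range q := fun _ => Finset.Subset.refl _
  have h2 := HPX.prod_Ds (L := B) h1 (fun _ e => f e)
  rw [Ds_range83, Finset.prod_const, Finset.card_range] at h2
  rw [← h2]
  refine Finset.sum_congr rfl fun N _ => ?_
  exact Finset.prod_range_reflect (fun j => f (N / q ^ j % q)) B

/-- each leading part is taken at most `2 b^s / b^(4B)` times -/
private theorem count83 (b m s L B a N : ℕ) (hb : 2 ≤ b) (hLs : L ≤ s) (hsm : s ≤ m)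
    (hB : 4 * b * B ≤ L) (ha : ¬ b ∣ a) :
    b ^ (4 * B) * (((Finset.range (b ^ s)).filter (fun n => n.Coprime b)).filter
      (fun n => ((a * iv b m n) % b ^ L) / b ^ (L - 4 * B) = N)).card ≤ 2 * b ^ s := by
  have hb0 : 0 < b := by omega
  have hBL : 4 * B ≤ L := by
    have : 4 * 1 * B ≤ 4 * b * B := Nat.mul_le_mul_right _ (Nat.mul_le_mul_left _ (by omega))
    omega
  set g := Nat.gcd (b ^ L) a with hg
  have hbL : 0 < b ^ L := by positivity
  have hgp : 0 < g := Nat.gcd_pos_of_pos_left a hbL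
  obtain ⟨D, hD⟩ : g ∣ b ^ L := Nat.gcd_dvd_left _ _
  have hDdiv : b ^ L / g = D := by rw [hD, Nat.mul_div_cancel_left _ hgp]
  have hDp : 0 < D := by
    rcases Nat.eq_zero_or_pos D with h | h
    · rw [h, mul_zero] at hD; omega
    · exact h
  have hDb : D ∣ b ^ L := ⟨g, by rw [hD, mul_comm]⟩
  obtain ⟨M, hM⟩ : D ∣ b ^ s := hDb.trans (pow_dvd_pow b hLs)
  have hDm : D ∣ b ^ m := hDb.trans (pow_dvd_pow b (hLs.trans hsm))
  -- size of D
  have hDbig : b ^ (4 * B) ≤ D := by
    have h1 : 2 ^ L ≤ D := by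
      apply two_pow_le83 b hb L a D ha hDp
      obtain ⟨a', ha'⟩ : g ∣ a := Nat.gcd_dvd_right _ _
      refine ⟨a', ?_⟩
      conv_lhs => rw [ha']
      rw [hD]; ring
    calc b ^ (4 * B) ≤ (2 ^ b) ^ (4 * B) := Nat.pow_le_pow_left (Nat.lt_two_pow_self).le _
      _ = 2 ^ (4 * b * B) := by rw [← pow_mul]; congr 1; ring
      _ ≤ 2 ^ L := Nat.pow_le_pow_right (by norm_num) hB
      _ ≤ D := h1
  set ℓ := b ^ (L - 4 * B) with hℓ
  have hℓp : 0 < ℓ := by positivity
  have hℓL : b ^ (4 * B) * ℓ = b ^ L := by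
    rw [hℓ, ← pow_add]; congr 1; omega
  set S := ((Finset.range (b ^ s)).filter (fun n => n.Coprime b)).filter
      (fun n => ((a * iv b m n) % b ^ L) / ℓ = N) with hS
  set k0 := (N * ℓ + (g - 1)) / g with hk0
  set K := Finset.Ico k0 (k0 + (ℓ / g + 1)) with hK
  -- injection
  have hcard : S.card ≤ (K ×ˢ Finset.range M).card := by
    refine Finset.card_le_card_of_injOn (fun n => (((a * iv b m n) % b ^ L) / g, n / D)) ?_ ?_
    · intro n hn
      rw [Finset.mem_coe, hS, Finset.mem_filter, Finset.mem_filter, Finset.mem_range] at hn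
      obtain ⟨⟨hn1, hn2⟩, hn3⟩ := hn
      set W := (a * iv b m n) % b ^ L with hW
      have hgW : g ∣ W := by
        have h1 : g ∣ a * iv b m n := (Nat.gcd_dvd_right _ _).mul_right _
        exact (Nat.dvd_mod_iff (Nat.gcd_dvd_left _ _)).2 h1
      obtain ⟨k, hk⟩ := hgW
      have hWk : W / g = k := by rw [hk, Nat.mul_div_cancel_left _ hgp]
      have hlo : N * ℓ ≤ g * k := by
        rw [← hk, ← hn3]; exact Nat.div_mul_le_self _ _
      have hhi : g * k < N * ℓ + ℓ := by
        rw [← hk, ← hn3]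
        have := Nat.lt_div_mul_add (a := W) hℓp
        exact this
      have hk0le : k0 ≤ k := by
        rw [hk0, Nat.div_le_iff_le_mul_add_pred hgp]
        omega
      have hk0ge : N * ℓ ≤ g * k0 := by
        rw [hk0]
        have := Nat.lt_div_mul_add (a := N * ℓ + (g - 1)) hgp
        have e : (N * ℓ + (g - 1)) / g * g = g * ((N * ℓ + (g - 1)) / g) := mul_comm _ _
        omega
      have hkhi : k - k0 ≤ ℓ / g := by
        rw [Nat.le_div_iff_mul_le hgp]
        obtain ⟨r, hr⟩ := Nat.exists_eq_add_of_le hk0le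
        rw [hr, Nat.add_sub_cancel_left]
        rw [hr, Nat.mul_add] at hhi
        have e : r * g = g * r := mul_comm _ _
        omega
      simp only [Finset.coe_product, Set.mem_prod, Finset.mem_coe, Finset.mem_range]
      refine ⟨?_, ?_⟩
      · rw [hWk, hK, Finset.mem_Ico]
        omega
      · rw [Nat.div_lt_iff_lt_mul hDp, mul_comm, ← hM]
        exact hn1
    · intro n hn n' hn' he
      rw [Finset.mem_coe, hS, Finset.mem_filter, Finset.mem_filter, Finset.mem_range] at hn hn'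
      obtain ⟨⟨hn1, hn2⟩, -⟩ := hn
      obtain ⟨⟨hn1', hn2'⟩, -⟩ := hn'
      obtain ⟨he1, he2⟩ := Prod.mk.inj he
      have hgW : ∀ u : ℕ, g ∣ (a * u) % b ^ L := fun u =>
        (Nat.dvd_mod_iff (Nat.gcd_dvd_left _ _)).2 ((Nat.gcd_dvd_right _ _).mul_right _)
      have hWW : (a * iv b m n) % b ^ L = (a * iv b m n') % b ^ L := by
        rw [← Nat.div_mul_cancel (hgW (iv b m n)), ← Nat.div_mul_cancel (hgW (iv b m n')), he1]
      have hu : iv b m n ≡ iv b m n' [MOD D] := by
        have h1 : a * iv b m n ≡ a * iv b m n' [MOD b ^ L] := hWW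
        have h2 := Nat.ModEq.cancel_left_div_gcd hbL h1
        rwa [← hg, hDdiv] at h2
      have i1 : iv b m n * n ≡ 1 [MOD D] := (HPX.iv_mul hb0 hn2).of_dvd hDm
      have i2 : iv b m n' * n' ≡ 1 [MOD D] := (HPX.iv_mul hb0 hn2').of_dvd hDm
      have hnn : n ≡ n' [MOD D] := by
        calc n = n * 1 := (mul_one _).symm
          _ ≡ n * (iv b m n' * n') [MOD D] := Nat.ModEq.mul_left _ i2.symm
          _ = (n * n') * iv b m n' := by ring
          _ ≡ (n * n') * iv b m n [MOD D] := Nat.ModEq.mul_left _ hu.symm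
          _ = (iv b m n * n) * n' := by ring
          _ ≡ 1 * n' [MOD D] := Nat.ModEq.mul_right _ i1
          _ = n' := one_mul _
      have : n % D = n' % D := hnn
      rw [← Nat.mod_add_div n D, ← Nat.mod_add_div n' D, this, he2]
  have hKc : b ^ (4 * B) * K.card ≤ 2 * D := by
    have e : K.card = ℓ / g + 1 := by
      rw [hK, Nat.card_Ico]; exact Nat.add_sub_cancel_left _ _
    rw [e, Nat.mul_add, mul_one]
    have h1 : b ^ (4 * B) * (ℓ / g) ≤ D := by
      apply Nat.le_of_mul_le_mul_left _ hgp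
      calc g * (b ^ (4 * B) * (ℓ / g)) = b ^ (4 * B) * (ℓ / g * g) := by ring
        _ ≤ b ^ (4 * B) * ℓ := Nat.mul_le_mul_left _ (Nat.div_mul_le_self _ _)
        _ = g * D := by rw [hℓL, hD]
    omega
  rw [Finset.card_product, Finset.card_range] at hcard
  calc b ^ (4 * B) * S.card ≤ b ^ (4 * B) * (K.card * M) := Nat.mul_le_mul_left _ hcard
    _ = (b ^ (4 * B) * K.card) * M := by ring
    _ ≤ 2 * D * M := Nat.mul_le_mul_right _ hKc
    _ = 2 * b ^ s := by rw [hM]; ring

theorem sAvgN : SAvgN := by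
  intro b m s L B a c hb hc0 hc1 hL hLs hsm hB ha
  have hb0 : 0 < b := by omega
  have hBL : 4 * B ≤ L := by
    have : 4 * 1 * B ≤ 4 * b * B := Nat.mul_le_mul_right _ (Nat.mul_le_mul_left _ (by omega))
    omega
  set f : ℕ → ℝ := fun e => if e = e0 b then 1 - c else 1 with hf
  have hf0 : ∀ e, 0 ≤ f e := by
    intro e
    rw [hf]
    simp only
    split_ifs <;> linarith
  set G : ℕ → ℝ := fun N => ∏ j ∈ Finset.range B, f (N / (b ^ 4) ^ (B - 1 - j) % b ^ 4) with hG
  have hG0 : ∀ N, 0 ≤ G N := fun N => Finset.prod_nonneg fun j _ => hf0 _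
  set Nn : ℕ → ℕ := fun n => ((a * iv b m n) % b ^ L) / b ^ (L - 4 * B) with hNn
  set S := (Finset.range (b ^ s)).filter (fun n => n.Coprime b) with hS
  have hq : (b ^ 4) ^ B = b ^ (4 * B) := by rw [← pow_mul]
  have e1 : ∑ n ∈ S, ∏ j ∈ Finset.range B,
      (if ((a * iv b m n) / b ^ (L - 4 * (j + 1))) % b ^ 4 = e0 b then 1 - c else 1) =
      ∑ n ∈ S, G (Nn n) := by
    refine Finset.sum_congr rfl fun n _ => Finset.prod_congr rfl fun j hj => ?_
    rw [block83 b L B _ j hb hBL (Finset.mem_range.1 hj)]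
  have hmaps : ∀ n ∈ S, Nn n ∈ Finset.range (b ^ (4 * B)) := by
    intro n _
    rw [Finset.mem_range, hNn]
    simp only
    rw [Nat.div_lt_iff_lt_mul (by positivity), ← pow_add]
    have : 4 * B + (L - 4 * B) = L := by omega
    rw [this]
    exact Nat.mod_lt _ (by positivity)
  rw [e1, ← Finset.sum_fiberwise_of_maps_to hmaps]
  have hbB : (0 : ℝ) < (b : ℝ) ^ (4 * B) := by positivity
  have h2 : ∀ N ∈ Finset.range (b ^ (4 * B)), ∑ n ∈ S.filter (fun n => Nn n = N), G (Nn n) ≤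
      (2 * (b : ℝ) ^ s / (b : ℝ) ^ (4 * B)) * G N := by
    intro N _
    have h3 : ∑ n ∈ S.filter (fun n => Nn n = N), G (Nn n) =
        ((S.filter (fun n => Nn n = N)).card : ℝ) * G N := by
      rw [← nsmul_eq_mul, ← Finset.sum_const]
      refine Finset.sum_congr rfl fun n hn => ?_
      rw [(Finset.mem_filter.1 hn).2]
    rw [h3]
    refine mul_le_mul_of_nonneg_right ?_ (hG0 N)
    rw [le_div_iff₀ hbB]
    have h4 := count83 b m s L B a N hb hLs hsm hB ha
    have h5 : ((b : ℝ) ^ (4 * B)) * ((S.filter (fun n => Nn n = N)).card : ℝ) ≤ 2 * (b : ℝ) ^ s := by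
      exact_mod_cast h4
    linarith
  refine (Finset.sum_le_sum h2).trans ?_
  rw [← Finset.mul_sum, ← hq, sum_prod83 (b ^ 4) B f]
  have he0 : e0 b < b ^ 4 := by
    unfold e0
    apply Nat.div_lt_self (by positivity)
    have : 4 ≤ b ^ 2 := by nlinarith
    omega
  have h6 : ∑ e ∈ Finset.range (b ^ 4), f e = (b : ℝ) ^ 4 - c := by
    have e2 : ∀ e ∈ Finset.range (b ^ 4), f e = 1 - (if e = e0 b then c else 0) := by
      intro e _
      rw [hf]
      simp only
      split_ifs <;> ring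
    rw [Finset.sum_congr rfl e2, Finset.sum_sub_distrib, Finset.sum_ite_eq' (Finset.range (b ^ 4)),
      if_pos (Finset.mem_range.2 he0)]
    simp
  rw [h6]
  have hb4 : (0 : ℝ) < (b : ℝ) ^ 4 := by positivity
  refine le_of_eq ?_
  have h7 : (1 - c / (b : ℝ) ^ 4) ^ B = ((b : ℝ) ^ 4 - c) ^ B / (b : ℝ) ^ (4 * B) := by
    rw [pow_mul, ← div_pow]
    congr 1
    field_simp
  rw [h7]
  ring

end Pool.Agent.HPY
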