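import Pool.Agent.HPY.Iface
import Pool.Agent.HPZ.APP

set_option autoImplicit false

/-!
# HPY/SFin: `SupN` from `Sup1`, `Sup2`

`M = max (b^m') |t|`. If `M ≤ b^40`: trivial (`cc_le`), `C ≥ b^(40 δ)`. Else if `|t| ≤ b^(3m'/2)` then `m' ≥ 16` and `Sup1`
gives `b^(-δ₁ m') ≤ M^(-2δ₁/3)`. Else `|t| > b^(3m'/2)`, `|t| ≥ b^40`; `n = ⌊log_b |t|⌋`: `b^n ≤ |t| < b^(n+1)`, `n ≥ 40`, `n ≤ m + m/8`,
`3 m'/2 < n + 1`; `i = max m' ((n + 2) / 2)` (so `|t| ≤ b^(2i)`), `l = min (n - i) (m - i)`; `i ≤ 2n/3 + 1`, `m ≥ 8n/9 - 1`, so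
`l ≥ 2n/9 - 3 ≥ n/10`. `Sup2`: `≤ C (1+K) (m log b + 1) b³ b^(-l) ≤ C' (1+K) m M^(-1/10)`.
-/

namespace Pool.Agent.HPY

open Complex MeasureTheory Pool.Agent.HPZ
open Pool.Agent.HPP (Bp PP Gt lv)

theorem supN (h1 : Sup1) (h2 : Sup2) : SupN := by
  intro b hb
  obtain ⟨C₁, δ₁, hC1, hδ1, H1⟩ := h1 b hb
  obtain ⟨C₂, hC2, H2⟩ := h2
  have hbR : (2 : ℝ) ≤ b := by exact_mod_cast hb
  have hb1 : (1 : ℝ) ≤ b := by linarith
  have hb1' : (1 : ℝ) < b := by linarith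
  have hb0 : (0 : ℝ) < b := by linarith
  have hlog : 0 ≤ Real.log b := Real.log_nonneg hb1
  set δ : ℝ := min (2 * δ₁ / 3) (1 / 10) with hδ
  have hδ0 : 0 < δ := lt_min (by linarith) (by norm_num)
  have hδ10 : δ ≤ 1 / 10 := min_le_right _ _
  have hδδ : δ ≤ 2 * δ₁ / 3 := min_le_left _ _
  set C : ℝ := (b : ℝ) ^ 40 + C₁ + C₂ * (Real.log b + 1) * (b : ℝ) ^ 3 with hC
  have hb40 : (1 : ℝ) ≤ (b : ℝ) ^ 40 := one_le_pow₀ hb1
  have hX : 0 ≤ C₂ * (Real.log b + 1) * (b : ℝ) ^ 3 := by positivity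
  refine ⟨C, δ, by linarith, hδ0, hδ10, ?_⟩
  intro p m m' V K hB hV hK hL hm' hmm χ hf hnf t ht
  have hm1 : 1 ≤ m := hm'.trans hmm
  have hmR : (1 : ℝ) ≤ m := by exact_mod_cast hm1
  set M : ℝ := max ((b : ℝ) ^ m') |t| with hM
  have hbm' : (1 : ℝ) ≤ (b : ℝ) ^ m' := one_le_pow₀ hb1
  have hM1 : 1 ≤ M := hbm'.trans (le_max_left _ _)
  have hM0 : 0 < M := by linarith
  have hMδ : 0 ≤ M ^ (-δ) := Real.rpow_nonneg hM0.le _
  set R : ℝ := ((RR b p m ∅).card : ℝ) with hR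
  have hR0 : 0 ≤ R := Nat.cast_nonneg _
  have hgen : ∀ c : ℝ, 0 ≤ c → c ≤ C → ∀ y : ℝ, 0 ≤ y → y ≤ m * M ^ (-δ) →
      c * (1 + K) * y * R ≤ C * (1 + K) * m * M ^ (-δ) * R := by
    intro c hc0 hc y hy0 hy
    refine mul_le_mul_of_nonneg_right ?_ hR0
    calc c * (1 + K) * y ≤ C * (1 + K) * (m * M ^ (-δ)) := by
          refine mul_le_mul ?_ hy hy0 (by positivity)
          exact mul_le_mul_of_nonneg_right hc (by linarith)
      _ = _ := by ring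
  have hmM : M ^ (-δ) ≤ m * M ^ (-δ) := le_mul_of_one_le_left hMδ hmR
  by_cases hM40 : M ≤ (b : ℝ) ^ 40
  · have h3 := cc_le hB hm1 ∅ hV χ t
    have h4 : 1 ≤ (b : ℝ) ^ 40 * M ^ (-δ) := by
      have h5 : ((b : ℝ) ^ 40)⁻¹ ≤ M ^ (-δ) := by
        calc ((b : ℝ) ^ 40)⁻¹ ≤ M⁻¹ := inv_anti₀ hM0 hM40
          _ = M ^ (-1 : ℝ) := (Real.rpow_neg_one M).symm
          _ ≤ M ^ (-δ) := Real.rpow_le_rpow_of_exponent_le hM1 (by linarith)
      calc (1 : ℝ) = (b : ℝ) ^ 40 * ((b : ℝ) ^ 40)⁻¹ := (mul_inv_cancel₀ (by positivity)).symm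
        _ ≤ _ := mul_le_mul_of_nonneg_left h5 (by positivity)
    have h6 := hgen ((b : ℝ) ^ 40) (by positivity) (by linarith) (M ^ (-δ)) hMδ hmM
    refine h3.trans (le_trans ?_ h6)
    have h7 : 1 ≤ (b : ℝ) ^ 40 * (1 + K) * M ^ (-δ) := by
      calc (1 : ℝ) ≤ (b : ℝ) ^ 40 * M ^ (-δ) := h4
        _ = (b : ℝ) ^ 40 * 1 * M ^ (-δ) := by ring
        _ ≤ (b : ℝ) ^ 40 * (1 + K) * M ^ (-δ) := by
          refine mul_le_mul_of_nonneg_right ?_ hMδ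
          exact mul_le_mul_of_nonneg_left (by linarith) (by positivity)
    exact le_mul_of_one_le_left hR0 h7
  rw [not_le] at hM40
  by_cases ht1 : |t| ≤ (b : ℝ) ^ (3 / 2 * (m' : ℝ))
  · have hMle : M ≤ (b : ℝ) ^ (3 / 2 * (m' : ℝ)) := by
      refine max_le ?_ ht1
      rw [← Real.rpow_natCast]
      refine Real.rpow_le_rpow_of_exponent_le hb1 ?_
      have : (0 : ℝ) ≤ m' := Nat.cast_nonneg _
      linarith
    have h16 : 16 ≤ m' := by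
      by_contra hcon
      have h5 : (m' : ℝ) ≤ 15 := by exact_mod_cast (by omega : m' ≤ 15)
      have h6 : (b : ℝ) ^ (3 / 2 * (m' : ℝ)) ≤ (b : ℝ) ^ (40 : ℝ) :=
        Real.rpow_le_rpow_of_exponent_le hb1 (by linarith)
      have h7 : (b : ℝ) ^ (40 : ℝ) = (b : ℝ) ^ 40 := by
        rw [← Real.rpow_natCast]; norm_num
      rw [h7] at h6
      linarith
    have h5 := H1 p m m' V K hB hV hK hL h16 hmm χ hf (hnf (by omega)) t ht1
    have h6 : (b : ℝ) ^ (-(δ₁ * m')) ≤ M ^ (-δ) := by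
      calc (b : ℝ) ^ (-(δ₁ * m')) = ((b : ℝ) ^ (3 / 2 * (m' : ℝ))) ^ (-(2 * δ₁ / 3)) := by
            rw [← Real.rpow_mul hb0.le]; congr 1; ring
        _ ≤ M ^ (-(2 * δ₁ / 3)) :=
            Real.rpow_le_rpow_of_nonpos hM0 hMle (by linarith)
        _ ≤ M ^ (-δ) := Real.rpow_le_rpow_of_exponent_le hM1 (by linarith)
    exact h5.trans (hgen C₁ (by linarith) (by linarith) _ (by positivity) (h6.trans hmM))
  rw [not_le] at ht1
  have hbt : (b : ℝ) ^ m' ≤ |t| := by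
    refine le_trans ?_ ht1.le
    rw [← Real.rpow_natCast]
    refine Real.rpow_le_rpow_of_exponent_le hb1 ?_
    have : (0 : ℝ) ≤ m' := Nat.cast_nonneg _
    linarith
  have hMt : M = |t| := max_eq_right hbt
  have ht1' : 1 ≤ |t| := hMt ▸ hM1
  obtain ⟨n, hn1, hn2⟩ := exists_nat_pow_near ht1' hb1'
  have h40 : 40 ≤ n := by
    by_contra hcon
    have h5 : (b : ℝ) ^ (n + 1) ≤ (b : ℝ) ^ 40 := pow_le_pow_right₀ hb1 (by omega)
    rw [hMt] at hM40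
    linarith
  have hnm : n ≤ m + m / 8 := by
    have h5 : (b : ℝ) ^ n ≤ (b : ℝ) ^ (m + m / 8) := hn1.trans ht
    exact (pow_le_pow_iff_right₀ hb1').1 h5
  have hm3 : 3 * m' ≤ 2 * n + 1 := by
    have h5 : (b : ℝ) ^ (3 / 2 * (m' : ℝ)) < (b : ℝ) ^ ((n : ℝ) + 1) := by
      refine ht1.trans (hn2.trans_eq ?_)
      rw [← Real.rpow_natCast]; push_cast; rfl
    have h6 : 3 / 2 * (m' : ℝ) < (n : ℝ) + 1 := (Real.rpow_lt_rpow_left_iff hb1').1 h5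
    have h7 : 3 * (m' : ℝ) < 2 * (n : ℝ) + 2 := by linarith
    have h8 : 3 * m' < 2 * n + 2 := by exact_mod_cast h7
    omega
  obtain ⟨i, hi⟩ : ∃ i, i = max m' ((n + 2) / 2) := ⟨_, rfl⟩
  obtain ⟨l, hl⟩ : ∃ l, l = min (n - i) (m - i) := ⟨_, rfl⟩
  have hi1 : m' ≤ i := hi ▸ le_max_left _ _
  have hi2 : (n + 2) / 2 ≤ i := hi ▸ le_max_right _ _
  have hi3 : i = m' ∨ i = (n + 2) / 2 := by rw [hi]; exact max_choice _ _
  have hl1 : l ≤ n - i := hl ▸ min_le_left _ _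
  have hl2 : l ≤ m - i := hl ▸ min_le_right _ _
  have hl3 : l = n - i ∨ l = m - i := by rw [hl]; exact min_choice _ _
  have him : i ≤ m := by rcases hi3 with h | h <;> omega
  have hin : i ≤ n := by rcases hi3 with h | h <;> omega
  have hl10 : n + 1 ≤ 10 * l := by
    rcases hi3 with h | h <;> rcases hl3 with h' | h' <;> omega
  have : NeZero (b ^ m) := ⟨pow_ne_zero _ (by omega)⟩
  have hfi : χ.FactorsThrough (b ^ i) :=
    DirichletCharacter.FactorsThrough.mono χ hf (pow_dvd_pow _ hi1) (pow_dvd_pow _ him)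
  have h5 := H2 b p m i l V K hB hV hK hL (by omega) (by omega) χ hfi t
    (le_trans (pow_le_pow_right₀ hb1 (by omega)) hn1)
    (hn2.le.trans (pow_le_pow_right₀ hb1 (by omega)))
  have h6 : ((b : ℝ) ^ l)⁻¹ ≤ M ^ (-δ) := by
    have h7 : |t| ^ (1 / 10 : ℝ) ≤ (b : ℝ) ^ l := by
      calc |t| ^ (1 / 10 : ℝ) ≤ ((b : ℝ) ^ (n + 1)) ^ (1 / 10 : ℝ) :=
            Real.rpow_le_rpow (abs_nonneg _) hn2.le (by norm_num)
        _ = (b : ℝ) ^ (((n + 1 : ℕ) : ℝ) * (1 / 10)) := by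
            rw [← Real.rpow_natCast, ← Real.rpow_mul hb0.le]
        _ ≤ (b : ℝ) ^ (l : ℝ) := by
            refine Real.rpow_le_rpow_of_exponent_le hb1 ?_
            have : ((n + 1 : ℕ) : ℝ) ≤ ((10 * l : ℕ) : ℝ) := by exact_mod_cast hl10
            push_cast at this ⊢
            linarith
        _ = (b : ℝ) ^ l := Real.rpow_natCast _ _
    calc ((b : ℝ) ^ l)⁻¹ ≤ (|t| ^ (1 / 10 : ℝ))⁻¹ := inv_anti₀ (by positivity) h7
      _ = |t| ^ (-(1 / 10) : ℝ) := (Real.rpow_neg (abs_nonneg _) _).symm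
      _ ≤ |t| ^ (-δ) := Real.rpow_le_rpow_of_exponent_le ht1' (by linarith)
      _ = M ^ (-δ) := by rw [hMt]
  have h8 : (m : ℝ) * Real.log b + 1 ≤ m * (Real.log b + 1) := by nlinarith
  have h9 := hgen (C₂ * (Real.log b + 1) * (b : ℝ) ^ 3) hX (by linarith)
    (m * ((b : ℝ) ^ l)⁻¹) (by positivity) (mul_le_mul_of_nonneg_left h6 (by linarith))
  refine h5.trans (le_trans ?_ h9)
  have h10 : 0 ≤ C₂ * (1 + K) * (b : ℝ) ^ 3 * ((b : ℝ) ^ l)⁻¹ * R := by positivity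
  calc C₂ * (1 + K) * (m * Real.log b + 1) * (b : ℝ) ^ 3 * ((b : ℝ) ^ l)⁻¹ * R
      = (m * Real.log b + 1) * (C₂ * (1 + K) * (b : ℝ) ^ 3 * ((b : ℝ) ^ l)⁻¹ * R) := by ring
    _ ≤ (m * (Real.log b + 1)) * (C₂ * (1 + K) * (b : ℝ) ^ 3 * ((b : ℝ) ^ l)⁻¹ * R) :=
        mul_le_mul_of_nonneg_right h8 h10
    _ = _ := by ring

end Pool.Agent.HPY
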