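import Pool.Agent.HPY.SDefs
import Pool.Agent.HPX.SNd

/-!
# HPY/SPrd: the product bound (`SPrdN`)

`x_r = w b^r / b^L + τ / b^r`. `gB ≤ 1`. Let the block `j < B` be good: `(w / b^(L - 4(j+1))) % b^4 = e₀`, and
`r = 4 j` (`r + 1 < L`). Then the fractional part `f` of `w b^r / b^L` lies in `[e₀ / b^4, (e₀ + 1) / b^4)`
(`w = A b^(L-r) + e₀ b^(L-r-4) + ρ`, `ρ < b^(L-r-4)`), as does `1 / (2 (b² - 1))`, so `|(b² - 1) f - 1/2| ≤ (b² - 1) / b^4
< 1/4`: `‖(b² - 1) w b^r / b^L‖ ≥ 1/4` (distance to the integers). `b x_(r+1) - x_r = (b² - 1) w b^r / b^L`, so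
`‖x_r‖ + b ‖x_(r+1)‖ ≥ 1/4` and one of the two is `≥ η = 1 / (4 (b + 1))`. If `‖x‖ ≥ η`:
`|∑_(d < b) e(d x)| ≤ (b - 2) + |1 + e(x)|`, `|1 + e(x)|² = 4 - |1 - e(x)|² ≤ 4 - 16 η²`, so
`gB b x ≤ 1 - c`, `c = 4 η² / b`. The pairs `(4j, 4j+1)` are disjoint.
-/

namespace Pool.Agent.HPY

open Complex MeasureTheory Pool.Agent.HPZ
open Pool.Agent.HPP (Bp PP Gt lv)

open Pool.Agent.HPX (Ds dg yv iv nd th)

private lemma gBY_nonneg (b : ℕ) (x : ℝ) : 0 ≤ gB b x := by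
  unfold gB; positivity

private lemma gBY_le_one (b : ℕ) (x : ℝ) : gB b x ≤ 1 := by
  unfold gB
  refine div_le_one_of_le₀ ?_ (Nat.cast_nonneg _)
  refine (norm_sum_le _ _).trans (le_of_eq ?_)
  simp only [Pool.Agent.HPX.norm_exp_two_pi, Finset.sum_const, Finset.card_range, nsmul_eq_mul, mul_one]

/-- far from the integers the geometric sum is smaller -/
private lemma gBY_le {b : ℕ} (hb : 2 ≤ b) {x η : ℝ} (hη : 0 ≤ η) (hη2 : η ≤ 1 / 2) (hx : η ≤ nd x) :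
    gB b x ≤ 1 - 4 * η ^ 2 / b := by
  set ζ := Complex.exp (2 * Real.pi * I * x) with hζ
  have h4 : 4 * nd x ≤ ‖ζ - 1‖ := Pool.Agent.HPP.norm_e_ge x
  have hn1 : ‖ζ‖ = 1 := Pool.Agent.HPX.norm_exp_two_pi x
  have hbR : (2 : ℝ) ≤ b := by exact_mod_cast hb
  -- parallelogram
  have hpar : ‖1 + ζ‖ ^ 2 + ‖ζ - 1‖ ^ 2 = 4 := by
    have e1 := Complex.sq_norm (1 + ζ)
    have e2 := Complex.sq_norm (ζ - 1)
    have e3 := Complex.sq_norm ζ
    rw [hn1] at e3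
    rw [e1, e2]
    simp only [Complex.normSq_apply, Complex.add_re, Complex.add_im, Complex.sub_re, Complex.sub_im,
      Complex.one_re, Complex.one_im] at e3 ⊢
    nlinarith
  have h1 : ‖1 + ζ‖ ≤ 2 - 4 * η ^ 2 := by
    have h5 : 4 * η ≤ ‖ζ - 1‖ := by linarith
    have h6 : (4 * η) ^ 2 ≤ ‖ζ - 1‖ ^ 2 := by
      exact pow_le_pow_left₀ (by linarith) h5 2
    have h7 : ‖1 + ζ‖ ^ 2 ≤ 4 - 16 * η ^ 2 := by nlinarith
    have h8 : (0 : ℝ) ≤ 2 - 4 * η ^ 2 := by nlinarith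
    refine abs_le_of_sq_le_sq' ?_ h8 |>.2
    nlinarith [sq_nonneg (η ^ 2)]
  obtain ⟨a, rfl⟩ : ∃ a, b = a + 2 := ⟨b - 2, by omega⟩
  have h2 : ‖∑ z ∈ Finset.range (a + 2), Complex.exp (2 * Real.pi * I * ((z : ℝ) * x : ℝ))‖ ≤
      (a : ℝ) + (2 - 4 * η ^ 2) := by
    rw [Finset.sum_range_succ', Finset.sum_range_succ']
    have e0' : Complex.exp (2 * Real.pi * I * (((0 : ℕ) : ℝ) * x : ℝ)) = 1 := by
      simp
    have e1' : Complex.exp (2 * Real.pi * I * (((0 + 1 : ℕ) : ℝ) * x : ℝ)) = ζ := by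
      simp [hζ]
    rw [e0', e1', add_assoc]
    refine (norm_add_le _ _).trans ?_
    refine add_le_add ?_ ?_
    · refine (norm_sum_le _ _).trans (le_of_eq ?_)
      simp only [Pool.Agent.HPX.norm_exp_two_pi, Finset.sum_const, Finset.card_range, nsmul_eq_mul,
        mul_one]
    · rw [add_comm ζ 1]; exact h1
  unfold gB
  rw [div_le_iff₀ (by linarith)]
  have hpos : (0 : ℝ) < ((a + 2 : ℕ) : ℝ) := by linarith
  have : (1 - 4 * η ^ 2 / ((a + 2 : ℕ) : ℝ)) * ((a + 2 : ℕ) : ℝ) = ((a + 2 : ℕ) : ℝ) - 4 * η ^ 2 := by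
    field_simp
  rw [this]
  push_cast
  push_cast at h2
  linarith

private lemma nd_natCast_mul_le (n : ℕ) (x : ℝ) : nd ((n : ℝ) * x) ≤ n * nd x := by
  induction n with
  | zero =>
      have := Pool.Agent.HPX.nd_le_abs_sub_int (((0 : ℕ) : ℝ) * x) 0
      simpa using this
  | succ n ih =>
      have h : (((n + 1 : ℕ) : ℝ) * x) = (n : ℝ) * x + x := by push_cast; ring
      rw [h]
      refine (Pool.Agent.HPX.nd_add_le _ _).trans ?_
      push_cast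
      linarith

/-- a number within `1/4` of `1/2` modulo the integers -/
private lemma nd_ge_quarter {y : ℝ} (k : ℤ) (h : |y - k - 1 / 2| ≤ 1 / 4) : 1 / 4 ≤ nd y := by
  unfold nd
  obtain ⟨h1, h2⟩ := abs_le.1 h
  rcases le_or_gt (round y) k with hk | hk
  · have : (round y : ℝ) ≤ k := by exact_mod_cast hk
    exact le_trans (by linarith) (le_abs_self _)
  · have : (k : ℝ) + 1 ≤ round y := by exact_mod_cast hk
    exact le_trans (by linarith) (neg_le_abs _)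

/-- the good block -/
private lemma nd_block {b : ℕ} (hb : 2 ≤ b) {L j w : ℕ} (hj : 4 * (j + 1) ≤ L)
    (hw : (w / b ^ (L - 4 * (j + 1))) % b ^ 4 = e0 b) :
    1 / 4 ≤ nd (((b : ℝ) ^ 2 - 1) * ((w : ℝ) * (b : ℝ) ^ (4 * j) / (b : ℝ) ^ L)) := by
  set M := L - 4 * (j + 1) with hM
  have hL : L = 4 * j + (M + 4) := by omega
  have hbR : (2 : ℝ) ≤ b := by exact_mod_cast hb
  have hb0 : (0 : ℝ) < b := by linarith
  set A := (w / b ^ M) / b ^ 4 with hA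
  set ρ := w % b ^ M with hρ
  have hρlt : ρ < b ^ M := Nat.mod_lt _ (by positivity)
  have hwdec : w = b ^ M * (b ^ 4 * A + e0 b) + ρ := by
    have h1 := (Nat.div_add_mod w (b ^ M)).symm
    have h2 := (Nat.div_add_mod (w / b ^ M) (b ^ 4)).symm
    rw [hw] at h2
    rw [← hA] at h2
    rw [h2] at h1
    exact h1
  have hwR : (w : ℝ) = (b : ℝ) ^ M * ((b : ℝ) ^ 4 * A + e0 b) + ρ := by
    have := congrArg (Nat.cast : ℕ → ℝ) hwdec
    push_cast at this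
    exact this
  have hρR : (ρ : ℝ) < (b : ℝ) ^ M := by exact_mod_cast hρlt
  have hρ0 : (0 : ℝ) ≤ ρ := Nat.cast_nonneg _
  set f : ℝ := ((e0 b : ℝ) + ρ / (b : ℝ) ^ M) / (b : ℝ) ^ 4 with hf
  have hx : (w : ℝ) * (b : ℝ) ^ (4 * j) / (b : ℝ) ^ L = A + f := by
    rw [hwR, hf, hL, pow_add, pow_add]
    field_simp
    ring
  rw [hx]
  -- bounds for `e0`
  have hb2 : 0 < b ^ 2 - 1 := by
    have : 4 ≤ b ^ 2 := by nlinarith
    omega
  have hb2R : ((b ^ 2 - 1 : ℕ) : ℝ) = (b : ℝ) ^ 2 - 1 := by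
    have : 1 ≤ b ^ 2 := Nat.one_le_pow _ _ (by omega)
    push_cast [Nat.cast_sub this]
    ring
  have hd0 : (0 : ℝ) < (b : ℝ) ^ 2 - 1 := by nlinarith
  have he1 : (e0 b : ℝ) * (2 * ((b : ℝ) ^ 2 - 1)) ≤ (b : ℝ) ^ 4 := by
    have : e0 b * (2 * (b ^ 2 - 1)) ≤ b ^ 4 := Nat.div_mul_le_self _ _
    have h2 : ((e0 b * (2 * (b ^ 2 - 1)) : ℕ) : ℝ) ≤ ((b ^ 4 : ℕ) : ℝ) := by exact_mod_cast this
    push_cast at h2
    rw [Nat.cast_sub (Nat.one_le_pow _ _ (by omega))] at h2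
    push_cast at h2
    exact h2
  have he2 : (b : ℝ) ^ 4 < ((e0 b : ℝ) + 1) * (2 * ((b : ℝ) ^ 2 - 1)) := by
    have : b ^ 4 < (e0 b + 1) * (2 * (b ^ 2 - 1)) := by
      rw [mul_comm]
      exact Nat.lt_mul_div_succ _ (by positivity)
    have h2 : ((b ^ 4 : ℕ) : ℝ) < (((e0 b + 1) * (2 * (b ^ 2 - 1)) : ℕ) : ℝ) := by exact_mod_cast this
    push_cast at h2
    rw [Nat.cast_sub (Nat.one_le_pow _ _ (by omega))] at h2
    push_cast at h2
    exact h2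
  have hr0 : 0 ≤ (ρ : ℝ) / (b : ℝ) ^ M := by positivity
  have hr1 : (ρ : ℝ) / (b : ℝ) ^ M < 1 := by rwa [div_lt_one (by positivity)]
  have hb4 : (0 : ℝ) < (b : ℝ) ^ 4 := by positivity
  have hfb : f * (b : ℝ) ^ 4 = (e0 b : ℝ) + ρ / (b : ℝ) ^ M := by
    rw [hf]; field_simp
  have hkey : |((b : ℝ) ^ 2 - 1) * f - 1 / 2| ≤ 1 / 4 := by
    rw [abs_le]
    have hsm : ((b : ℝ) ^ 2 - 1) * 4 ≤ (b : ℝ) ^ 4 := by nlinarith [sq_nonneg ((b : ℝ) ^ 2 - 2)]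
    constructor
    · have : (-(1 / 4) : ℝ) * (b : ℝ) ^ 4 ≤ (((b : ℝ) ^ 2 - 1) * f - 1 / 2) * (b : ℝ) ^ 4 := by
        have e : (((b : ℝ) ^ 2 - 1) * f - 1 / 2) * (b : ℝ) ^ 4 =
            ((b : ℝ) ^ 2 - 1) * (f * (b : ℝ) ^ 4) - 1 / 2 * (b : ℝ) ^ 4 := by ring
        rw [e, hfb]
        nlinarith [mul_nonneg hd0.le hr0]
      exact le_of_mul_le_mul_right this hb4
    · have : (((b : ℝ) ^ 2 - 1) * f - 1 / 2) * (b : ℝ) ^ 4 ≤ (1 / 4 : ℝ) * (b : ℝ) ^ 4 := by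
        have e : (((b : ℝ) ^ 2 - 1) * f - 1 / 2) * (b : ℝ) ^ 4 =
            ((b : ℝ) ^ 2 - 1) * (f * (b : ℝ) ^ 4) - 1 / 2 * (b : ℝ) ^ 4 := by ring
        rw [e, hfb]
        nlinarith [mul_nonneg hd0.le (sub_nonneg.2 hr1.le)]
      exact le_of_mul_le_mul_right this hb4
  apply nd_ge_quarter (((b ^ 2 - 1 : ℕ) * A : ℕ) : ℤ)
  have e2 : ((b : ℝ) ^ 2 - 1) * ((A : ℝ) + f) - ((((b ^ 2 - 1 : ℕ) * A : ℕ) : ℤ) : ℝ) - 1 / 2 =
      ((b : ℝ) ^ 2 - 1) * f - 1 / 2 := by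
    push_cast [hb2R]
    ring
  rw [e2]
  exact hkey

private lemma prod_four {g G : ℕ → ℝ} {B : ℕ} (hg0 : ∀ r, 0 ≤ g r) (hg1 : ∀ r, g r ≤ 1)
    (h : ∀ j, j < B → g (4 * j) * g (4 * j + 1) ≤ G j) :
    ∏ r ∈ Finset.range (4 * B), g r ≤ ∏ j ∈ Finset.range B, G j := by
  induction B with
  | zero => simp
  | succ n ih =>
      have ihn := ih fun j hj => h j (by omega)
      rw [show 4 * (n + 1) = 4 * n + 1 + 1 + 1 + 1 by ring, Finset.prod_range_succ,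
        Finset.prod_range_succ, Finset.prod_range_succ, Finset.prod_range_succ,
        Finset.prod_range_succ]
      have hp0 : 0 ≤ ∏ r ∈ Finset.range (4 * n), g r := Finset.prod_nonneg fun r _ => hg0 r
      have hb1 := h n (by omega)
      have h0 := hg0 (4 * n)
      have h1 := hg0 (4 * n + 1)
      have h2 := hg0 (4 * n + 1 + 1)
      have h2' := hg1 (4 * n + 1 + 1)
      have h3 := hg0 (4 * n + 1 + 1 + 1)
      have h3' := hg1 (4 * n + 1 + 1 + 1)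
      have hgg : 0 ≤ g (4 * n) * g (4 * n + 1) := mul_nonneg h0 h1
      have hX : (∏ r ∈ Finset.range (4 * n), g r) * (g (4 * n) * g (4 * n + 1)) ≤
          (∏ j ∈ Finset.range n, G j) * G n := mul_le_mul ihn hb1 hgg (hp0.trans ihn)
      have hY : g (4 * n + 1 + 1) * g (4 * n + 1 + 1 + 1) ≤ 1 := mul_le_one₀ h2' h3 h3'
      have hZ : 0 ≤ (∏ r ∈ Finset.range (4 * n), g r) * (g (4 * n) * g (4 * n + 1)) :=
        mul_nonneg hp0 hgg
      calc (∏ r ∈ Finset.range (4 * n), g r) * g (4 * n) * g (4 * n + 1) * g (4 * n + 1 + 1) *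
            g (4 * n + 1 + 1 + 1) =
            ((∏ r ∈ Finset.range (4 * n), g r) * (g (4 * n) * g (4 * n + 1))) *
              (g (4 * n + 1 + 1) * g (4 * n + 1 + 1 + 1)) := by ring
        _ ≤ ((∏ r ∈ Finset.range (4 * n), g r) * (g (4 * n) * g (4 * n + 1))) * 1 :=
            mul_le_mul_of_nonneg_left hY hZ
        _ = (∏ r ∈ Finset.range (4 * n), g r) * (g (4 * n) * g (4 * n + 1)) := mul_one _
        _ ≤ _ := hX

theorem sPrdN : SPrdN := by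
  intro b hb
  have hbR : (2 : ℝ) ≤ b := by exact_mod_cast hb
  have hb0 : (0 : ℝ) < b := by linarith
  set η : ℝ := 1 / (4 * ((b : ℝ) + 1)) with hη
  have hη0 : 0 < η := by rw [hη]; positivity
  have hη1 : η ≤ 1 / 2 := by
    rw [hη, div_le_div_iff₀ (by positivity) (by norm_num)]
    linarith
  refine ⟨4 * η ^ 2 / b, by positivity, ?_, ?_⟩
  · rw [div_le_iff₀ hb0]
    nlinarith
  intro B L w τ hBL
  set c : ℝ := 4 * η ^ 2 / b with hc
  have hc0 : 0 < c := by rw [hc]; positivity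
  set g : ℕ → ℝ := fun r => gB b ((w : ℝ) * (b : ℝ) ^ r / (b : ℝ) ^ L + τ / (b : ℝ) ^ r) with hg
  have hg0 : ∀ r, 0 ≤ g r := fun r => gBY_nonneg _ _
  have hg1 : ∀ r, g r ≤ 1 := fun r => gBY_le_one _ _
  -- restrict to `4 B`
  have hres : ∏ r ∈ Finset.range L, g r ≤ ∏ r ∈ Finset.range (4 * B), g r := by
    obtain ⟨k, hk⟩ : ∃ k, L = 4 * B + k := ⟨L - 4 * B, by omega⟩
    rw [hk, Finset.prod_range_add]
    have h1 : ∏ i ∈ Finset.range k, g (4 * B + i) ≤ 1 := Finset.prod_le_one (fun i _ => hg0 _) fun i _ => hg1 _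
    have h2 : 0 ≤ ∏ r ∈ Finset.range (4 * B), g r := Finset.prod_nonneg fun r _ => hg0 r
    exact (mul_le_mul_of_nonneg_left h1 h2).trans (le_of_eq (mul_one _))
  have hblock : ∀ j, j < B → g (4 * j) * g (4 * j + 1) ≤
      (if (w / b ^ (L - 4 * (j + 1))) % b ^ 4 = e0 b then 1 - c else 1) := by
    intro j hj
    split_ifs with hw
    · have hq := nd_block hb (show 4 * (j + 1) ≤ L by omega) hw
      set x : ℝ := (w : ℝ) * (b : ℝ) ^ (4 * j) / (b : ℝ) ^ L + τ / (b : ℝ) ^ (4 * j) with hx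
      set y : ℝ := (w : ℝ) * (b : ℝ) ^ (4 * j + 1) / (b : ℝ) ^ L + τ / (b : ℝ) ^ (4 * j + 1) with hy
      have hrel : ((b : ℝ) ^ 2 - 1) * ((w : ℝ) * (b : ℝ) ^ (4 * j) / (b : ℝ) ^ L) = b * y - x := by
        rw [hx, hy, pow_succ]
        field_simp
        ring
      rw [hrel] at hq
      have h1 : nd ((b : ℝ) * y - x) ≤ b * nd y + nd x :=
        (Pool.Agent.HPX.nd_sub_le _ _).trans (by linarith [nd_natCast_mul_le b y])
      have h2 : 1 / 4 ≤ (b : ℝ) * nd y + nd x := hq.trans h1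
      have h3 : η ≤ nd x ∨ η ≤ nd y := by
        by_contra hcon
        push Not at hcon
        obtain ⟨c1, c2⟩ := hcon
        have : (b : ℝ) * nd y + nd x < (b + 1) * η := by nlinarith
        have e : ((b : ℝ) + 1) * η = 1 / 4 := by
          rw [hη]; field_simp
        linarith
      rcases h3 with h | h
      · have := gBY_le hb hη0.le hη1 h
        calc g (4 * j) * g (4 * j + 1) ≤ g (4 * j) * 1 := mul_le_mul_of_nonneg_left (hg1 _) (hg0 _)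
          _ = g (4 * j) := mul_one _
          _ ≤ _ := this
      · have := gBY_le hb hη0.le hη1 h
        calc g (4 * j) * g (4 * j + 1) ≤ 1 * g (4 * j + 1) := mul_le_mul_of_nonneg_right (hg1 _) (hg0 _)
          _ = g (4 * j + 1) := one_mul _
          _ ≤ _ := this
    · exact mul_le_one₀ (hg1 _) (hg0 _) (hg1 _)
  exact hres.trans (prod_four hg0 hg1 hblock)

end Pool.Agent.HPY
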