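import Pool.Agent.HPY.Iface
import Pool.Agent.HPX.WFin

/-!
# HPY/WFin: `SWN`: port of `HPX/WReg.reg_char` and `HPX/WFin.sw_prop` to every base `b ≥ 2`

`reg_char` uses primality only through `quad` (now the hypothesis `hq`) and through the norm of the Euler factors of
the trivial character mod `b^J` (`LFunctionTrivChar_eq_mul_riemannZeta`): the product over `(b^J).primeFactors = b.primeFactors`
of `1 - p^(-s)`, `Re s ≥ 1`, has norm `≤ 2^b` (a constant depending on `b`).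
-/

namespace Pool.Agent.HPY

open Complex MeasureTheory Pool.Agent.HPZ DirichletCharacter
open Pool.Agent.HPP (Bp PP Gt lv)
open Pool.Agent.HPX (L_der L_up zeta_up' low ld_two LI_bound num PP_rep LI)

private lemma wn_fin_aux {L D : ℂ} {M : ℝ} (hM : 1 ≤ M) (hD : ‖D‖ ≤ M)
    (hL : 1 / (1024 * M ^ 4) ≤ ‖L‖) : L ≠ 0 ∧ ‖D / L‖ ≤ 1024 * M ^ 5 := by
  have hM0 : 0 < M := by linarith
  have hp : 0 < 1 / (1024 * M ^ 4) := by positivity
  have hLp : 0 < ‖L‖ := lt_of_lt_of_le hp hL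
  refine ⟨norm_pos_iff.mp hLp, ?_⟩
  rw [norm_div, div_le_iff₀ hLp]
  calc ‖D‖ ≤ M := hD
    _ = 1024 * M ^ 5 * (1 / (1024 * M ^ 4)) := by field_simp
    _ ≤ 1024 * M ^ 5 * ‖L‖ := by
        apply mul_le_mul_of_nonneg_left hL (by positivity)

private lemma wn_log_two_le {X : ℝ} (hX : 9 ≤ X) : 2 ≤ Real.log X := by
  have h1 : (2 : ℝ) ≤ Real.log 9 := by
    rw [Real.le_log_iff_exp_le (by norm_num)]
    have h := Real.exp_one_lt_d9
    have h2 : Real.exp 2 = Real.exp 1 * Real.exp 1 := by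
      rw [← Real.exp_add]; norm_num
    rw [h2]
    have h3 : 0 < Real.exp 1 := Real.exp_pos 1
    nlinarith
  exact le_trans h1 (Real.log_le_log (by norm_num) hX)

private lemma wn_log_mul_two_le {X : ℝ} (hX : 2 ≤ X) : Real.log (2 * X) ≤ 2 * Real.log X := by
  have h1 : Real.log (2 * X) = Real.log 2 + Real.log X :=
    Real.log_mul (by norm_num) (by linarith)
  have h2 : Real.log 2 ≤ Real.log X := Real.log_le_log (by norm_num) hX
  linarith

/-- the trivial character mod `b ^ J` against the Riemann zeta function -/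
private lemma wn_triv (b J : ℕ) [NeZero b] (hb : 2 ≤ b) (hJ : 1 ≤ J) {s : ℂ} (hs : 1 ≤ s.re)
    (hs1 : s ≠ 1) : ‖LFunction (1 : DirichletCharacter ℂ (b ^ J)) s‖ ≤ 2 ^ b * ‖riemannZeta s‖ := by
  have h := LFunctionTrivChar_eq_mul_riemannZeta (N := b ^ J) hs1
  have h' : LFunction (1 : DirichletCharacter ℂ (b ^ J)) s =
      (∏ p ∈ (b ^ J).primeFactors, (1 - (p : ℂ) ^ (-s))) * riemannZeta s := h
  rw [h', norm_mul]
  apply mul_le_mul_of_nonneg_right _ (norm_nonneg _)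
  rw [Nat.primeFactors_pow b (by omega), norm_prod]
  have h1 : ∀ p ∈ b.primeFactors, ‖1 - (p : ℂ) ^ (-s)‖ ≤ 2 := by
    intro p hp
    have hpp : p.Prime := Nat.prime_of_mem_primeFactors hp
    have h1 : ‖(p : ℂ) ^ (-s)‖ ≤ 1 := by
      rw [Complex.norm_natCast_cpow_of_pos hpp.pos]
      apply Real.rpow_le_one_of_one_le_of_nonpos
      · exact_mod_cast hpp.one_lt.le
      · simp only [neg_re]; linarith
    calc ‖1 - (p : ℂ) ^ (-s)‖ ≤ ‖(1 : ℂ)‖ + ‖(p : ℂ) ^ (-s)‖ := norm_sub_le _ _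
      _ ≤ 2 := by rw [norm_one]; linarith
  have hcard : b.primeFactors.card ≤ b := by
    have h2 : b.primeFactors ⊆ Finset.Icc 1 b := by
      intro p hp
      rw [Finset.mem_Icc]
      exact ⟨(Nat.prime_of_mem_primeFactors hp).one_lt.le, Nat.le_of_mem_primeFactors hp⟩
    have h3 := Finset.card_le_card h2
    rwa [Nat.card_Icc, Nat.add_sub_cancel] at h3
  calc ∏ p ∈ b.primeFactors, ‖1 - (p : ℂ) ^ (-s)‖ ≤ ∏ p ∈ b.primeFactors, (2 : ℝ) :=
        Finset.prod_le_prod (fun _ _ => norm_nonneg _) h1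
    _ = 2 ^ b.primeFactors.card := by rw [Finset.prod_const]
    _ ≤ 2 ^ b := pow_le_pow_right₀ (by norm_num) hcard

/-- port of `HPX.reg_char` -/
private theorem wn_reg (b : ℕ) [NeZero b] (hb : 2 ≤ b) {Cq : ℝ} (hCq : 1 ≤ Cq)
    (hquad : ∀ J : ℕ, 1 ≤ J → ∀ χ : DirichletCharacter ℂ (b ^ J), χ ≠ 1 → χ ^ 2 = 1 →
    ∀ s : ℂ, 1 - 1 / Cq ≤ s.re → s.re ≤ 2 → |s.im| ≤ 2 →
      DirichletCharacter.LFunction χ s ≠ 0 ∧
      ‖deriv (DirichletCharacter.LFunction χ) s / DirichletCharacter.LFunction χ s‖ ≤ Cq) :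
    ∃ C : ℝ, 1 ≤ C ∧
    ∀ J : ℕ, 1 ≤ J → ∀ χ : DirichletCharacter ℂ (b ^ J), χ ≠ 1 → ∀ Y : ℝ, 9 ≤ Y →
    ∀ s : ℂ, 1 - 1 / (C * Real.log ((b : ℝ) ^ J * Y) ^ 10) ≤ s.re → s.re ≤ 2 → |s.im| ≤ Y - 1 →
      LFunction χ s ≠ 0 ∧
        ‖deriv (LFunction χ) s / LFunction χ s‖ ≤ C * Real.log ((b : ℝ) ^ J * Y) ^ 10 := by
  obtain ⟨Cd, hCd, hder⟩ := L_der
  obtain ⟨Cu, hCu, hup⟩ := L_up
  obtain ⟨Cz, hCz, hzup⟩ := zeta_up'
  set C' : ℝ := Cd + Cu + 2 ^ b * Cz with hC'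
  have h2b : (1 : ℝ) ≤ 2 ^ b := one_le_pow₀ (by norm_num)
  have h2bC : 0 ≤ (2 : ℝ) ^ b * Cz := by positivity
  have hC'1 : 1 ≤ C' := by linarith
  have hC'5 : 1 ≤ C' ^ 5 := one_le_pow₀ hC'1
  refine ⟨2048 * C' ^ 5 + Cq, by linarith, ?_⟩
  intro J hJ χ hχ Y hY s hs1 hs2 hs3
  have hb2 : (2 : ℝ) ≤ (b : ℝ) ^ J := by
    calc (2 : ℝ) ≤ (b : ℝ) := by exact_mod_cast hb
      _ = (b : ℝ) ^ 1 := (pow_one _).symm
      _ ≤ (b : ℝ) ^ J := pow_le_pow_right₀ (by exact_mod_cast (by omega : 1 ≤ b)) hJ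
  set Λ : ℝ := Real.log ((b : ℝ) ^ J * Y) with hΛ
  have hX9 : 9 ≤ (b : ℝ) ^ J * Y := by nlinarith
  have hΛ2 : 2 ≤ Λ := wn_log_two_le hX9
  have hΛ10 : 1 ≤ Λ ^ 10 := one_le_pow₀ (by linarith)
  have hΛp : 0 < Λ := by linarith
  have hcast : ((b ^ J : ℕ) : ℝ) = (b : ℝ) ^ J := by push_cast; ring
  set M : ℝ := C' * Λ ^ 2 with hM
  have hΛΛ : Λ ≤ Λ ^ 2 := by nlinarith
  have hMΛ : Λ ≤ M := by
    calc Λ ≤ Λ ^ 2 := hΛΛ
      _ = 1 * Λ ^ 2 := (one_mul _).symm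
      _ ≤ C' * Λ ^ 2 := by apply mul_le_mul_of_nonneg_right hC'1 (by positivity)
  have hM1 : 1 ≤ M := by linarith
  have hM5 : M ^ 5 = C' ^ 5 * Λ ^ 10 := by rw [hM]; ring
  have hM5Λ : Λ ≤ M ^ 5 := by
    calc Λ ≤ M := hMΛ
      _ = M ^ 1 := (pow_one _).symm
      _ ≤ M ^ 5 := pow_le_pow_right₀ hM1 (by norm_num)
  have hCpos : 0 < (2048 * C' ^ 5 + Cq) * Λ ^ 10 := by positivity
  by_cases hsmall : χ ^ 2 = 1 ∧ |s.im| ≤ 1
  · -- quadratic characters at bounded height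
    obtain ⟨hχ2, him⟩ := hsmall
    have hle : Cq ≤ (2048 * C' ^ 5 + Cq) * Λ ^ 10 := by nlinarith
    have hle' : 1 / ((2048 * C' ^ 5 + Cq) * Λ ^ 10) ≤ 1 / Cq :=
      one_div_le_one_div_of_le (by linarith) hle
    obtain ⟨h1, h2⟩ := hquad J hJ χ hχ hχ2 s (by linarith) hs2 (by linarith)
    exact ⟨h1, h2.trans hle⟩
  · -- general case
    have hle : 2048 * M ^ 5 ≤ (2048 * C' ^ 5 + Cq) * Λ ^ 10 := by
      rw [hM5]; nlinarith
    have hle' : 1 / ((2048 * C' ^ 5 + Cq) * Λ ^ 10) ≤ 1 / (2048 * M ^ 5) :=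
      one_div_le_one_div_of_le (by positivity) hle
    have hs_eq : ((s.re : ℂ) + I * (s.im : ℂ)) = s := by
      rw [mul_comm]; exact Complex.re_add_im s
    have hderM : ∀ σ : ℝ, 1 - 1 / (2048 * M ^ 5) ≤ σ → σ ≤ 2 →
        DifferentiableAt ℂ (LFunction χ) (σ + I * s.im) ∧
          ‖deriv (LFunction χ) (σ + I * s.im)‖ ≤ M := by
      intro σ hσ1 hσ2
      refine ⟨(differentiable_LFunction hχ) _, ?_⟩
      have hre : ((σ : ℂ) + I * (s.im : ℂ)).re = σ := by simp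
      have him : ((σ : ℂ) + I * (s.im : ℂ)).im = s.im := by simp
      have h2 : 1 / (2048 * M ^ 5) ≤ 1 / (2 * Λ) :=
        one_div_le_one_div_of_le (by positivity) (by nlinarith)
      have h := hder (b ^ J) χ hχ Y hY (σ + I * s.im)
        (by rw [hre, hcast]; linarith) (by rw [hre]; exact hσ2) (by rw [him]; exact hs3)
      rw [hcast] at h
      calc _ ≤ Cd * Λ ^ 2 := h
        _ ≤ C' * Λ ^ 2 := by
            apply mul_le_mul_of_nonneg_right _ (by positivity)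
            linarith
    have hupM : ∀ x : ℝ, 0 < x → x ≤ 1 →
        ‖LFunction (χ ^ 2) (1 + x + 2 * I * s.im)‖ ≤ M := by
      intro x hx0 hx1
      have hre : ((1 : ℂ) + x + 2 * I * (s.im : ℂ)).re = 1 + x := by simp
      have him : ((1 : ℂ) + x + 2 * I * (s.im : ℂ)).im = 2 * s.im := by simp
      have hab : |2 * s.im| ≤ 2 * Y := by
        rw [abs_mul, abs_two]; linarith
      by_cases hχ2 : χ ^ 2 = 1
      · have him1 : 1 ≤ |s.im| := by
          by_contra hc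
          exact hsmall ⟨hχ2, by linarith [not_le.mp hc]⟩
        rw [hχ2]
        have hne : 2 ≤ ‖((1 : ℂ) + x + 2 * I * (s.im : ℂ)) - 1‖ := by
          have h1 := Complex.abs_im_le_norm (((1 : ℂ) + x + 2 * I * (s.im : ℂ)) - 1)
          rw [sub_im, him, one_im, sub_zero, abs_mul, abs_two] at h1
          linarith
        have hne1 : ((1 : ℂ) + x + 2 * I * (s.im : ℂ)) ≠ 1 := by
          intro hc
          rw [hc, sub_self, norm_zero] at hne
          linarith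
        have h2Y : Real.log (2 * Y) ≤ Λ := by
          rw [hΛ]
          apply Real.log_le_log (by linarith)
          nlinarith
        have hlog : 0 < Real.log (2 * Y) := by
          have := wn_log_two_le (X := 2 * Y) (by linarith)
          linarith
        have h1 := wn_triv b J hb hJ (s := 1 + x + 2 * I * s.im) (by rw [hre]; linarith) hne1
        have h2 := hzup (2 * Y) (by linarith) (1 + x + 2 * I * s.im)
          (by
            rw [hre]
            have : 0 < 1 / Real.log (2 * Y) := by positivity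
            linarith)
          (by rw [hre]; linarith) (by rw [him]; exact hab) (by linarith)
        calc _ ≤ 2 ^ b * ‖riemannZeta (1 + x + 2 * I * s.im)‖ := h1
          _ ≤ 2 ^ b * (Cz * Real.log (2 * Y)) := mul_le_mul_of_nonneg_left h2 (by positivity)
          _ ≤ 2 ^ b * (Cz * Λ) := by
              apply mul_le_mul_of_nonneg_left _ (by positivity)
              exact mul_le_mul_of_nonneg_left h2Y (by linarith : (0:ℝ) ≤ Cz)
          _ = (2 ^ b * Cz) * Λ := by ring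
          _ ≤ (2 ^ b * Cz) * Λ ^ 2 := mul_le_mul_of_nonneg_left hΛΛ h2bC
          _ ≤ C' * Λ ^ 2 := by
              apply mul_le_mul_of_nonneg_right _ (by positivity)
              linarith
      · have hlog2 : Real.log ((b ^ J : ℕ) * (2 * Y)) ≤ 2 * Λ := by
          rw [hcast, hΛ]
          have h1 : (b : ℝ) ^ J * (2 * Y) = 2 * ((b : ℝ) ^ J * Y) := by ring
          rw [h1]
          exact wn_log_mul_two_le (by linarith)
        have hlogp : 0 < Real.log ((b ^ J : ℕ) * (2 * Y)) := by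
          have := wn_log_two_le (X := (b ^ J : ℕ) * (2 * Y)) (by rw [hcast]; nlinarith)
          linarith
        have h2 := hup (b ^ J) (χ ^ 2) hχ2 (2 * Y) (by linarith) (1 + x + 2 * I * s.im)
          (by
            rw [hre]
            have : 0 < 1 / Real.log ((b ^ J : ℕ) * (2 * Y)) := by positivity
            linarith)
          (by rw [hre]; linarith) (by rw [him]; exact hab)
        calc _ ≤ Cu * Real.log ((b ^ J : ℕ) * (2 * Y)) := h2
          _ ≤ Cu * (2 * Λ) := by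
              apply mul_le_mul_of_nonneg_left hlog2 (by linarith)
          _ ≤ Cu * Λ ^ 2 := by
              apply mul_le_mul_of_nonneg_left _ (by linarith)
              nlinarith
          _ ≤ C' * Λ ^ 2 := by
              apply mul_le_mul_of_nonneg_right _ (by positivity)
              linarith
    have hlow := low (b ^ J) χ s.im M hM1 hupM hderM s.re (by linarith) hs2
    have hd := (hderM s.re (by linarith) hs2).2
    rw [hs_eq] at hlow hd
    obtain ⟨h1, h2⟩ := wn_fin_aux hM1 hd hlow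
    refine ⟨h1, h2.trans ?_⟩
    have : 1024 * M ^ 5 ≤ 2048 * M ^ 5 := by
      have : 0 ≤ M ^ 5 := by positivity
      linarith
    linarith

private lemma wn_diff {L : ℂ → ℂ} (hL : Differentiable ℂ L) {s : ℂ} (h0 : L s ≠ 0) :
    DifferentiableAt ℂ (fun s => -deriv L s / L s) s := by
  have h1 : DifferentiableAt ℂ (deriv L) s := (hL.analyticAt s).deriv.differentiableAt
  exact h1.neg.div (hL s) h0

private lemma wn_norm (a b : ℂ) : ‖-a / b‖ = ‖a / b‖ := by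
  rw [neg_div, norm_neg]

private lemma wn_log {X : ℝ} (hX : 9 ≤ X) : 1 ≤ Real.log X := by
  rw [Real.le_log_iff_exp_le (by linarith)]
  have := Real.exp_one_lt_d9
  linarith

private lemma wn_core {C₁ C₂ C K q A l t : ℝ} {L : ℂ → ℂ} (hL : Differentiable ℂ L) (hC₁ : 1 ≤ C₁)
    (hC₂ : 1 ≤ C₂) (hC : C = C₁ + C₂) (hl9 : 9 ≤ l) (hq1 : 1 ≤ q)
    (hLI : ∀ (h : ℂ → ℂ) (t v H lam D : ℝ), 0 < lam → lam ≤ 1 → 1 ≤ H →
      0 ≤ v → 0 ≤ D →
      (∀ s : ℂ, 1 - lam ≤ s.re → s.re ≤ 2 → |s.im| ≤ H + |t| → DifferentiableAt ℂ h s ∧ ‖h s‖ ≤ D) →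
      (∀ s : ℂ, s.re = 2 → ContinuousAt h s ∧ ‖h s‖ ≤ D) →
      ‖LI 2 h t v‖ ≤ K * D * (Real.exp ((1 - lam) * v) + Real.exp (2 * v - H ^ 2 / 8)))
    (ht : |t| ≤ l ^ A)
    (hreg : ∀ s : ℂ, 1 - 1 / (C₁ * Real.log (q * (l ^ A + l + 9)) ^ 10) ≤ s.re → s.re ≤ 2 →
      |s.im| ≤ (l ^ A + l + 9) - 1 → L s ≠ 0 ∧
        ‖deriv L s / L s‖ ≤ C₁ * Real.log (q * (l ^ A + l + 9)) ^ 10)
    (hld : ∀ s : ℂ, s.re = 2 → L s ≠ 0 ∧ ‖deriv L s / L s‖ ≤ C₂) :
    ‖LI 2 (fun s => -deriv L s / L s) t l‖ ≤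
      K * (C * Real.log (q * (l ^ A + l + 9)) ^ 10) *
      (Real.exp ((1 - 1 / (C * Real.log (q * (l ^ A + l + 9)) ^ 10)) * l) +
        Real.exp (2 * l - l ^ 2 / 8)) := by
  have hlA : 0 ≤ l ^ A := Real.rpow_nonneg (by linarith) _
  have hY9 : 9 ≤ l ^ A + l + 9 := by linarith
  have hqY : 9 ≤ q * (l ^ A + l + 9) := by nlinarith
  have hlog : 1 ≤ Real.log (q * (l ^ A + l + 9)) := wn_log hqY
  have hΛ : 1 ≤ Real.log (q * (l ^ A + l + 9)) ^ 10 := one_le_pow₀ hlog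
  generalize hΛe : Real.log (q * (l ^ A + l + 9)) ^ 10 = Λ at hΛ hreg ⊢
  have hD1 : 1 ≤ C * Λ := by
    rw [hC]; nlinarith
  have h1 : C₁ * Λ ≤ C * Λ := by
    rw [hC]; nlinarith
  have h2 : C₂ ≤ C * Λ := by
    rw [hC]; nlinarith
  have h3 : 0 < C₁ * Λ := by nlinarith
  have h4 : 1 / (C * Λ) ≤ 1 / (C₁ * Λ) := one_div_le_one_div_of_le h3 h1
  refine hLI _ t l l (1 / (C * Λ)) (C * Λ) (by positivity) ?_ (by linarith) (by linarith)
    (by linarith) ?_ ?_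
  · rw [div_le_one (by linarith)]; exact hD1
  · intro s hs1 hs2 hs3
    obtain ⟨h5, h6⟩ := hreg s (by linarith) hs2 (by linarith)
    refine ⟨wn_diff hL h5, ?_⟩
    simp only [wn_norm]
    linarith
  · intro s hs
    obtain ⟨h5, h6⟩ := hld s hs
    refine ⟨(wn_diff hL h5).continuousAt, ?_⟩
    simp only [wn_norm]
    linarith

theorem swN (hq : ∀ (b : ℕ) [NeZero b], 2 ≤ b → ∃ C : ℝ, 1 ≤ C ∧
    ∀ J : ℕ, 1 ≤ J → ∀ χ : DirichletCharacter ℂ (b ^ J), χ ≠ 1 → χ ^ 2 = 1 →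
    ∀ s : ℂ, 1 - 1 / C ≤ s.re → s.re ≤ 2 → |s.im| ≤ 2 →
      DirichletCharacter.LFunction χ s ≠ 0 ∧
      ‖deriv (DirichletCharacter.LFunction χ) s / DirichletCharacter.LFunction χ s‖ ≤ C) : SWN := by
  intro b hb A hA
  haveI : NeZero b := ⟨by omega⟩
  obtain ⟨Cq, hCq, hquad⟩ := hq b hb
  obtain ⟨C₁, hC₁, hreg⟩ := wn_reg b hb hCq hquad
  obtain ⟨C₂, hC₂, hld⟩ := ld_two
  obtain ⟨K, hK, hLI⟩ := LI_bound
  obtain ⟨l₀, hl₀, hnum⟩ := num A (C₁ + C₂) K hA (by linarith) hK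
  refine ⟨Real.exp l₀, fun x hx J hJ hq χ hχ t ht => ?_⟩
  have hx0 : 0 < x := lt_of_lt_of_le (Real.exp_pos _) hx
  have hrep := PP_rep χ t hx0
  have hll : l₀ ≤ Real.log x := by rwa [Real.le_log_iff_exp_le hx0]
  have hexpl : Real.exp (Real.log x) = x := Real.exp_log hx0
  generalize Real.log x = l at hrep hll hexpl hq ht ⊢
  have hq1 : 1 ≤ (b : ℝ) ^ J := one_le_pow₀ (by exact_mod_cast (by omega : 1 ≤ b))
  have hlA : 0 ≤ l ^ A := Real.rpow_nonneg (by linarith) _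
  have hcore := wn_core (C₁ := C₁) (C₂ := C₂) (C := C₁ + C₂) (K := K) (q := (b : ℝ) ^ J) (A := A)
    (l := l) (t := t) (L := LFunction χ) (differentiable_LFunction hχ) hC₁ hC₂ rfl (by linarith)
    hq1 hLI ht (fun s hs1 hs2 hs3 => hreg J hJ χ hχ _ (by linarith) s hs1 hs2 hs3)
    (fun s hs => hld _ χ s hs)
  have hn := hnum l hll ((b : ℝ) ^ J) hq1 hq
  rw [← hrep] at hcore
  have hpi : ‖(2 * Real.pi * PP χ t x : ℂ)‖ = 2 * Real.pi * ‖PP χ t x‖ := by
    rw [norm_mul, norm_mul, Complex.norm_real, Real.norm_of_nonneg Real.pi_pos.le]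
    simp
  rw [hpi] at hcore
  have hpi1 : 1 ≤ 2 * Real.pi := by
    have := Real.pi_gt_three
    linarith
  have h0 : ‖PP χ t x‖ ≤ 2 * Real.pi * ‖PP χ t x‖ := by
    have := norm_nonneg (PP χ t x)
    nlinarith
  have hK1 : 0 ≤ K * (1 + l) := by
    apply mul_nonneg <;> linarith
  rw [hexpl] at hn
  linarith

end Pool.Agent.HPY
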