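import Pool.Agent.HPY.Iface
import Pool.Agent.HPX.WQuad

/-!
# HPY/WQuad: quadratic characters mod `b^J`, EVERY `b ≥ 2`, bounded height (generalises `HPX.quad`)

`χ² = 1`. Claim: `χ` factors through `b^3` if `J ≥ 3`. Let `u ≡ 1 mod b³` be a unit mod `b^J`, `n` a natural
representative.
* `b` even: `4 b ∣ b³ ∣ n - 1`, and by Hensel (`sq_step`) there is `v` prime to `b` with `v² ≡ n mod 4 b^i` for every
  `i ≥ 1`: `v₁ = 1`; `v_(i+1) = v_i + 2 b^i z`. So `χ(u) = χ(v)² = 1`.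
* `b` odd: `u^(b^(J-1)) = 1` and `b^(J-1)` is odd.

Then as in `HPX/WQuad`: `χ` comes from `ψ` mod `b^(min 3 J)` (`factorsThrough_iff_ker_unitsMap`), `ψ ≠ 1`,
`LFunction χ = LFunction ψ` (`LFunction_changeLevel`: the Euler factors at the primes dividing `b` are trivial because
`ψ p = 0`), and `HPX.comp_ld` for each of the finitely many `ψ ≠ 1` mod `b`, `b²`, `b³`.
-/

namespace Pool.Agent.HPY

open Complex MeasureTheory Pool.Agent.HPZ
open Pool.Agent.HPP (Bp PP Gt lv)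

private theorem sq_step {b : ℤ} (hb : Even b) {n : ℤ} (h0 : b ^ 3 ∣ n - 1) (i : ℕ) :
    ∃ v : ℤ, IsCoprime v b ∧ 4 * b ^ (i + 1) ∣ v ^ 2 - n := by
  induction i with
  | zero =>
    refine ⟨1, isCoprime_one_left, ?_⟩
    have h1 : 4 * b ^ (0 + 1) ∣ b ^ 3 := by
      obtain ⟨c, rfl⟩ := hb
      exact ⟨c ^ 2, by ring⟩
    have h2 := h1.trans h0
    have h3 : (1 : ℤ) ^ 2 - n = -(n - 1) := by ring
    rw [h3, dvd_neg]
    exact h2
  | succ i ih =>
    obtain ⟨v, hv, c, hc⟩ := ih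
    obtain ⟨p, q, hpq⟩ := hv
    refine ⟨v + 2 * b ^ (i + 1) * (-c * p), ?_, ?_⟩
    · have h1 : v + 2 * b ^ (i + 1) * (-c * p) = v + b * (2 * b ^ i * (-c * p)) := by ring
      rw [h1]
      exact IsCoprime.add_mul_left_left ⟨p, q, hpq⟩ _
    · refine ⟨q * c + b ^ i * (c * p) ^ 2, ?_⟩
      linear_combination hc - 4 * b ^ (i + 1) * c * hpq

private theorem factors3 {b : ℕ} {J : ℕ} (hJ : 3 ≤ J) [NeZero (b ^ J)]
    {χ : DirichletCharacter ℂ (b ^ J)} (h2 : χ ^ 2 = 1) : χ.FactorsThrough (b ^ 3) := by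
  have hd : b ^ 3 ∣ b ^ J := pow_dvd_pow b hJ
  rw [DirichletCharacter.factorsThrough_iff_ker_unitsMap hd]
  intro x hx
  rw [MonoidHom.mem_ker] at hx ⊢
  have h8 : ∀ y : (ZMod (b ^ J))ˣ, (χ.toUnitHom y) ^ 2 = 1 := by
    intro y
    apply Units.ext
    push_cast
    rw [MulChar.coe_toUnitHom]
    have := congrArg (fun ψ : DirichletCharacter ℂ (b ^ J) => ψ (y : ZMod (b ^ J))) h2
    simp only [MulChar.one_apply_coe] at this
    rw [← this]
    exact (MulChar.pow_apply_coe χ 2 y).symm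
  set n : ℕ := (x : ZMod (b ^ J)).val with hn
  have e2 : ((n : ℕ) : ZMod (b ^ J)) = (x : ZMod (b ^ J)) := ZMod.natCast_zmod_val _
  have e4 : ((b : ℤ) ^ 3) ∣ (n : ℤ) - 1 := by
    have e1 : (ZMod.cast (x : ZMod (b ^ J)) : ZMod (b ^ 3)) = 1 := by
      have := congrArg (fun u : (ZMod (b ^ 3))ˣ => (u : ZMod (b ^ 3))) hx
      simpa [ZMod.unitsMap_val] using this
    have e3 : ((n : ℕ) : ZMod (b ^ 3)) = 1 := by
      rw [← e1, ← e2, ZMod.cast_natCast hd]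
    have e5 : ((b ^ 3 : ℕ) : ℤ) ∣ (n : ℤ) - 1 := by
      rw [← ZMod.intCast_zmod_eq_zero_iff_dvd]
      push_cast
      rw [e3, sub_self]
    push_cast at e5
    exact e5
  rcases Nat.even_or_odd b with hev | hodd
  · obtain ⟨v, hv, hc⟩ := sq_step (b := (b : ℤ)) (by exact_mod_cast hev) e4 (J - 1)
    have hJ1 : J - 1 + 1 = J := by omega
    rw [hJ1] at hc
    have hu : IsUnit ((v : ℤ) : ZMod (b ^ J)) := by
      rw [ZMod.coe_int_isUnit_iff_isCoprime]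
      push_cast
      exact hv.symm.pow_left
    obtain ⟨y, hy⟩ := hu
    have hxy : x = y ^ 2 := by
      apply Units.ext
      push_cast
      rw [hy, ← e2]
      have h5 : ((b ^ J : ℕ) : ℤ) ∣ (n : ℤ) - v ^ 2 := by
        have h6 : ((b : ℤ) ^ J) ∣ v ^ 2 - (n : ℤ) := (Dvd.intro_left 4 rfl).trans hc
        have h7 := (dvd_neg (α := ℤ)).2 h6
        rw [neg_sub] at h7
        push_cast
        exact h7
      have h6 := (ZMod.intCast_zmod_eq_zero_iff_dvd _ _).2 h5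
      push_cast at h6
      exact sub_eq_zero.1 h6
    rw [hxy, map_pow, h8 y]
  · have h1 : (b : ZMod (b ^ J)) ∣ (x : ZMod (b ^ J)) - 1 := by
      obtain ⟨c, hc⟩ := e4
      refine ⟨(b : ZMod (b ^ J)) ^ 2 * (c : ZMod (b ^ J)), ?_⟩
      have e5 := congrArg (fun z : ℤ => (z : ZMod (b ^ J))) hc
      push_cast at e5
      rw [← e2, e5]
      ring
    have h4 := dvd_sub_pow_of_dvd_sub h1 (J - 1)
    have h5 : ((b : ZMod (b ^ J)) ^ (J - 1 + 1)) = 0 := by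
      have : J - 1 + 1 = J := by omega
      rw [this]
      have h6 : ((b ^ J : ℕ) : ZMod (b ^ J)) = 0 := ZMod.natCast_self _
      push_cast at h6
      exact h6
    rw [h5, zero_dvd_iff, one_pow, sub_eq_zero] at h4
    have h6 : x ^ b ^ (J - 1) = 1 := by
      apply Units.ext
      push_cast
      exact h4
    have h7 : (χ.toUnitHom x) ^ b ^ (J - 1) = 1 := by
      rw [← map_pow, h6, map_one]
    have h9 : orderOf (χ.toUnitHom x) ∣ 1 := by
      have g1 := orderOf_dvd_of_pow_eq_one h7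
      have g2 := orderOf_dvd_of_pow_eq_one (h8 x)
      have hodd' : Nat.Coprime (b ^ (J - 1)) 2 :=
        Nat.Coprime.pow_left _ (Nat.coprime_two_right.2 hodd)
      have g3 := Nat.dvd_gcd g1 g2
      rwa [hodd'] at g3
    exact orderOf_eq_one_iff.1 (Nat.dvd_one.1 h9)

private theorem lev_const {q : ℕ} [NeZero q] : ∃ C : ℝ, 1 ≤ C ∧
    ∀ ψ : DirichletCharacter ℂ q, ψ ≠ 1 → ∀ s : ℂ, 1 - 1 / C ≤ s.re → s.re ≤ 2 → |s.im| ≤ 2 →
      DirichletCharacter.LFunction ψ s ≠ 0 ∧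
      ‖deriv (DirichletCharacter.LFunction ψ) s / DirichletCharacter.LFunction ψ s‖ ≤ C := by
  classical
  have hex : ∀ ψ : DirichletCharacter ℂ q, ∃ C : ℝ, 1 ≤ C ∧ (ψ ≠ 1 → ∀ s : ℂ, 1 - 1 / C ≤ s.re →
      s.re ≤ 2 → |s.im| ≤ 2 →
      DirichletCharacter.LFunction ψ s ≠ 0 ∧
      ‖deriv (DirichletCharacter.LFunction ψ) s / DirichletCharacter.LFunction ψ s‖ ≤ C) := by
    intro ψ
    by_cases hψ : ψ = 1
    · exact ⟨1, le_refl _, fun h => absurd hψ h⟩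
    · obtain ⟨C, hC1, hC⟩ := HPX.comp_ld (Z := DirichletCharacter.LFunction ψ)
        (DirichletCharacter.differentiable_LFunction hψ)
        (fun s hs _ _ => DirichletCharacter.LFunction_ne_zero_of_one_le_re ψ (Or.inl hψ) hs)
      exact ⟨C, hC1, fun _ => hC⟩
  choose D hD1 hD using hex
  have hfin : Fintype (DirichletCharacter ℂ q) := Fintype.ofFinite _
  have hle : ∀ ψ, D ψ ≤ ∑ ψ, D ψ := fun ψ =>
    Finset.single_le_sum (f := D) (fun i _ => zero_le_one.trans (hD1 i)) (Finset.mem_univ ψ)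
  refine ⟨∑ ψ, D ψ, (hD1 1).trans (hle 1), fun ψ hψ s hs1 hs2 hs3 => ?_⟩
  have hDpos : 0 < D ψ := lt_of_lt_of_le one_pos (hD1 ψ)
  obtain ⟨g1, g2⟩ := hD ψ hψ s (by
    have : 1 / (∑ ψ, D ψ) ≤ 1 / D ψ := one_div_le_one_div_of_le hDpos (hle ψ)
    linarith) hs2 hs3
  exact ⟨g1, g2.trans (hle ψ)⟩

theorem quadN (b : ℕ) [NeZero b] (hb : 2 ≤ b) : ∃ C : ℝ, 1 ≤ C ∧
    ∀ J : ℕ, 1 ≤ J → ∀ χ : DirichletCharacter ℂ (b ^ J), χ ≠ 1 → χ ^ 2 = 1 →
    ∀ s : ℂ, 1 - 1 / C ≤ s.re → s.re ≤ 2 → |s.im| ≤ 2 →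
      DirichletCharacter.LFunction χ s ≠ 0 ∧
      ‖deriv (DirichletCharacter.LFunction χ) s / DirichletCharacter.LFunction χ s‖ ≤ C := by
  have hNZ : ∀ e : ℕ, NeZero (b ^ e) := fun e => ⟨pow_ne_zero _ (NeZero.ne b)⟩
  have hex : ∀ e : ℕ, ∃ C : ℝ, 1 ≤ C ∧
      ∀ ψ : DirichletCharacter ℂ (b ^ e), ψ ≠ 1 → ∀ s : ℂ, 1 - 1 / C ≤ s.re → s.re ≤ 2 →
      |s.im| ≤ 2 → DirichletCharacter.LFunction ψ s ≠ 0 ∧
      ‖deriv (DirichletCharacter.LFunction ψ) s / DirichletCharacter.LFunction ψ s‖ ≤ C := by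
    intro e
    haveI := hNZ e
    exact lev_const
  choose D hD1 hD using hex
  have hle : ∀ e ≤ 3, D e ≤ ∑ i ∈ Finset.range 4, D i := fun e he =>
    Finset.single_le_sum (f := D) (fun i _ => zero_le_one.trans (hD1 i))
      (Finset.mem_range.2 (by omega))
  refine ⟨∑ i ∈ Finset.range 4, D i, (hD1 0).trans (hle 0 (by omega)),
    fun J hJ χ hχ h2 s hs1 hs2 hs3 => ?_⟩
  haveI := hNZ J
  obtain ⟨e, he1, he3, hf⟩ : ∃ e : ℕ, 1 ≤ e ∧ e ≤ 3 ∧ χ.FactorsThrough (b ^ e) := by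
    by_cases h : 3 ≤ J
    · exact ⟨3, by omega, le_refl _, factors3 h h2⟩
    · exact ⟨J, hJ, by omega, DirichletCharacter.FactorsThrough.same_level χ⟩
  haveI := hNZ e
  set ψ := hf.χ₀ with hψdef
  have hψ : ψ ≠ 1 := by
    intro h
    apply hχ
    rw [hf.eq_changeLevel, ← hψdef, h, DirichletCharacter.changeLevel_one]
  have hL : DirichletCharacter.LFunction χ = DirichletCharacter.LFunction ψ := by
    funext z
    have e1 := DirichletCharacter.LFunction_changeLevel hf.dvd ψ (s := z) (Or.inl hψ)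
    have e2 : χ = DirichletCharacter.changeLevel hf.dvd ψ := hf.eq_changeLevel
    rw [← e2] at e1
    rw [e1, Finset.prod_eq_one, mul_one]
    intro p hp
    have e3 : ψ (p : ZMod (b ^ e)) = 0 := by
      refine ψ.map_nonunit ?_
      rw [ZMod.isUnit_iff_coprime]
      intro h
      have hp1 := Nat.prime_of_mem_primeFactors hp
      have hp2 := Nat.dvd_of_mem_primeFactors hp
      have hp3 : p ∣ b := hp1.dvd_of_dvd_pow hp2
      have hp4 : p ∣ b ^ e := hp3.trans (dvd_pow_self b (by omega))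
      exact hp1.one_lt.ne' (Nat.Coprime.eq_one_of_dvd h hp4)
    rw [e3, zero_mul, sub_zero]
  rw [hL]
  have hDpos : 0 < D e := lt_of_lt_of_le one_pos (hD1 e)
  obtain ⟨g1, g2⟩ := hD e ψ hψ s (by
    have : 1 / (∑ i ∈ Finset.range 4, D i) ≤ 1 / D e :=
      one_div_le_one_div_of_le hDpos (hle e he3)
    linarith) hs2 hs3
  exact ⟨g1, g2.trans (hle e he3)⟩

end Pool.Agent.HPY
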