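import Pool.Agent.HPZ.Prime
import Pool.Agent.HPZ.ACount
import Pool.Agent.HPY.SLin
import Pool.Agent.HPY.SPrd
import Pool.Agent.HPY.SAvg
import Pool.Agent.HPY.S1
import Pool.Agent.HPY.S2
import Pool.Agent.HPY.SFin
import Pool.Agent.HPY.WQuad
import Pool.Agent.HPY.WFin
import Pool.Agent.HPY.MMain
import Pool.Agent.HPY.RDefs
import Pool.Agent.HPY.RLow
import Pool.Agent.HPY.RMid
import Pool.Agent.HPY.RHigh
import Pool.Agent.HPY.RFin
import Pool.Agent.HPY.Asm
import Pool.Agent.HPX.QFin
import Pool.Agent.HPX.WFin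
import Pool.Agent.HPP.LPV

/-!
# HPY/Fin: the final statement (every base, no exceptional positions)
-/

namespace Pool.Agent.HPY

open Pool.Agent

theorem supP : SupN := supN (sup1 sLinN sPrdN sAvgN) sup2

theorem errP : ErrN := errN rSplitN (supM_of supP) (rLowN (swN fun b => quadN b) HPX.pnt_prop)
  (rMidN (HPX.low_prop HPP.pv_prop)) (rHighN HPZ.primeP)

theorem finN : FinalN := assemblyN (mainN HPX.pnt_prop) HPZ.countZ errP

end Pool.Agent.HPY
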