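import Pool.Agent.HPZ.Iface
import Pool.Agent.HPX.Iface
import Pool.Agent.HPP.ALev

/-!
# HPY/Iface: EVERY base `b ≥ 2`, NO exceptional positions, all `m ≤ (5/18 - ε) k` (MP_e8d2ce_nt)

Target `FinalN`: for every `b ≥ 2`, `ε > 0` there is `c > 0` such that for all large `k` and all
`m ≤ (5/18 - ε) k` at least `c b^(k-m) / k` primes with exactly `k` digits satisfy `d_i = d_(k-1-i)` for all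
`i < m` (the right order of magnitude).

Patterns: `HPZ.RR b p m ∅` (all positions `1 ≤ i < m` matched, full digit sets). `x = b^(k-1)`,
`T = b^(m + m / r)` (natural division), `mx χ t = max (b^(lv χ)) |t|`, `lv χ` the exact level (`HPP/ALev`).
-/

namespace Pool.Agent.HPY

open Complex MeasureTheory Pool.Agent.HPZ
open Pool.Agent.HPP (Bp PP Gt lv)

/-! ## statements -/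

/-- all terms but the trivial character with `|t| < log x` -/
noncomputable def E2 (b p m k r : ℕ) (V : ℝ → ℝ) : ℝ :=
  ∑ χ : DirichletCharacter ℂ (b ^ m),
    ∫ t in Gt χ (Real.log ((b : ℝ) ^ (k - 1))) ((b : ℝ) ^ (m + m / r)),
      ‖cc b p ∅ V χ t‖ * ‖PP χ t ((b : ℝ) ^ (k - 1))‖

/-- (S) pointwise bound: `χ` of exact level `m'` (or any `χ` mod `b` for `m' = 1`) -/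
def SupN : Prop := ∀ b : ℕ, 2 ≤ b → ∃ C δ : ℝ, 1 ≤ C ∧ 0 < δ ∧ δ ≤ 1 / 10 ∧
  ∀ (p m m' : ℕ) (V : ℝ → ℝ) (K : ℝ), Bas b p → (∀ y, 0 ≤ V y ∧ V y ≤ 1) → 0 ≤ K →
  (∀ y z, |V y - V z| ≤ K * |y - z|) → 1 ≤ m' → m' ≤ m →
  ∀ χ : DirichletCharacter ℂ (b ^ m), χ.FactorsThrough (b ^ m') →
  (2 ≤ m' → ¬ χ.FactorsThrough (b ^ (m' - 1))) → ∀ t : ℝ, |t| ≤ (b : ℝ) ^ (m + m / 8) →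
  ‖cc b p ∅ V χ t‖ ≤ C * (1 + K) * m * (max ((b : ℝ) ^ m') |t|) ^ (-δ) * (RR b p m ∅).card

/-- (M) main term -/
def MainN : Prop := ∀ V₀ η : ℝ → ℝ, Bp V₀ η → (∀ y, 1 / 4 ≤ y → y ≤ 3 / 4 → V₀ y = 1) →
  ∀ b p : ℕ, Bas b p → ∃ c₀ : ℝ, 0 < c₀ ∧ ∀ r : ℕ, 1 ≤ r → ∃ m₀ : ℕ, ∀ m : ℕ, m₀ ≤ m → ∀ k : ℕ,
  2 * m ≤ k →
  c₀ * ((RR b p m ∅).card * (b : ℝ) ^ (k - 1) / ((b : ℝ) ^ m * (b ^ m).totient)) ≤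
    SSum b p m k ∅ (fun y => V₀ (y - p)) η +
    E2 b p m k r (fun y => V₀ (y - p)) / ((b : ℝ) ^ m * (b ^ m).totient)

/-- (R) all error terms -/
def ErrN : Prop := ∀ V₀ η : ℝ → ℝ, Bp V₀ η → ∀ b p : ℕ, Bas b p → ∀ ε : ℝ, 0 < ε →
  ∃ r₀ : ℕ, ∀ r : ℕ, r₀ ≤ r → ∀ ε' : ℝ, 0 < ε' → ∃ k₀ : ℕ, ∀ k : ℕ, k₀ ≤ k → ∀ m : ℕ, 1 ≤ m →
  (m : ℝ) ≤ (5 / 18 - ε) * k →
  E2 b p m k r (fun y => V₀ (y - p)) ≤ ε' * (RR b p m ∅).card * (b : ℝ) ^ (k - 1)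

/-- the final statement -/
def FinalN : Prop := ∀ b : ℕ, 2 ≤ b → ∀ ε : ℝ, 0 < ε → ∃ c : ℝ, 0 < c ∧ ∃ k₀ : ℕ, ∀ k : ℕ, k₀ ≤ k →
  ∀ m : ℕ, (m : ℝ) ≤ (5 / 18 - ε) * k →
  c * (b : ℝ) ^ (k - m) / k ≤ (((Finset.range (b ^ k)).filter fun n => n.Prime ∧
    b ^ (k - 1) ≤ n ∧ ∀ i < m,
      (Nat.digits b n).getD i 0 = (Nat.digits b n).getD (k - 1 - i) 0).card : ℝ)

/-- assembly -/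
def AssemblyN : Prop := MainN → CountProp → ErrN → FinalN

/-! ## parts of S -/

/-- (S1) `|t| ≤ b^(3 m' / 2)` -/
def Sup1 : Prop := ∀ b : ℕ, 2 ≤ b → ∃ C δ : ℝ, 1 ≤ C ∧ 0 < δ ∧
  ∀ (p m m' : ℕ) (V : ℝ → ℝ) (K : ℝ), Bas b p → (∀ y, 0 ≤ V y ∧ V y ≤ 1) → 0 ≤ K →
  (∀ y z, |V y - V z| ≤ K * |y - z|) → 16 ≤ m' → m' ≤ m →
  ∀ χ : DirichletCharacter ℂ (b ^ m), χ.FactorsThrough (b ^ m') →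
  ¬ χ.FactorsThrough (b ^ (m' - 1)) → ∀ t : ℝ, |t| ≤ (b : ℝ) ^ (3 / 2 * (m' : ℝ)) →
  ‖cc b p ∅ V χ t‖ ≤ C * (1 + K) * (b : ℝ) ^ (-(δ * m')) * (RR b p m ∅).card

/-- (S2) the block `[i, i + l)` is matched, `χ` has level `≤ i` -/
def Sup2 : Prop := ∃ C : ℝ, 1 ≤ C ∧ ∀ (b p m i l : ℕ) (V : ℝ → ℝ) (K : ℝ),
  Bas b p → (∀ y, 0 ≤ V y ∧ V y ≤ 1) → 0 ≤ K →
  (∀ y z, |V y - V z| ≤ K * |y - z|) → 1 ≤ i → i + l ≤ m →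
  ∀ χ : DirichletCharacter ℂ (b ^ m), χ.FactorsThrough (b ^ i) → ∀ t : ℝ,
  (b : ℝ) ^ (i + l) ≤ |t| → |t| ≤ (b : ℝ) ^ (2 * i) →
  ‖cc b p ∅ V χ t‖ ≤ C * (1 + K) * (m * Real.log b + 1) * b ^ 3 * ((b : ℝ) ^ l)⁻¹ *
    (RR b p m ∅).card

/-! ## parts of W -/

/-- (W) Siegel-Walfisz with the Gaussian weight, moduli `b ^ J ≤ (log x)^A`, every `b ≥ 2` -/
def SWN : Prop := ∀ b : ℕ, 2 ≤ b → ∀ A : ℝ, 1 ≤ A → ∃ x₀ : ℝ, ∀ x : ℝ, x₀ ≤ x →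
  ∀ J : ℕ, 1 ≤ J → (b : ℝ) ^ J ≤ (Real.log x) ^ A → ∀ χ : DirichletCharacter ℂ (b ^ J), χ ≠ 1 →
  ∀ t : ℝ, |t| ≤ (Real.log x) ^ A → ‖PP χ t x‖ ≤ x * Real.exp (-Real.sqrt (Real.log x))

/-! ## parts of R -/

noncomputable def mx {b m : ℕ} (χ : DirichletCharacter ℂ (b ^ m)) (t : ℝ) : ℝ :=
  max ((b : ℝ) ^ lv χ) |t|

open Classical in
/-- low part -/
noncomputable def R1 (b p m J₁ : ℕ) (V : ℝ → ℝ) (x : ℝ) : ℝ :=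
  ∑ χ ∈ (Finset.univ : Finset (DirichletCharacter ℂ (b ^ m))).filter (fun χ => lv χ ≤ J₁),
    ∫ t in Gt χ (Real.log x) ((b : ℝ) ^ J₁), ‖cc b p ∅ V χ t‖ * ‖PP χ t x‖

open Classical in
/-- one middle cell -/
noncomputable def R2 (b p m j : ℕ) (V : ℝ → ℝ) (x T : ℝ) : ℝ :=
  ∑ χ ∈ (Finset.univ : Finset (DirichletCharacter ℂ (b ^ m))).filter (fun χ => lv χ ≤ j),
    ∫ t in Gt χ (Real.log x) T ∩ {t | |t| ≤ (b : ℝ) ^ (j + 1) ∧ (b : ℝ) ^ j ≤ mx χ t},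
      ‖cc b p ∅ V χ t‖ * ‖PP χ t x‖

/-- high part -/
noncomputable def R3 (b p m J₂ : ℕ) (V : ℝ → ℝ) (x T : ℝ) : ℝ :=
  ∑ χ : DirichletCharacter ℂ (b ^ m),
    ∫ t in {t | |t| ≤ T ∧ (b : ℝ) ^ J₂ ≤ mx χ t}, ‖cc b p ∅ V χ t‖ * ‖PP χ t x‖

/-- the split -/
def RSplitN : Prop := ∀ (b p m J₁ J₂ : ℕ) (V : ℝ → ℝ) (x T : ℝ), Bas b p → 1 ≤ m → J₁ ≤ J₂ →
  1 ≤ x → 0 < T →
  ∑ χ : DirichletCharacter ℂ (b ^ m), ∫ t in Gt χ (Real.log x) T,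
      ‖cc b p ∅ V χ t‖ * ‖PP χ t x‖ ≤
    R1 b p m J₁ V x + ∑ j ∈ Finset.Ico J₁ J₂, R2 b p m j V x T + R3 b p m J₂ V x T

/-- the sup bound in terms of `mx` -/
def SupM (b : ℕ) (C δ : ℝ) : Prop := ∀ (p m : ℕ) (V : ℝ → ℝ) (K : ℝ), Bas b p →
  (∀ y, 0 ≤ V y ∧ V y ≤ 1) → 0 ≤ K → (∀ y z, |V y - V z| ≤ K * |y - z|) → 1 ≤ m →
  ∀ χ : DirichletCharacter ℂ (b ^ m), ∀ t : ℝ, |t| ≤ (b : ℝ) ^ (m + m / 8) →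
  ‖cc b p ∅ V χ t‖ ≤ C * (1 + K) * m * (mx χ t) ^ (-δ) * (RR b p m ∅).card

/-- (RLow) -/
def RLowN : Prop := ∀ b : ℕ, 2 ≤ b → ∀ A₁ : ℝ, 1 ≤ A₁ → ∀ ε : ℝ, 0 < ε →
  ∃ x₀ : ℝ, ∀ x : ℝ, x₀ ≤ x → ∀ (p m J₁ : ℕ) (V : ℝ → ℝ), Bas b p → (∀ y, 0 ≤ V y ∧ V y ≤ 1) →
  1 ≤ m → 1 ≤ J₁ → (b : ℝ) ^ J₁ ≤ (Real.log x) ^ A₁ →
  R1 b p m J₁ V x ≤ ε * (RR b p m ∅).card * x

/-- (RMid); `m ≤ log x / log b` holds in the application -/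
def RMidN : Prop := ∀ b : ℕ, 2 ≤ b → ∀ C δ : ℝ, 1 ≤ C → 0 < δ → SupM b C δ →
  ∃ A₂ : ℝ, 1 ≤ A₂ ∧ ∀ K : ℝ, 0 ≤ K → ∀ ε : ℝ, 0 < ε → ∃ x₀ : ℝ, ∀ x : ℝ, x₀ ≤ x →
  ∀ (p m J₁ J₂ : ℕ) (V : ℝ → ℝ) (T : ℝ), Bas b p →
  (∀ y, 0 ≤ V y ∧ V y ≤ 1) → (∀ y z, |V y - V z| ≤ K * |y - z|) → 1 ≤ m → (b : ℝ) ^ m ≤ x →
  1 ≤ J₁ → J₁ ≤ J₂ → (b : ℝ) ^ J₂ ≤ x ^ (1 / 100 : ℝ) → (Real.log x) ^ A₂ ≤ (b : ℝ) ^ J₁ → 0 < T →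
  T ≤ (b : ℝ) ^ (m + m / 8) →
  ∑ j ∈ Finset.Ico J₁ J₂, R2 b p m j V x T ≤ ε * (RR b p m ∅).card * x

/-- (RHigh) -/
def RHighN : Prop := ∀ b : ℕ, 2 ≤ b → ∀ C δ : ℝ, 1 ≤ C → 0 < δ → SupM b C δ → ∀ K : ℝ, 0 ≤ K →
  ∀ ε : ℝ, 0 < ε → ∃ r₀ : ℕ, 8 ≤ r₀ ∧ ∀ r : ℕ, r₀ ≤ r → ∀ ε' : ℝ, 0 < ε' → ∃ k₀ : ℕ, ∀ k : ℕ, k₀ ≤ k →
  ∀ (p m : ℕ) (V : ℝ → ℝ), Bas b p → (∀ y, 0 ≤ V y ∧ V y ≤ 1) →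
  (∀ y z, |V y - V z| ≤ K * |y - z|) → 1 ≤ m → (m : ℝ) ≤ (5 / 18 - ε) * k →
  R3 b p m ((k - 1) / 101) V ((b : ℝ) ^ (k - 1)) ((b : ℝ) ^ (m + m / r)) ≤
    ε' * (RR b p m ∅).card * (b : ℝ) ^ (k - 1)

end Pool.Agent.HPY
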