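import Pool.Agent.HPY.Iface
import Pool.Agent.HPZ.AExp
import Pool.Agent.HPP.VAux

set_option autoImplicit false

/-!
# HPY/MTail: the part `|t| > T`, `T = b^(m + m / r)` (as `HPX/MTail`)

`‖itg‖ ≤ D C #RR b^(k-1) Y^(-j) (1 + (t/b^m)²)⁻¹` for `|t| ≥ Y b^m`, `Y = b^(m/r)` (`HPP.eh_decay` with `j + 2`, `HPP.PP_bound`,
`cc_le`); the integral of the last factor is `π b^m`, `φ(b^m) ≤ b^m` characters; `j = 6 r`: `Y^(6r) ≥ b^(3m)` for `m ≥ r`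
(`m / r ≥ m / (2 r)`), so the total is `≤ D C π #RR b^(k-1) b^(2m) b^(-3m) → 0`.
-/

namespace Pool.Agent.HPY

open Complex MeasureTheory Pool.Agent.HPZ
open Pool.Agent.HPP (Bp PP Gt lv eh eh_decay PP_bound ax_Hnorm card_char_le)

private theorem mt_itg {η : ℝ → ℝ} {b p m k : ℕ} (hb : Bas b p) (hm : 1 ≤ m) (F : Finset ℕ)
    {V : ℝ → ℝ} (hV : ∀ y, 0 ≤ V y ∧ V y ≤ 1) {C D : ℝ} {j : ℕ} (hC : ∀ (Q : ℕ)
    (χ : DirichletCharacter ℂ Q) (t x : ℝ), 1 ≤ x → ‖PP χ t x‖ ≤ C * x) (hC0 : 0 ≤ C)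
    (hD : ∀ t, ‖eh η t‖ ≤ D / (1 + |t|) ^ (j + 2)) (hD0 : 0 ≤ D)
    (χ : DirichletCharacter ℂ (b ^ m)) {t Y : ℝ} (hY : 1 ≤ Y)
    (ht : Y * (b : ℝ) ^ m ≤ |t|) :
    ‖itg b p m k F V η χ t‖ ≤
      (D * C * ((RR b p m F).card * (b : ℝ) ^ (k - 1)) * (Y ^ j)⁻¹) *
        (1 + (t / (b : ℝ) ^ m) ^ 2)⁻¹ := by
  have hb1 : (1 : ℝ) ≤ b := by exact_mod_cast (by have := hb.two; omega : 1 ≤ b)
  have hb0 : 0 < b := by have := hb.two; omega
  have hq : (0 : ℝ) < (b : ℝ) ^ m := by positivity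
  have hx1 : (1 : ℝ) ≤ (b : ℝ) ^ (k - 1) := one_le_pow₀ hb1
  unfold itg
  rw [norm_mul, norm_mul, norm_mul, ax_Hnorm hb0, mul_one]
  have h1 := hD (t / (b : ℝ) ^ m)
  have h2 := cc_le hb hm F hV χ t
  have h3 := hC (b ^ m) χ t ((b : ℝ) ^ (k - 1)) hx1
  have h4 : Y ≤ |t / (b : ℝ) ^ m| := by
    rw [abs_div, abs_of_pos hq, le_div_iff₀ hq]; exact ht
  have h5 : Y ^ j * (1 + (t / (b : ℝ) ^ m) ^ 2) ≤ (1 + |t / (b : ℝ) ^ m|) ^ (j + 2) := by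
    rw [pow_add]
    refine mul_le_mul (pow_le_pow_left₀ (by linarith) (by linarith) _) ?_ (by positivity)
      (by positivity)
    rw [← sq_abs (t / (b : ℝ) ^ m)]
    nlinarith [abs_nonneg (t / (b : ℝ) ^ m)]
  have h6 : D / (1 + |t / (b : ℝ) ^ m|) ^ (j + 2) ≤
      D * ((Y ^ j)⁻¹ * (1 + (t / (b : ℝ) ^ m) ^ 2)⁻¹) := by
    rw [div_eq_mul_inv, ← mul_inv]
    refine mul_le_mul_of_nonneg_left (inv_anti₀ (by positivity) h5) hD0
  calc ‖eh η (t / (b : ℝ) ^ m)‖ * (‖cc b p F V χ t‖ * ‖PP χ t ((b : ℝ) ^ (k - 1))‖)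
      ≤ (D * ((Y ^ j)⁻¹ * (1 + (t / (b : ℝ) ^ m) ^ 2)⁻¹)) *
        ((RR b p m F).card * (C * (b : ℝ) ^ (k - 1))) :=
        mul_le_mul (h1.trans h6) (mul_le_mul h2 h3 (norm_nonneg _) (by positivity))
          (by positivity) (by positivity)
    _ = _ := by ring

theorem tail_le {V₀ η : ℝ → ℝ} (hB : Bp V₀ η) {b p : ℕ} (hb : Bas b p) (r : ℕ) (hr : 1 ≤ r) {V : ℝ → ℝ}
    (hV : ∀ y, 0 ≤ V y ∧ V y ≤ 1) {ε : ℝ} (hε : 0 < ε) : ∃ m₀ : ℕ, ∀ m : ℕ, m₀ ≤ m → ∀ k : ℕ,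
    2 * m ≤ k →
    ∑ χ : DirichletCharacter ℂ (b ^ m),
      ∫ t in {t : ℝ | (b : ℝ) ^ (m + m / r) < |t|},
        ‖itg b p m k ∅ V η χ t‖ ≤
    ε * ((RR b p m ∅).card * (b : ℝ) ^ (k - 1)) := by
  obtain ⟨C, hC1, hC⟩ := PP_bound
  obtain ⟨D, hD0, hD⟩ := eh_decay hB (6 * r + 2)
  have hbt := hb.two
  have hb1 : (1 : ℝ) ≤ b := by exact_mod_cast (by omega : 1 ≤ b)
  have hb2 : (2 : ℝ) ≤ b := by exact_mod_cast (by omega : 2 ≤ b)
  have hC0 : 0 ≤ C := by linarith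
  set K : ℝ := Real.pi * D * C / ε with hK
  obtain ⟨n₀, hn₀⟩ := pow_unbounded_of_one_lt K (by norm_num : (1 : ℝ) < 2)
  refine ⟨n₀ + r + 1, fun m hm k _ => ?_⟩
  have hm1 : 1 ≤ m := by omega
  have hq : (0 : ℝ) < (b : ℝ) ^ m := by positivity
  set R : ℝ := (RR b p m ∅).card * (b : ℝ) ^ (k - 1) with hR
  have hR0 : 0 ≤ R := by positivity
  set Y : ℝ := (b : ℝ) ^ (m / r) with hY
  have hY1 : 1 ≤ Y := one_le_pow₀ hb1
  set A : ℝ := D * C * R * (Y ^ (6 * r))⁻¹ with hA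
  have hA0 : 0 ≤ A := by positivity
  have hint : Integrable fun t : ℝ => A * (1 + (t / (b : ℝ) ^ m) ^ 2)⁻¹ :=
    (integrable_inv_one_add_sq.comp_div hq.ne').const_mul A
  have hone : ∀ χ : DirichletCharacter ℂ (b ^ m),
      ∫ t in {t : ℝ | (b : ℝ) ^ (m + m / r) < |t|}, ‖itg b p m k ∅ V η χ t‖ ≤
        A * ((b : ℝ) ^ m * Real.pi) := by
    intro χ
    have hmeas : MeasurableSet {t : ℝ | (b : ℝ) ^ (m + m / r) < |t|} :=
      measurableSet_lt measurable_const measurable_id.abs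
    calc ∫ t in {t : ℝ | (b : ℝ) ^ (m + m / r) < |t|}, ‖itg b p m k ∅ V η χ t‖
        ≤ ∫ t in {t : ℝ | (b : ℝ) ^ (m + m / r) < |t|}, A * (1 + (t / (b : ℝ) ^ m) ^ 2)⁻¹ := by
          refine integral_mono_of_nonneg (Filter.Eventually.of_forall fun t => norm_nonneg _)
            hint.integrableOn ?_
          refine (ae_restrict_iff' hmeas).2 (Filter.Eventually.of_forall fun t ht => ?_)
          refine mt_itg hb hm1 ∅ hV hC hC0 hD hD0 χ hY1 ?_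
          have ht' : (b : ℝ) ^ (m + m / r) < |t| := ht
          rw [pow_add, mul_comm] at ht'
          exact ht'.le
      _ ≤ ∫ t : ℝ, A * (1 + (t / (b : ℝ) ^ m) ^ 2)⁻¹ :=
          setIntegral_le_integral hint (Filter.Eventually.of_forall fun t => by
            show 0 ≤ A * (1 + (t / (b : ℝ) ^ m) ^ 2)⁻¹
            positivity)
      _ = A * ((b : ℝ) ^ m * Real.pi) := by
          rw [integral_const_mul, Measure.integral_comp_div (fun s : ℝ => (1 + s ^ 2)⁻¹),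
            integral_univ_inv_one_add_sq, abs_of_pos hq, smul_eq_mul]
  have hbm1 : 1 ≤ b ^ m := Nat.one_le_pow _ _ (by omega)
  have hcard : (Fintype.card (DirichletCharacter ℂ (b ^ m)) : ℝ) ≤ (b : ℝ) ^ m := by
    have := card_char_le hbm1
    push_cast at this
    exact this
  have hkey : (b : ℝ) ^ m * (b : ℝ) ^ m * (Y ^ (6 * r))⁻¹ ≤ ((2 : ℝ) ^ n₀)⁻¹ := by
    have h1 : (b : ℝ) ^ m * (b : ℝ) ^ m * (b : ℝ) ^ m ≤ Y ^ (6 * r) := by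
      rw [hY, ← pow_mul, ← pow_add, ← pow_add]
      refine pow_le_pow_right₀ hb1 ?_
      have h2 : r * (m / r) + m % r = m := Nat.div_add_mod m r
      have h3 : m % r < r := Nat.mod_lt _ (by omega)
      have h4 : 1 ≤ m / r := (Nat.le_div_iff_mul_le (by omega)).2 (by omega)
      have h5 : r ≤ r * (m / r) := Nat.le_mul_of_pos_right _ h4
      calc m + m + m ≤ 6 * (r * (m / r)) := by omega
        _ = m / r * (6 * r) := by ring
    have h2 : (2 : ℝ) ^ n₀ ≤ (b : ℝ) ^ m := by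
      calc (2 : ℝ) ^ n₀ ≤ (b : ℝ) ^ n₀ := pow_le_pow_left₀ (by norm_num) hb2 _
        _ ≤ (b : ℝ) ^ m := pow_le_pow_right₀ hb1 (by omega)
    rw [← div_eq_mul_inv, ← one_div, div_le_div_iff₀ (by positivity) (by positivity), one_mul]
    calc (b : ℝ) ^ m * (b : ℝ) ^ m * (2 : ℝ) ^ n₀ ≤ (b : ℝ) ^ m * (b : ℝ) ^ m * (b : ℝ) ^ m :=
          mul_le_mul_of_nonneg_left h2 (by positivity)
      _ ≤ _ := h1
  calc ∑ χ : DirichletCharacter ℂ (b ^ m),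
        ∫ t in {t : ℝ | (b : ℝ) ^ (m + m / r) < |t|}, ‖itg b p m k ∅ V η χ t‖
      ≤ ∑ _χ : DirichletCharacter ℂ (b ^ m), A * ((b : ℝ) ^ m * Real.pi) :=
        Finset.sum_le_sum fun χ _ => hone χ
    _ = Fintype.card (DirichletCharacter ℂ (b ^ m)) * (A * ((b : ℝ) ^ m * Real.pi)) := by
        rw [Finset.sum_const, Finset.card_univ, nsmul_eq_mul]
    _ ≤ (b : ℝ) ^ m * (A * ((b : ℝ) ^ m * Real.pi)) :=
        mul_le_mul_of_nonneg_right hcard (by positivity)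
    _ = Real.pi * D * C * R * ((b : ℝ) ^ m * (b : ℝ) ^ m * (Y ^ (6 * r))⁻¹) := by
        rw [hA]; ring
    _ ≤ Real.pi * D * C * R * ((2 : ℝ) ^ n₀)⁻¹ :=
        mul_le_mul_of_nonneg_left hkey (by positivity)
    _ = R * ((K * ε) * ((2 : ℝ) ^ n₀)⁻¹) := by
        rw [hK, div_mul_cancel₀ _ hε.ne']; ring
    _ ≤ R * ε := by
        refine mul_le_mul_of_nonneg_left ?_ hR0
        have h2 : (0 : ℝ) < 2 ^ n₀ := by positivity
        rw [← div_eq_mul_inv, div_le_iff₀ h2]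
        nlinarith
    _ = ε * R := mul_comm _ _

end Pool.Agent.HPY
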