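import Pool.Agent.HPY.SDefs
import Pool.Agent.HPX.SBas
import Pool.Agent.HPX.SRR
import Pool.Agent.HPZ.EBas
import Pool.Agent.HPZ.DChr

/-!
# HPY/SBas: digit strings as numbers, the sum over patterns as a sum over `Dg` (port of `HPX/SBas`, `HPX/SRR`)

The lemmas of `HPX/SBas` on `Ds`, `dg`, `yv`, `iv` for general digit sets are reused by import. Here are those on
`Dt, Dg, Zg, RR` (same names, namespace `HPY`).
-/

namespace Pool.Agent.HPY

open Complex MeasureTheory Pool.Agent.HPZ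
open Pool.Agent.HPP (Bp PP Gt lv)

open Pool.Agent.HPX (Ds dg yv iv nd th)

/-! ### `Dt`, `Zg`, `Dg` -/

lemma hZ (b : ℕ) : ∀ _ : ℕ, Finset.range b ⊆ Finset.range b := fun _ => Finset.Subset.refl _

lemma hDt {b p : ℕ} (hp : p < b) : ∀ i : ℕ, Dt b p i ⊆ Finset.range b := by
  intro i
  unfold Dt
  split_ifs
  · simpa using hp
  · exact hZ b 0

lemma Zg_lt {b L z : ℕ} (h : z ∈ Zg b L) : z < b ^ L := HPX.Ds_lt (hZ b) h

lemma Dg_lt {b p s : ℕ} (hp : p < b) {z : ℕ} (h : z ∈ Dg b p s) : z < b ^ s :=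
  HPX.Ds_lt (hDt hp) h

lemma card_Zg {b L : ℕ} : (Zg b L).card = b ^ L := by
  rw [Zg, HPX.card_Ds (hZ b)]; simp

/-- all strings of length `L` are all numbers below `b ^ L` -/
lemma Zg_eq {b L : ℕ} : Zg b L = Finset.range (b ^ L) := by
  refine Finset.eq_of_subset_of_card_le (fun z hz => Finset.mem_range.2 (Zg_lt hz)) ?_
  rw [card_Zg, Finset.card_range]

lemma Dt_shift {b p s : ℕ} (hs : 1 ≤ s) : (fun i => Dt b p (s + i)) = fun _ => Finset.range b := by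
  funext i
  unfold Dt
  rw [if_neg (by omega)]

lemma sum_Dg_add {b p s L : ℕ} {M : Type*} [AddCommMonoid M] (hp : p < b) (hs : 1 ≤ s)
    (F : ℕ → M) :
    ∑ n ∈ Dg b p (s + L), F n = ∑ n ∈ Dg b p s, ∑ z ∈ Zg b L, F (n + b ^ s * z) := by
  rw [Dg, HPX.sum_Ds_add (hDt hp), Dt_shift hs]; rfl

lemma sum_Zg_add {b s L : ℕ} {M : Type*} [AddCommMonoid M] (F : ℕ → M) :
    ∑ n ∈ Zg b (s + L), F n = ∑ n ∈ Zg b s, ∑ z ∈ Zg b L, F (n + b ^ s * z) := by
  rw [Zg, HPX.sum_Ds_add (hZ b)]; rfl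

lemma mem_Dg_add {b p s L : ℕ} (hs : 1 ≤ s) {n : ℕ} : n ∈ Dg b p (s + L) ↔
    ∃ x ∈ Dg b p s, ∃ z ∈ Zg b L, x + b ^ s * z = n := by
  rw [Dg, HPX.mem_Ds_add, Dt_shift hs]; rfl

lemma mem_Zg_add {b s L n : ℕ} : n ∈ Zg b (s + L) ↔
    ∃ x ∈ Zg b s, ∃ z ∈ Zg b L, x + b ^ s * z = n := by
  rw [Zg, HPX.mem_Ds_add]; rfl

lemma Dg_one {b p : ℕ} : Dg b p 1 = {p} := by
  simp [Dg, Ds, Dt]

/-- `Dg b p (L + 1)` is the set of the numbers `p + b z` with `z < b ^ L` (also without `p < b`) -/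
lemma Dg_succ_eq {b p L : ℕ} : Dg b p (L + 1) = (Zg b L).image fun z => p + b * z := by
  ext n
  rw [add_comm L 1, mem_Dg_add le_rfl, Finset.mem_image, Dg_one]
  constructor
  · rintro ⟨x, hx, z, hz, rfl⟩
    rw [Finset.mem_singleton] at hx
    exact ⟨z, hz, by rw [hx, pow_one]⟩
  · rintro ⟨z, hz, rfl⟩
    exact ⟨p, Finset.mem_singleton_self p, z, hz, by rw [pow_one]⟩

theorem card_Dg {b p s : ℕ} (hs : 1 ≤ s) : (Dg b p s).card = b ^ (s - 1) := by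
  obtain ⟨L, rfl⟩ := Nat.exists_eq_add_of_le' hs
  rw [Dg_succ_eq, Nat.add_sub_cancel, ← card_Zg]
  rcases Nat.eq_zero_or_pos b with rfl | hb
  · rcases Nat.eq_zero_or_pos L with rfl | hL
    · rw [Zg_eq]; simp
    · rw [Zg_eq, zero_pow (by omega)]; simp
  · refine Finset.card_image_of_injective _ fun x y h => ?_
    have h' : p + b * x = p + b * y := h
    exact Nat.eq_of_mul_eq_mul_left hb (by omega)

lemma Dg_nonempty {b p s : ℕ} (hb : 0 < b) (hs : 1 ≤ s) : (Dg b p s).Nonempty := by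
  rw [← Finset.card_pos, card_Dg hs]
  positivity

lemma Dg_modb {b p s : ℕ} (hp : p < b) (hs : 1 ≤ s) {n : ℕ} (h : n ∈ Dg b p s) :
    n ≡ p [MOD b] := by
  have := HPX.Ds_mod (hDt hp) h hs
  rw [← Dg, Dg_one, pow_one, Finset.mem_singleton] at this
  show n % b = p % b
  rw [this, Nat.mod_eq_of_lt hp]

lemma Dg_coprime {b p s : ℕ} (hB : Bas b p) (hs : 1 ≤ s) {n : ℕ} (h : n ∈ Dg b p s) :
    n.Coprime b := by
  have h1 := (Dg_modb hB.lt hs h).gcd_eq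
  unfold Nat.Coprime
  rw [h1]
  exact hB.cop

theorem Dg_sub {b p s : ℕ} (hB : Bas b p) (hs : 1 ≤ s) :
    Dg b p s ⊆ (Finset.range (b ^ s)).filter fun n => n.Coprime b := by
  intro n hn
  rw [Finset.mem_filter, Finset.mem_range]
  exact ⟨Dg_lt hB.lt hn, Dg_coprime hB hs hn⟩

lemma Dg_pos {b p s : ℕ} (hB : Bas b p) (hs : 1 ≤ s) {n : ℕ} (h : n ∈ Dg b p s) : 0 < n := by
  rcases Nat.eq_zero_or_pos n with rfl | h0
  · have h1 := Dg_coprime hB hs h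
    have h2 := hB.two
    rw [Nat.coprime_zero_left] at h1
    omega
  · exact h0

/-! ### the real number `yv` -/

lemma yv_le_sub {b : ℕ} (hb : 0 < b) (s n : ℕ) :
    yv b s n ≤ b - (b : ℝ) / (b : ℝ) ^ s := by
  have hb' : (0 : ℝ) < b := by exact_mod_cast hb
  unfold yv
  induction s with
  | zero => simp
  | succ s ih =>
    rw [Finset.sum_range_succ]
    have h1 : (dg b n s : ℝ) ≤ b - 1 := by
      have := HPX.dg_lt hb n s
      have : dg b n s + 1 ≤ b := this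
      have : (dg b n s : ℝ) + 1 ≤ b := by exact_mod_cast this
      linarith
    have h2 : (dg b n s : ℝ) / (b : ℝ) ^ s ≤ (b - 1) / (b : ℝ) ^ s := by gcongr
    have h3 : (b : ℝ) - (b : ℝ) / (b : ℝ) ^ (s + 1) =
        (b - (b : ℝ) / (b : ℝ) ^ s) + (b - 1) / (b : ℝ) ^ s := by
      rw [pow_succ]; field_simp; ring
    rw [h3]; linarith

lemma yv_one {b p : ℕ} (hp : p < b) : yv b 1 p = p := by
  unfold yv; simp [HPX.dg_of_lt hp]

/-- mirrored strings: the number `yv` is in `[p, p + 1)` -/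
lemma yv_Dg {b p s : ℕ} (hB : Bas b p) (hs : 1 ≤ s) {n : ℕ} (h : n ∈ Dg b p s) :
    (p : ℝ) ≤ yv b s n ∧ yv b s n < p + 1 := by
  have hb : 0 < b := by have := hB.two; omega
  have hb' : (0 : ℝ) < b := by exact_mod_cast hb
  obtain ⟨L, rfl⟩ := Nat.exists_eq_add_of_le hs
  obtain ⟨x, hx, z, hz, rfl⟩ := (mem_Dg_add le_rfl).1 h
  rw [Dg_one, Finset.mem_singleton] at hx
  subst hx
  have h0 : x < b ^ 1 := by simpa using hB.lt
  rw [HPX.yv_add h0, yv_one hB.lt, pow_one]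
  have h2 := HPX.yv_lt (s := L) hb z
  have h3 := HPX.yv_nonneg (b := b) (s := L) z
  constructor
  · have : 0 ≤ yv b L z / b := by positivity
    linarith
  · have : yv b L z / b < 1 := by
      rw [div_lt_iff₀ hb']; linarith
    linarith

lemma one_le_yv_Dg {b p s : ℕ} (hB : Bas b p) (hs : 1 ≤ s) {n : ℕ} (h : n ∈ Dg b p s) :
    1 ≤ yv b s n := by
  have h1 := (yv_Dg hB hs h).1
  have h2 : (1 : ℝ) ≤ p := by exact_mod_cast hB.pos
  linarith

/-! ### the sum over patterns -/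

lemma Sd_eq {b p : ℕ} (i : ℕ) : Sd b p ∅ i = (Dt b p i).image fun d => (d, d) := by
  unfold Sd Dt
  split_ifs with h0 h1
  · simp
  · simp at h1
  · rfl

lemma mem_Sd {b p i : ℕ} {x : ℕ × ℕ} : x ∈ Sd b p ∅ i ↔ x.1 ∈ Dt b p i ∧ x.2 = x.1 := by
  rw [Sd_eq, Finset.mem_image]
  constructor
  · rintro ⟨d, hd, rfl⟩; exact ⟨hd, rfl⟩
  · rintro ⟨h1, h2⟩; exact ⟨x.1, h1, Prod.ext rfl h2.symm⟩

lemma lowv_eq {b m : ℕ} (ω : Fin m → ℕ × ℕ) : lowv b ω =
    ∑ i ∈ Finset.range m, b ^ i * (if h : i < m then (ω ⟨i, h⟩).1 else 0) := by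
  unfold lowv
  rw [← Fin.sum_univ_eq_sum_range (fun i => b ^ i * (if h : i < m then (ω ⟨i, h⟩).1 else 0)) m]
  refine Finset.sum_congr rfl fun i _ => ?_
  rw [dif_pos i.2, mul_comm]

/-- `sum_RR` with values in any commutative monoid -/
theorem sum_RR' {b p m : ℕ} {M : Type*} [AddCommMonoid M] (hB : Bas b p) (hm : 1 ≤ m)
    (F : ℕ → ℝ → M) :
    ∑ ω ∈ RR b p m ∅, F (lowv b ω) ((topv b ω : ℝ) / (b : ℝ) ^ (m - 1)) =
      ∑ n ∈ Dg b p m, F n (yv b m n) := by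
  have hp := hB.lt
  have hb : 0 < b := by have := hB.two; omega
  have hb' : (0 : ℝ) < b := by exact_mod_cast hb
  have hdig : ∀ ω ∈ RR b p m ∅, ∀ i : Fin m, dg b (lowv b ω) i = (ω i).1 := by
    intro ω hω i
    rw [RR, Fintype.mem_piFinset] at hω
    rw [lowv_eq, HPX.dg_sum _ i i.2, dif_pos i.2]
    intro j hj
    rw [dif_pos hj]
    exact Finset.mem_range.1 (hDt hp j (mem_Sd.1 (hω ⟨j, hj⟩)).1)
  refine Finset.sum_nbij' (lowv b) (fun n i => (dg b n i, dg b n i)) ?_ ?_ ?_ ?_ ?_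
  · intro ω hω
    rw [RR, Fintype.mem_piFinset] at hω
    rw [lowv_eq]
    refine HPX.sum_mem_Ds fun j hj => ?_
    rw [dif_pos hj]
    exact (mem_Sd.1 (hω ⟨j, hj⟩)).1
  · intro n hn
    rw [RR, Fintype.mem_piFinset]
    intro i
    exact mem_Sd.2 ⟨HPX.dg_mem (hDt hp) hn i.2, rfl⟩
  · intro ω hω
    funext i
    have h1 := hdig ω hω i
    rw [RR, Fintype.mem_piFinset] at hω
    have h2 := (mem_Sd.1 (hω i)).2
    exact Prod.ext h1 (by rw [h2]; exact h1)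
  · intro n hn
    rw [lowv_eq]
    conv_rhs => rw [← HPX.sum_dg (hDt hp) hn]
    refine Finset.sum_congr rfl fun i hi => ?_
    rw [dif_pos (Finset.mem_range.1 hi)]
  · intro ω hω
    congr 1
    have h1 := hdig ω hω
    rw [RR, Fintype.mem_piFinset] at hω
    unfold topv yv
    rw [← Fin.sum_univ_eq_sum_range (fun i => (dg b (lowv b ω) i : ℝ) / (b : ℝ) ^ i) m,
      Nat.cast_sum, Finset.sum_div]
    refine Finset.sum_congr rfl fun i _ => ?_
    have h2 := (mem_Sd.1 (hω i)).2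
    rw [h1 i, h2, Nat.cast_mul, Nat.cast_pow]
    have h3 : (b : ℝ) ^ (m - 1) = (b : ℝ) ^ (m - 1 - (i : ℕ)) * (b : ℝ) ^ (i : ℕ) := by
      rw [← pow_add]; congr 1; have := i.2; omega
    rw [h3]
    field_simp

theorem sum_RR {b p m : ℕ} (hB : Bas b p) (hm : 1 ≤ m) (F0 : ℕ → ℝ → ℂ) :
    ∑ ω ∈ RR b p m ∅, F0 (lowv b ω) ((topv b ω : ℝ) / (b : ℝ) ^ (m - 1)) =
      ∑ n ∈ Dg b p m, F0 n (yv b m n) :=
  sum_RR' hB hm F0

lemma card_RR {b p m : ℕ} (hB : Bas b p) (hm : 1 ≤ m) :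
    (RR b p m ∅).card = (Dg b p m).card := by
  rw [Finset.card_eq_sum_ones, Finset.card_eq_sum_ones]
  exact sum_RR' hB hm fun _ _ => 1

end Pool.Agent.HPY
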