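import Pool.Agent.HPY.Iface
import Pool.Agent.HPX.SDefs

/-!
# HPY/SDefs: definitions for part S (full digit sets)

`HPX.Ds, dg, yv, iv, th, nd` are those of `HPX/SDefs`; `Dt, Dg, Zg, gB` are redefined with `range b` in place of
`range (b / 2)`.

IDEA of (S1) (every base). Split the digit string of length `m` as `n + b^s z`, `s = m' - L`, `L = m' / 8`. The
character is additive in `z` (`2 s ≥ m'`) and the phase `-t log top` is linear in the reversed digits of `z` up to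
`b² |t| / b^(2s)`; the sum over `z` is a product over the digits of `D_b(x_r) / b`, `x_r = θ b^r + τ / b^r`, `D_b(x) =
∑_(d < b) e(d x)`, `θ = a n⁻¹ / b^L`, `b ∤ a`. Since `b x_(r+1) - x_r = (b² - 1) θ b^r` (whatever `τ` is), `x_r`, `x_(r+1)`
cannot both be close to integers if `(b² - 1) θ b^r` is far from the integers, e.g. if the four base-`b` digits of `θ`
after position `r` form the number `e₀ = ⌊b⁴ / (2 (b² - 1))⌋`. As `n` varies, the first `4 B` digits of `θ` take every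
value at most `2 b^s / b^(4B)` times (`B = L / (4 b)`), so the average of the product is `≤ 2 b (1 - c / b⁴)^B`.
-/

namespace Pool.Agent.HPY

open Complex MeasureTheory Pool.Agent.HPZ
open Pool.Agent.HPP (Bp PP Gt lv)

open Pool.Agent.HPX (Ds dg yv iv nd th)

/-- digit sets of the mirrored strings -/
def Dt (b p i : ℕ) : Finset ℕ := if i = 0 then {p} else Finset.range b

/-- mirrored strings of length `s` -/
def Dg (b p s : ℕ) : Finset ℕ := Ds b (Dt b p) s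

/-- all strings of length `L` -/
def Zg (b L : ℕ) : Finset ℕ := Ds b (fun _ => Finset.range b) L

/-- normalised geometric sum -/
noncomputable def gB (b : ℕ) (x : ℝ) : ℝ :=
  ‖∑ z ∈ Finset.range b, Complex.exp (2 * Real.pi * I * ((z : ℝ) * x : ℝ))‖ / (b : ℝ)

/-- the good block of four digits -/
def e0 (b : ℕ) : ℕ := b ^ 4 / (2 * (b ^ 2 - 1))

/-- (SLin) linearisation -/
def SLinN : Prop := ∀ (b p m m' s L : ℕ) (V : ℝ → ℝ) (K : ℝ), Bas b p →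
  (∀ y, 0 ≤ V y ∧ V y ≤ 1) → 0 ≤ K → (∀ y z, |V y - V z| ≤ K * |y - z|) → 1 ≤ m' → m' ≤ m →
  1 ≤ s → m' ≤ 2 * s → s + L ≤ m →
  ∀ χ : DirichletCharacter ℂ (b ^ m), χ.FactorsThrough (b ^ m') →
  (2 ≤ m' → ¬ χ.FactorsThrough (b ^ (m' - 1))) →
  ∃ a : ℕ, (s < m' → ¬ b ∣ a) ∧ ∀ t : ℝ,
    ‖cc b p ∅ V χ t‖ ≤ ((RR b p m ∅).card : ℝ) *
      ((b : ℝ) ^ 2 * |t| / (b : ℝ) ^ (2 * s) + K * b / (b : ℝ) ^ s +
        (∑ n ∈ Dg b p s, ∏ r ∈ Finset.range L, gB b (th b m m' s a t r n)) / (Dg b p s).card)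

/-- (SPrd) the product; `θ = w / b ^ L` -/
def SPrdN : Prop := ∀ b : ℕ, 2 ≤ b → ∃ c : ℝ, 0 < c ∧ c ≤ 1 / 2 ∧ ∀ (B L w : ℕ) (τ : ℝ), 4 * B ≤ L →
  ∏ r ∈ Finset.range L, gB b ((w : ℝ) * (b : ℝ) ^ r / (b : ℝ) ^ L + τ / (b : ℝ) ^ r) ≤
    ∏ j ∈ Finset.range B, (if (w / b ^ (L - 4 * (j + 1))) % b ^ 4 = e0 b then 1 - c else 1)

/-- (SAvg) the average over `n` -/
def SAvgN : Prop := ∀ (b m s L B a : ℕ) (c : ℝ), 2 ≤ b → 0 ≤ c → c ≤ 1 → 1 ≤ L → L ≤ s → s ≤ m →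
  4 * b * B ≤ L → ¬ b ∣ a →
  ∑ n ∈ (Finset.range (b ^ s)).filter (fun n => n.Coprime b),
    ∏ j ∈ Finset.range B, (if ((a * iv b m n) / b ^ (L - 4 * (j + 1))) % b ^ 4 = e0 b then 1 - c else 1) ≤
  2 * (b : ℝ) ^ s * (1 - c / (b : ℝ) ^ 4) ^ B

end Pool.Agent.HPY
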